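import Mathlib

set_option linter.unusedSimpArgs false

/-! A small while-language on bit stacks, with a compilation into the multi-stack
Turing machines of Mathlib (`Turing.FinTM2`). -/

namespace Pool.Agent.Lib57

open Turing Turing.TM2

/-- While-programs over bit stacks indexed by natural numbers. -/
inductive Prog : Type
  | skip : Prog
  | push (r : ℕ) (b : Bool) : Prog
  | pop (r : ℕ) : Prog
  | seq (p q : Prog) : Prog
  | loop (r : ℕ) (p : Prog) : Prog
  | case (r : ℕ) (p0 pf pt : Prog) : Prog
  deriving DecidableEq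

abbrev Store := ℕ → List Bool

/-- Big-step semantics with exact step counts. -/
inductive Exec : Prog → Store → Store → ℕ → Prop
  | skip (σ : Store) : Exec .skip σ σ 1
  | push (r : ℕ) (b : Bool) (σ : Store) : Exec (.push r b) σ (Function.update σ r (b :: σ r)) 1
  | pop (r : ℕ) (σ : Store) : Exec (.pop r) σ (Function.update σ r (σ r).tail) 1
  | seq {p q : Prog} {σ σ1 σ2 : Store} {t1 t2 : ℕ} :
      Exec p σ σ1 t1 → Exec q σ1 σ2 t2 → Exec (.seq p q) σ σ2 (t1 + t2 + 1)
  | loop_nil {r : ℕ} {p : Prog} {σ : Store} : σ r = [] → Exec (.loop r p) σ σ 1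
  | loop_cons {r : ℕ} {p : Prog} {σ σ1 σ2 : Store} {t1 t2 : ℕ} :
      σ r ≠ [] → Exec p σ σ1 t1 → Exec (.loop r p) σ1 σ2 t2 → Exec (.loop r p) σ σ2 (t1 + t2 + 1)
  | case_nil {r : ℕ} {p0 pf pt : Prog} {σ σ' : Store} {t : ℕ} :
      σ r = [] → Exec p0 σ σ' t → Exec (.case r p0 pf pt) σ σ' (t + 1)
  | case_false {r : ℕ} {p0 pf pt : Prog} {σ σ' : Store} {t : ℕ} :
      (σ r).head? = some false → Exec pf σ σ' t → Exec (.case r p0 pf pt) σ σ' (t + 1)
  | case_true {r : ℕ} {p0 pf pt : Prog} {σ σ' : Store} {t : ℕ} :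
      (σ r).head? = some true → Exec pt σ σ' t → Exec (.case r p0 pf pt) σ σ' (t + 1)

/-- All registers used are below `m`. -/
def Prog.Bdd (m : ℕ) : Prog → Prop
  | .skip => True
  | .push r _ => r < m
  | .pop r => r < m
  | .seq p q => p.Bdd m ∧ q.Bdd m
  | .loop r p => r < m ∧ p.Bdd m
  | .case r p q s => r < m ∧ p.Bdd m ∧ q.Bdd m ∧ s.Bdd m

theorem Prog.Bdd.mono {m m' : ℕ} (h : m ≤ m') : ∀ {p : Prog}, p.Bdd m → p.Bdd m'
  | .skip, _ => trivial
  | .push _ _, hp => lt_of_lt_of_le hp h
  | .pop _, hp => lt_of_lt_of_le hp h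
  | .seq _ _, hp => ⟨hp.1.mono h, hp.2.mono h⟩
  | .loop _ _, hp => ⟨lt_of_lt_of_le hp.1 h, hp.2.mono h⟩
  | .case _ _ _ _, hp => ⟨lt_of_lt_of_le hp.1 h, hp.2.1.mono h, hp.2.2.1.mono h, hp.2.2.2.mono h⟩

/-- Every program is bounded by some number of registers. -/
theorem Prog.exists_bdd : ∀ p : Prog, ∃ m, p.Bdd m
  | .skip => ⟨0, trivial⟩
  | .push r _ => ⟨r + 1, Nat.lt_succ_self r⟩
  | .pop r => ⟨r + 1, Nat.lt_succ_self r⟩
  | .seq p q => by
    obtain ⟨a, ha⟩ := p.exists_bdd
    obtain ⟨b, hb⟩ := q.exists_bdd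
    exact ⟨max a b, ha.mono (le_max_left _ _), hb.mono (le_max_right _ _)⟩
  | .loop r p => by
    obtain ⟨a, ha⟩ := p.exists_bdd
    exact ⟨max a (r + 1), lt_of_lt_of_le (Nat.lt_succ_self r) (le_max_right _ _),
      ha.mono (le_max_left _ _)⟩
  | .case r p q s => by
    obtain ⟨a, ha⟩ := p.exists_bdd
    obtain ⟨b, hb⟩ := q.exists_bdd
    obtain ⟨c, hc⟩ := s.exists_bdd
    refine ⟨max (max a b) (max c (r + 1)), ?_, ha.mono ?_, hb.mono ?_, hc.mono ?_⟩
    · exact lt_of_lt_of_le (Nat.lt_succ_self r) (le_trans (le_max_right _ _) (le_max_right _ _))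
    · exact le_trans (le_max_left _ _) (le_max_left _ _)
    · exact le_trans (le_max_right _ _) (le_max_left _ _)
    · exact le_trans (le_max_left _ _) (le_max_right _ _)

/-- Continuations reachable while running `p` with continuation `κ`. -/
def conts : Prog → List Prog → Finset (List Prog)
  | .skip, κ => {.skip :: κ}
  | .push r b, κ => {.push r b :: κ}
  | .pop r, κ => {.pop r :: κ}
  | .seq p q, κ => insert (.seq p q :: κ) (conts p (q :: κ) ∪ conts q κ)
  | .loop r p, κ => insert (.loop r p :: κ) (conts p (.loop r p :: κ))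
  | .case r p q s, κ => insert (.case r p q s :: κ) (conts p κ ∪ (conts q κ ∪ conts s κ))

theorem self_mem_conts (p : Prog) (κ : List Prog) : p :: κ ∈ conts p κ := by
  cases p <;> simp [conts]

/-- The label set of the machine compiled from `p`. -/
def labels (p : Prog) : Finset (List Prog) := insert [] (conts p [])

/-- The machine register with number `r`. -/
def reg (m : ℕ) [NeZero m] (r : ℕ) : Fin m := ⟨r % m, Nat.mod_lt _ (Nat.pos_of_ne_zero (NeZero.ne m))⟩

/-- The statement at a label. -/
def stmtOf (m : ℕ) [NeZero m] (S : Finset (List Prog)) (l : {l : List Prog // l ∈ S}) :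
    Turing.TM2.Stmt (fun _ : Fin m => Bool) {l : List Prog // l ∈ S} (Option Bool) :=
  let lab : List Prog → {l : List Prog // l ∈ S} := fun κ => if h : κ ∈ S then ⟨κ, h⟩ else l
  match l.1 with
  | [] => .load (fun _ => none) .halt
  | .skip :: κ => .goto fun _ => lab κ
  | .push r b :: κ => .push (reg m r) (fun _ => b) (.goto fun _ => lab κ)
  | .pop r :: κ => .pop (reg m r) (fun v _ => v) (.goto fun _ => lab κ)
  | .seq p q :: κ => .goto fun _ => lab (p :: q :: κ)
  | .loop r p :: κ => .peek (reg m r) (fun _ s => s)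
      (.branch (fun v => v.isSome) (.goto fun _ => lab (p :: .loop r p :: κ)) (.goto fun _ => lab κ))
  | .case r p q s :: κ => .peek (reg m r) (fun _ s => s)
      (.branch (fun v => v.isNone) (.goto fun _ => lab (p :: κ))
        (.branch (fun v => v == some false) (.goto fun _ => lab (q :: κ))
          (.goto fun _ => lab (s :: κ))))

/-- The machine compiled from a program. -/
def machine (m : ℕ) [NeZero m] (k₀ k₁ : Fin m) (p : Prog) : Turing.FinTM2 where
  K := Fin m
  k₀ := k₀
  k₁ := k₁
  Γ := fun _ => Bool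
  Λ := {l : List Prog // l ∈ labels p}
  main := ⟨[p], Finset.mem_insert_of_mem (self_mem_conts p [])⟩
  σ := Option Bool
  initialState := none
  m := stmtOf m (labels p)

/-- `Steps f a b t`: `t` steps of `f` lead from `a` to `b`. -/
def Steps {C : Type*} (f : C → Option C) (a b : C) (t : ℕ) : Prop :=
  (flip bind f)^[t] (some a) = some b

theorem Steps.trans {C : Type*} {f : C → Option C} {a b c : C} {t u : ℕ}
    (h1 : Steps f a b t) (h2 : Steps f b c u) : Steps f a c (t + u) := by
  unfold Steps at *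
  rw [Nat.add_comm, Function.iterate_add_apply, h1, h2]

theorem Steps.one {C : Type*} {f : C → Option C} {a b : C} (h : f a = some b) :
    Steps f a b 1 := by
  simp [Steps, flip, h]

/-- Restriction of a store to the registers of the machine. -/
def restr (m : ℕ) (σ : Store) : Fin m → List Bool := fun i => σ i

theorem restr_update {m : ℕ} [NeZero m] (σ : Store) (r : ℕ) (hr : r < m) (l : List Bool) :
    restr m (Function.update σ r l) =
      Function.update (restr m σ) (reg m r) l := by
  funext i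
  by_cases h : i = reg m r
  · subst h
    simp [restr, reg, Nat.mod_eq_of_lt hr]
  · rw [Function.update_of_ne h]
    have : (i : ℕ) ≠ r := by
      intro h'
      apply h
      apply Fin.ext
      simp [reg, Nat.mod_eq_of_lt hr, h']
    simp [restr, Function.update_of_ne this]

theorem restr_ofNat {m : ℕ} [NeZero m] (σ : Store) (r : ℕ) (hr : r < m) :
    restr m σ (reg m r) = σ r := by
  simp [restr, reg, Nat.mod_eq_of_lt hr]

section sim

variable {m : ℕ} [NeZero m] (S : Finset (List Prog))

/-- configuration of the compiled machine -/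
def cfg (κ : List Prog) (h : κ ∈ S) (v : Option Bool) (σ : Store) :
    Turing.TM2.Cfg (fun _ : Fin m => Bool) {l : List Prog // l ∈ S} (Option Bool) :=
  ⟨some ⟨κ, h⟩, v, restr m σ⟩

theorem exec_sim {p : Prog} {σ σ' : Store} {t : ℕ} (h : Exec p σ σ' t) (hb : p.Bdd m) :
    ∀ (κ : List Prog) (hS : conts p κ ⊆ S) (hκ : κ ∈ S) (v : Option Bool),
      ∃ v', Steps (Turing.TM2.step (stmtOf m S))
        (cfg S (p :: κ) (hS (self_mem_conts p κ)) v σ) (cfg S κ hκ v' σ') t := by
  induction h with
  | skip σ =>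
    intro κ hS hκ v
    refine ⟨v, Steps.one ?_⟩
    simp [cfg, Turing.TM2.step, stmtOf, Turing.TM2.stepAux, hκ]
  | push r b σ =>
    intro κ hS hκ v
    have hr : r < m := hb
    refine ⟨v, Steps.one ?_⟩
    simp [cfg, Turing.TM2.step, stmtOf, Turing.TM2.stepAux, hκ, restr_update _ _ hr,
      restr_ofNat _ _ hr]
  | pop r σ =>
    intro κ hS hκ v
    have hr : r < m := hb
    refine ⟨v, Steps.one ?_⟩
    simp [cfg, Turing.TM2.step, stmtOf, Turing.TM2.stepAux, hκ, restr_update _ _ hr,
      restr_ofNat _ _ hr]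
  | @seq p q σ σ1 σ2 t1 t2 h1 h2 ih1 ih2 =>
    intro κ hS hκ v
    have hS1 : conts p (q :: κ) ⊆ S := fun x hx => hS (by simp [conts, hx])
    have hS2 : conts q κ ⊆ S := fun x hx => hS (by simp [conts, hx])
    obtain ⟨v1, hv1⟩ := ih1 hb.1 (q :: κ) hS1 (hS2 (self_mem_conts q κ)) v
    obtain ⟨v2, hv2⟩ := ih2 hb.2 κ hS2 hκ v1
    refine ⟨v2, ?_⟩
    have h0 : Steps (Turing.TM2.step (stmtOf m S))
        (cfg S (Prog.seq p q :: κ) (hS (self_mem_conts _ κ)) v σ)
        (cfg S (p :: q :: κ) (hS1 (self_mem_conts p _)) v σ) 1 := by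
      apply Steps.one
      have : p :: q :: κ ∈ S := hS1 (self_mem_conts p _)
      simp [cfg, Turing.TM2.step, stmtOf, Turing.TM2.stepAux, this]
    have := (h0.trans hv1).trans hv2
    convert this using 1
    ring
  | @loop_nil r p σ hr =>
    intro κ hS hκ v
    refine ⟨none, Steps.one ?_⟩
    simp [cfg, Turing.TM2.step, stmtOf, Turing.TM2.stepAux, hκ, restr_ofNat _ _ hb.1, hr]
  | @loop_cons r p σ σ1 σ2 t1 t2 hr h1 h2 ih1 ih2 =>
    intro κ hS hκ v
    have hS1 : conts p (Prog.loop r p :: κ) ⊆ S := fun x hx => hS (by simp [conts, hx])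
    have hl : Prog.loop r p :: κ ∈ S := hS (self_mem_conts _ κ)
    have hpl : p :: Prog.loop r p :: κ ∈ S := hS1 (self_mem_conts p _)
    obtain ⟨v1, hv1⟩ := ih1 hb.2 (Prog.loop r p :: κ) hS1 hl (σ r).head?
    obtain ⟨v2, hv2⟩ := ih2 hb κ hS hκ v1
    refine ⟨v2, ?_⟩
    have h0 : Steps (Turing.TM2.step (stmtOf m S))
        (cfg S (Prog.loop r p :: κ) hl v σ)
        (cfg S (p :: Prog.loop r p :: κ) hpl (σ r).head? σ) 1 := by
      apply Steps.one
      obtain ⟨x, l, hx⟩ : ∃ x l, σ r = x :: l := List.exists_cons_of_ne_nil hr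
      simp [cfg, Turing.TM2.step, stmtOf, Turing.TM2.stepAux, hpl, restr_ofNat _ _ hb.1, hx]
    have := (h0.trans hv1).trans hv2
    convert this using 1
    ring
  | @case_nil r p0 pf pt σ σ' t hr h1 ih1 =>
    intro κ hS hκ v
    have hS1 : conts p0 κ ⊆ S := fun x hx => hS (by simp [conts, hx])
    have hpl : p0 :: κ ∈ S := hS1 (self_mem_conts p0 _)
    obtain ⟨v1, hv1⟩ := ih1 hb.2.1 κ hS1 hκ none
    refine ⟨v1, ?_⟩
    have h0 : Steps (Turing.TM2.step (stmtOf m S))
        (cfg S (Prog.case r p0 pf pt :: κ) (hS (self_mem_conts _ κ)) v σ)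
        (cfg S (p0 :: κ) hpl none σ) 1 := by
      apply Steps.one
      simp [cfg, Turing.TM2.step, stmtOf, Turing.TM2.stepAux, hpl, restr_ofNat _ _ hb.1, hr]
    have := h0.trans hv1
    convert this using 1
    ring
  | @case_false r p0 pf pt σ σ' t hr h1 ih1 =>
    intro κ hS hκ v
    have hS1 : conts pf κ ⊆ S := fun x hx => hS (by simp [conts, hx])
    have hpl : pf :: κ ∈ S := hS1 (self_mem_conts pf _)
    obtain ⟨v1, hv1⟩ := ih1 hb.2.2.1 κ hS1 hκ (some false)
    refine ⟨v1, ?_⟩
    have h0 : Steps (Turing.TM2.step (stmtOf m S))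
        (cfg S (Prog.case r p0 pf pt :: κ) (hS (self_mem_conts _ κ)) v σ)
        (cfg S (pf :: κ) hpl (some false) σ) 1 := by
      apply Steps.one
      simp [cfg, Turing.TM2.step, stmtOf, Turing.TM2.stepAux, hpl, restr_ofNat _ _ hb.1, hr]
    have := h0.trans hv1
    convert this using 1
    ring
  | @case_true r p0 pf pt σ σ' t hr h1 ih1 =>
    intro κ hS hκ v
    have hS1 : conts pt κ ⊆ S := fun x hx => hS (by simp [conts, hx])
    have hpl : pt :: κ ∈ S := hS1 (self_mem_conts pt _)
    obtain ⟨v1, hv1⟩ := ih1 hb.2.2.2 κ hS1 hκ (some true)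
    refine ⟨v1, ?_⟩
    have h0 : Steps (Turing.TM2.step (stmtOf m S))
        (cfg S (Prog.case r p0 pf pt :: κ) (hS (self_mem_conts _ κ)) v σ)
        (cfg S (pt :: κ) hpl (some true) σ) 1 := by
      apply Steps.one
      simp [cfg, Turing.TM2.step, stmtOf, Turing.TM2.stepAux, hpl, restr_ofNat _ _ hb.1, hr]
    have := h0.trans hv1
    convert this using 1
    ring

end sim

/-- A while-program computing `f` within a polynomial number of steps makes `f` computable
in polynomial time in the sense of Mathlib. -/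
theorem computable_of_prog {α β : Type} (ea : α → List Bool) (eb : β → List Bool) (f : α → β)
    (prog : Prog) (r₀ r₁ : ℕ) (P : Polynomial ℕ)
    (h : ∀ a, ∃ t ≤ P.eval (ea a).length,
      Exec prog (Function.update (fun _ => []) r₀ (ea a))
        (Function.update (fun _ => []) r₁ (eb (f a))) t) :
    Nonempty (Turing.TM2ComputableInPolyTime ea eb f) := by
  obtain ⟨m0, hm0⟩ := prog.exists_bdd
  let m := max (max r₀ r₁) m0 + 1
  have : NeZero m := ⟨Nat.succ_ne_zero _⟩
  have hr₀ : r₀ < m := Nat.lt_succ_of_le (le_trans (le_max_left _ _) (le_max_left _ _))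
  have hr₁ : r₁ < m := Nat.lt_succ_of_le (le_trans (le_max_right _ _) (le_max_left _ _))
  have hb : prog.Bdd m := hm0.mono (Nat.le_succ_of_le (le_max_right _ _))
  choose t ht hexec using h
  refine ⟨⟨⟨machine m (reg m r₀) (reg m r₁) prog, Equiv.refl _, Equiv.refl _⟩, P + 1, ?_⟩⟩
  intro a
  have hS : conts prog [] ⊆ labels prog := Finset.subset_insert _ _
  have hnil : ([] : List Prog) ∈ labels prog := Finset.mem_insert_self _ _
  have hsim := exec_sim (m := m) (labels prog) (hexec a) hb [] hS hnil none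
  refine ⟨⟨t a + 1, ?_⟩, ?_⟩
  · obtain ⟨v', hv'⟩ := hsim
    have hend : Steps (Turing.TM2.step (stmtOf m (labels prog)))
        (cfg (labels prog) [] hnil v' (Function.update (fun _ => []) r₁ (eb (f a))))
        (⟨none, none, restr m (Function.update (fun _ => []) r₁ (eb (f a)))⟩) 1 := by
      apply Steps.one
      simp [cfg, Turing.TM2.step, stmtOf, Turing.TM2.stepAux]
    have htot := hv'.trans hend
    unfold Steps at htot
    have hinit : Turing.initList (machine m (reg m r₀) (reg m r₁) prog)
        (List.map (Equiv.refl (Bool)).invFun (ea a)) =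
        cfg (labels prog) [prog] (hS (self_mem_conts prog []))
          none (Function.update (fun _ => []) r₀ (ea a)) := by
      simp only [Turing.initList, cfg, machine]
      congr 1
      rw [restr_update _ _ hr₀]
      funext i
      by_cases hi : i = reg m r₀
      · subst hi
        simp
      · simp [hi, restr]
    have hfin : Turing.haltList (machine m (reg m r₀) (reg m r₁) prog)
        (List.map (Equiv.refl (Bool)).invFun (eb (f a))) =
        ⟨none, none, restr m (Function.update (fun _ => []) r₁ (eb (f a)))⟩ := by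
      simp only [Turing.haltList, machine]
      congr 1
      rw [restr_update _ _ hr₁]
      funext i
      by_cases hi : i = reg m r₁
      · subst hi
        simp
      · simp [hi, restr]
    have e1 : (List.map (Equiv.refl (Bool)).invFun (ea a)) = ea a := by simp
    simp only [Option.map_some]
    have hgoal : (flip bind (machine m (reg m r₀) (reg m r₁) prog).step)^[t a + 1]
        (some (Turing.initList (machine m (reg m r₀) (reg m r₁) prog)
          (List.map (Equiv.refl (Bool)).invFun (ea a)))) =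
        some (Turing.haltList (machine m (reg m r₀) (reg m r₁) prog)
          (List.map (Equiv.refl (Bool)).invFun (eb (f a)))) := by
      rw [hfin, hinit]
      exact htot
    exact hgoal
  · have := ht a
    simp only [Polynomial.eval_add, Polynomial.eval_one]
    omega

end Pool.Agent.Lib57
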