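import Mathlib
import Pool.Agent.Lib_helper57.WhileLang

/-! Functions printed by nested bounded loops with bounded-arithmetic tests are computable in
polynomial time. -/

namespace Pool.Agent.Lib57

open Function

/-! ### polynomially bounded functions -/

/-- polynomially bounded -/
def PB (B : ℕ → ℕ) : Prop := ∃ c, ∀ s, B s ≤ (s + 2) ^ c

theorem PB.mono {A B : ℕ → ℕ} (h : ∀ s, A s ≤ B s) (hB : PB B) : PB A := by
  obtain ⟨c, hc⟩ := hB
  exact ⟨c, fun s => (h s).trans (hc s)⟩

theorem PB.const (n : ℕ) : PB (fun _ => n) := by
  refine ⟨n, fun s => ?_⟩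
  have h1 : n ≤ 2 ^ n := Nat.lt_two_pow_self.le
  exact h1.trans (Nat.pow_le_pow_left (by omega) n)

theorem PB.id : PB (fun s => s) := ⟨1, fun s => by simp⟩

theorem PB.mul {A B : ℕ → ℕ} (hA : PB A) (hB : PB B) : PB (fun s => A s * B s) := by
  obtain ⟨a, ha⟩ := hA
  obtain ⟨b, hb⟩ := hB
  refine ⟨a + b, fun s => ?_⟩
  rw [pow_add]
  exact Nat.mul_le_mul (ha s) (hb s)

theorem PB.add {A B : ℕ → ℕ} (hA : PB A) (hB : PB B) : PB (fun s => A s + B s) := by
  obtain ⟨a, ha⟩ := hA
  obtain ⟨b, hb⟩ := hB
  refine ⟨a + b + 1, fun s => ?_⟩
  have h1 : (s + 2) ^ a ≤ (s + 2) ^ (a + b) := Nat.pow_le_pow_right (by omega) (by omega)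
  have h2 : (s + 2) ^ b ≤ (s + 2) ^ (a + b) := Nat.pow_le_pow_right (by omega) (by omega)
  have h3 : (s + 2) ^ (a + b + 1) = (s + 2) ^ (a + b) * (s + 2) := pow_succ _ _
  have h4 := ha s
  have h5 := hb s
  have h6 : (s + 2) ^ (a + b) * 2 ≤ (s + 2) ^ (a + b) * (s + 2) := Nat.mul_le_mul_left _ (by omega)
  show A s + B s ≤ _
  rw [h3]
  linarith

theorem PB.comp {A B : ℕ → ℕ} (hA : PB A) (hB : PB B) : PB (fun s => A (B s)) := by
  obtain ⟨a, ha⟩ := hA
  obtain ⟨b, hb⟩ := hB
  refine ⟨(b + 2) * a, fun s => (ha (B s)).trans ?_⟩
  rw [pow_mul]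
  apply Nat.pow_le_pow_left
  have h1 := hb s
  have h2 : 1 ≤ (s + 2) ^ b := Nat.one_le_pow _ _ (by omega)
  have h3 : (s + 2) ^ (b + 2) = (s + 2) ^ b * (s + 2) ^ 2 := pow_add _ _ _
  have h4 : (s + 2) ^ b * 4 ≤ (s + 2) ^ b * (s + 2) ^ 2 := 
    Nat.mul_le_mul_left _ (Nat.pow_le_pow_left (by omega : 2 ≤ s + 2) 2)
  rw [h3]
  omega

/-! ### bounded execution -/

/-- `p` leads from `σ` to `σ'` in at most `T` steps -/
def ExecLe (p : Prog) (σ σ' : Store) (T : ℕ) : Prop := ∃ t ≤ T, Exec p σ σ' t

theorem ExecLe.mono {p : Prog} {σ σ' : Store} {T T' : ℕ} (h : ExecLe p σ σ' T) (hT : T ≤ T') :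
    ExecLe p σ σ' T' := by
  obtain ⟨t, ht, he⟩ := h
  exact ⟨t, ht.trans hT, he⟩

theorem ExecLe.congr {p : Prog} {σ σ' σ'' : Store} {T : ℕ} (h : ExecLe p σ σ' T) (hσ : σ' = σ'') :
    ExecLe p σ σ'' T := hσ ▸ h

theorem ExecLe.push (r : ℕ) (b : Bool) (σ : Store) :
    ExecLe (.push r b) σ (update σ r (b :: σ r)) 1 := ⟨1, le_rfl, .push r b σ⟩

theorem ExecLe.pop (r : ℕ) (σ : Store) :
    ExecLe (.pop r) σ (update σ r (σ r).tail) 1 := ⟨1, le_rfl, .pop r σ⟩

theorem ExecLe.skip (σ : Store) : ExecLe .skip σ σ 1 := ⟨1, le_rfl, .skip σ⟩

theorem ExecLe.seq {p q : Prog} {σ σ1 σ2 : Store} {T1 T2 : ℕ} (h1 : ExecLe p σ σ1 T1)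
    (h2 : ExecLe q σ1 σ2 T2) : ExecLe (.seq p q) σ σ2 (T1 + T2 + 1) := by
  obtain ⟨t1, ht1, he1⟩ := h1
  obtain ⟨t2, ht2, he2⟩ := h2
  exact ⟨t1 + t2 + 1, by omega, .seq he1 he2⟩

theorem ExecLe.case_nil {r : ℕ} {p0 pf pt : Prog} {σ σ' : Store} {T : ℕ} (h : σ r = [])
    (h1 : ExecLe p0 σ σ' T) : ExecLe (.case r p0 pf pt) σ σ' (T + 1) := by
  obtain ⟨t1, ht1, he1⟩ := h1
  exact ⟨t1 + 1, by omega, .case_nil h he1⟩

theorem ExecLe.case_false {r : ℕ} {p0 pf pt : Prog} {σ σ' : Store} {T : ℕ}
    (h : (σ r).head? = some false)
    (h1 : ExecLe pf σ σ' T) : ExecLe (.case r p0 pf pt) σ σ' (T + 1) := by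
  obtain ⟨t1, ht1, he1⟩ := h1
  exact ⟨t1 + 1, by omega, .case_false h he1⟩

theorem ExecLe.case_true {r : ℕ} {p0 pf pt : Prog} {σ σ' : Store} {T : ℕ}
    (h : (σ r).head? = some true)
    (h1 : ExecLe pt σ σ' T) : ExecLe (.case r p0 pf pt) σ σ' (T + 1) := by
  obtain ⟨t1, ht1, he1⟩ := h1
  exact ⟨t1 + 1, by omega, .case_true h he1⟩

/-- The basic rule for loops: `S v` is the store when `v` iterations remain. -/
theorem ExecLe.loop {r : ℕ} {q : Prog} (S : ℕ → Store) (T : ℕ) (h0 : S 0 r = []) :
    ∀ n : ℕ, (∀ v < n, S (v + 1) r ≠ []) → (∀ v < n, ExecLe q (S (v + 1)) (S v) T) →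
      ExecLe (.loop r q) (S n) (S 0) (n * (T + 1) + 1) := by
  intro n
  induction n with
  | zero =>
    intro h _
    exact ⟨1, by simp, .loop_nil h0⟩
  | succ n ih =>
    intro h hb
    have hne : S (n + 1) r ≠ [] := h n (Nat.lt_succ_self n)
    obtain ⟨t1, ht1, he1⟩ := hb n (Nat.lt_succ_self n)
    obtain ⟨t2, ht2, he2⟩ := ih (fun v hv => h v (by omega)) (fun v hv => hb v (by omega))
    refine ⟨t1 + t2 + 1, ?_, .loop_cons hne he1 he2⟩
    have : (n + 1) * (T + 1) = n * (T + 1) + (T + 1) := by ring
    omega

/-- The basic rule for loops with explicit first and last store. -/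
theorem ExecLe.loop' {r : ℕ} {q : Prog} {σ σ' : Store} (S : ℕ → Store) (T n : ℕ)
    (hσ : S n = σ) (hσ' : S 0 = σ') (h0 : σ' r = []) (h : ∀ v < n, S (v + 1) r ≠ [])
    (hb : ∀ v < n, ExecLe q (S (v + 1)) (S v) T) :
    ExecLe (.loop r q) σ σ' (n * (T + 1) + 1) := by
  subst hσ; subst hσ'
  exact ExecLe.loop S T h0 n h hb

/-! ### basic macros -/

/-- a list of `n` ones -/
abbrev un (n : ℕ) : List Bool := List.replicate n true

/-- append register `a` (holding ones) to register `b`, clearing `a` -/
def moveP (a b : ℕ) : Prog := .loop a (.seq (.pop a) (.push b true))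

theorem moveP_exec {a b : ℕ} (hab : a ≠ b) (σ : Store) (n : ℕ) (ha : σ a = un n) :
    ExecLe (moveP a b) σ (update (update σ a []) b (un n ++ σ b)) (n * 4 + 1) := by
  refine ExecLe.loop' (fun v => update (update σ a (un v)) b (un (n - v) ++ σ b)) 3 n
    ?_ ?_ ?_ ?_ ?_
  · funext j
    simp only [Function.update_apply]
    split_ifs <;> simp_all
  · simp
  · simp [hab]
  · intro v hv; simp [hab, List.replicate_succ]
  · intro v hv
    have e : n - v = (n - (v + 1)) + 1 := by omega
    refine ((ExecLe.pop a _).seq (ExecLe.push b true _)).congr ?_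
    funext j
    simp only [Function.update_apply]
    split_ifs <;> simp_all [List.replicate_succ]

/-- clear a register -/
def clearP (a : ℕ) : Prog := .loop a (.pop a)

theorem clearP_exec (a : ℕ) (σ : Store) :
    ExecLe (clearP a) σ (update σ a []) ((σ a).length * 2 + 1) := by
  refine ExecLe.loop' (fun v => update σ a ((σ a).drop ((σ a).length - v))) 1 _ ?_ ?_ ?_ ?_ ?_
  · simp
  · simp
  · simp
  · intro v hv
    simp only [Function.update_self, ne_eq, List.drop_eq_nil_iff, not_le]
    omega
  · intro v hv
    refine (ExecLe.pop a _).congr ?_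
    simp only [Function.update_self, Function.update_idem, List.tail_drop]
    congr 2
    omega

/-- copy register `a` (holding ones) to register `b`, using the empty register `c` -/
def copyP (a b c : ℕ) : Prog :=
  .seq (moveP a c) (.loop c (.seq (.pop c) (.seq (.push a true) (.push b true))))

theorem copyP_exec {a b c : ℕ} (hab : a ≠ b) (hac : a ≠ c) (hbc : b ≠ c) (σ : Store) (n : ℕ)
    (ha : σ a = un n) (hc : σ c = []) :
    ExecLe (copyP a b c) σ (update σ b (un n ++ σ b)) (n * 10 + 3) := by
  have h1 := moveP_exec hac σ n ha
  have h2 : ExecLe (.loop c (.seq (.pop c) (.seq (.push a true) (.push b true))))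
      (update (update σ a []) c (un n ++ σ c)) (update σ b (un n ++ σ b)) (n * (5 + 1) + 1) := by
    refine ExecLe.loop' (fun v => update (update (update σ a (un (n - v))) c (un v)) b
      (un (n - v) ++ σ b)) 5 n ?_ ?_ ?_ ?_ ?_
    · funext j
      simp only [Function.update_apply]
      split_ifs <;> simp_all
    · funext j
      simp only [Function.update_apply]
      split_ifs <;> simp_all
    · simp [Function.update_of_ne (Ne.symm hbc), hc]
    · intro v hv; simp [Function.update_of_ne (Ne.symm hbc), List.replicate_succ]
    · intro v hv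
      have e : n - v = (n - (v + 1)) + 1 := by omega
      refine ((ExecLe.pop c _).seq ((ExecLe.push a true _).seq (ExecLe.push b true _))).congr ?_
      funext j
      simp only [Function.update_apply]
      split_ifs <;> simp_all [List.replicate_succ]
  exact (h1.seq h2).mono (by omega)

/-! ### terms -/

/-- The store holds the input `x` in register `0`, the values `e i` (`i < k`) in unary in the
registers `ρ i`, and all registers from `tgt` on are empty. -/
structure Agree (k tgt : ℕ) (ρ : ℕ → ℕ) (x : List Bool) (e : ℕ → ℕ) (σ : Store) : Prop where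
  inp : σ 0 = x
  vars : ∀ i, i < k → σ (ρ i) = un (e i)
  free : ∀ j, tgt ≤ j → σ j = []

/-- The registers `ρ i` of the `k` variables lie between `3` and `tgt`. -/
def Scope (k tgt : ℕ) (ρ : ℕ → ℕ) : Prop := 3 ≤ tgt ∧ ∀ i, i < k → 3 ≤ ρ i ∧ ρ i < tgt

theorem Scope.succ {k tgt : ℕ} {ρ : ℕ → ℕ} (h : Scope k tgt ρ) : Scope k (tgt + 1) ρ :=
  ⟨by have := h.1; omega, fun i hi => ⟨(h.2 i hi).1, by have := (h.2 i hi).2; omega⟩⟩

/-- Updating the first free register. -/
theorem Agree.updateFree {k tgt : ℕ} {ρ : ℕ → ℕ} {x : List Bool} {e : ℕ → ℕ} {σ : Store}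
    (hs : Scope k tgt ρ) (h : Agree k tgt ρ x e σ) (l : List Bool) :
    Agree k (tgt + 1) ρ x e (update σ tgt l) where
  inp := by
    rw [Function.update_of_ne (by have := hs.1; omega)]
    exact h.inp
  vars i hi := by
    rw [Function.update_of_ne (by have := (hs.2 i hi).2; omega)]
    exact h.vars i hi
  free j hj := by
    rw [Function.update_of_ne (by omega)]
    exact h.free j (by omega)

theorem Agree.mono {k tgt tgt' : ℕ} {ρ : ℕ → ℕ} {x : List Bool} {e : ℕ → ℕ} {σ : Store}
    (h : Agree k tgt ρ x e σ) (ht : tgt ≤ tgt') : Agree k tgt' ρ x e σ where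
  inp := h.inp
  vars := h.vars
  free j hj := h.free j (by omega)

/-- Updating register `1` or `2`. -/
theorem Agree.updateOut {k tgt : ℕ} {ρ : ℕ → ℕ} {x : List Bool} {e : ℕ → ℕ} {σ : Store}
    (hs : Scope k tgt ρ) (h : Agree k tgt ρ x e σ) (r : ℕ) (hr : r = 1 ∨ r = 2) (l : List Bool) :
    Agree k tgt ρ x e (update σ r l) where
  inp := by
    rw [Function.update_of_ne (by omega)]
    exact h.inp
  vars i hi := by
    rw [Function.update_of_ne (by have := (hs.2 i hi).1; omega)]
    exact h.vars i hi
  free j hj := by
    have := hs.1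
    rw [Function.update_of_ne (by omega)]
    exact h.free j (by omega)

/-- Numerical functions of the input and of `k` variables that are computable in unary within a
polynomial number of steps. -/
structure IsTerm (k : ℕ) (f : List Bool → (ℕ → ℕ) → ℕ) : Prop where
  indep : ∀ x e e', (∀ i, i < k → e i = e' i) → f x e = f x e'
  comp : ∀ tgt ρ, Scope k tgt ρ → ∃ (p : Prog) (B : ℕ → ℕ), PB B ∧
    ∀ x e σ s, Agree k tgt ρ x e σ → x.length ≤ s → (∀ i, i < k → e i ≤ s) →
      f x e ≤ B s ∧ ExecLe p σ (update σ tgt (un (f x e))) (B s)

theorem IsTerm.weaken {k k' : ℕ} {f : List Bool → (ℕ → ℕ) → ℕ} (h : IsTerm k f) (hk : k ≤ k') :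
    IsTerm k' f where
  indep x e e' he := h.indep x e e' fun i hi => he i (by omega)
  comp tgt ρ hs := by
    obtain ⟨p, B, hB, hp⟩ := h.comp tgt ρ ⟨hs.1, fun i hi => hs.2 i (by omega)⟩
    exact ⟨p, B, hB, fun x e σ s ha hx he =>
      hp x e σ s ⟨ha.inp, fun i hi => ha.vars i (by omega), ha.free⟩ hx
        fun i hi => he i (by omega)⟩

/-- the program pushing `c` ones on register `r` -/
def pushN (r : ℕ) : ℕ → Prog
  | 0 => .skip
  | n + 1 => .seq (pushN r n) (.push r true)

theorem pushN_exec (r : ℕ) (σ : Store) (n : ℕ) :
    ExecLe (pushN r n) σ (update σ r (un n ++ σ r)) (2 * n + 1) := by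
  induction n with
  | zero => exact (ExecLe.skip σ).congr (by simp)
  | succ n ih =>
    refine ((ih.seq (ExecLe.push r true _)).mono (by omega)).congr ?_
    simp [List.replicate_succ]

theorem IsTerm.const (k c : ℕ) : IsTerm k (fun _ _ => c) where
  indep _ _ _ _ := rfl
  comp tgt ρ _ := by
    refine ⟨pushN tgt c, fun _ => 2 * c + 1, PB.const _, fun x e σ s ha _ _ => ⟨by dsimp only; omega, ?_⟩⟩
    refine (pushN_exec tgt σ c).congr ?_
    simp [ha.free tgt le_rfl]

theorem IsTerm.var {k i : ℕ} (hi : i < k) : IsTerm k (fun _ e => e i) where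
  indep _ _ _ h := h i hi
  comp tgt ρ hs := by
    refine ⟨copyP (ρ i) tgt (tgt + 1), fun s => s * 10 + 3,
      (PB.id.mul (PB.const 10)).add (PB.const 3), fun x e σ s ha _ he => ⟨?_, ?_⟩⟩
    · have := he i hi
      dsimp only; omega
    · have h1 := (hs.2 i hi).2
      have := he i hi
      refine ((copyP_exec (by omega) (by omega) (by omega) σ (e i) (ha.vars i hi)
        (ha.free _ (by omega))).mono (by dsimp only; omega)).congr ?_
      simp [ha.free tgt le_rfl]

theorem IsTerm.add {k : ℕ} {f g : List Bool → (ℕ → ℕ) → ℕ} (hf : IsTerm k f) (hg : IsTerm k g) :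
    IsTerm k (fun x e => f x e + g x e) where
  indep x e e' h := by rw [hf.indep x e e' h, hg.indep x e e' h]
  comp tgt ρ hs := by
    obtain ⟨p, A, hA, hp⟩ := hf.comp tgt ρ hs
    obtain ⟨q, B, hB, hq⟩ := hg.comp (tgt + 1) ρ hs.succ
    refine ⟨.seq p (.seq q (moveP (tgt + 1) tgt)), fun s => A s + B s * 5 + 3,
      (hA.add (hB.mul (PB.const 5))).add (PB.const 3), fun x e σ s ha hx he => ⟨?_, ?_⟩⟩
    · have h1 := (hp x e σ s ha hx he).1
      have h2 := (hq x e _ s (ha.updateFree hs []) hx he).1
      dsimp only; omega
    · have h1 := (hp x e σ s ha hx he).2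
      obtain ⟨h0, h2⟩ := hq x e _ s (ha.updateFree hs (un (f x e))) hx he
      have h3 := moveP_exec (a := tgt + 1) (b := tgt) (by omega)
        (update (update σ tgt (un (f x e))) (tgt + 1) (un (g x e))) (g x e) (by simp)
      refine ((h1.seq (h2.seq h3)).mono (by dsimp only; omega)).congr ?_
      have hf1 := ha.free (tgt + 1) (by omega)
      funext j
      simp only [Function.update_apply]
      split_ifs <;> first | omega | simp_all [Nat.add_comm]

theorem IsTerm.mul {k : ℕ} {f g : List Bool → (ℕ → ℕ) → ℕ} (hf : IsTerm k f) (hg : IsTerm k g) :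
    IsTerm k (fun x e => f x e * g x e) where
  indep x e e' h := by rw [hf.indep x e e' h, hg.indep x e e' h]
  comp tgt ρ hs := by
    obtain ⟨p, A, hA, hp⟩ := hf.comp (tgt + 1) ρ hs.succ
    obtain ⟨q, B, hB, hq⟩ := hg.comp (tgt + 2) ρ hs.succ.succ
    refine ⟨.seq p (.seq q (.seq (.loop (tgt + 1) (.seq (.pop (tgt + 1))
        (copyP (tgt + 2) tgt (tgt + 3)))) (clearP (tgt + 2)))),
      fun s => A s + B s + (A s * (B s * 10 + 6)) + (B s * 2) + 5,
      (((hA.add hB).add (hA.mul ((hB.mul (PB.const 10)).add (PB.const 6)))).add
        (hB.mul (PB.const 2))).add (PB.const 5), fun x e σ s ha hx he => ?_⟩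
    obtain ⟨hfA, h1⟩ := hp x e σ s (ha.mono (by omega)) hx he
    obtain ⟨hgB, h2⟩ := hq x e _ s
      ((ha.mono (by omega : tgt ≤ tgt + 1)).updateFree hs.succ (un (f x e))) hx he
    have f0 := ha.free tgt le_rfl
    have f1 := ha.free (tgt + 1) (by omega)
    have f2 := ha.free (tgt + 2) (by omega)
    have f3 := ha.free (tgt + 3) (by omega)
    have h3 : ExecLe (.loop (tgt + 1) (.seq (.pop (tgt + 1)) (copyP (tgt + 2) tgt (tgt + 3))))
        (update (update σ (tgt + 1) (un (f x e))) (tgt + 2) (un (g x e)))
        (update (update σ tgt (un (f x e * g x e))) (tgt + 2) (un (g x e)))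
        (f x e * ((g x e * 10 + 5) + 1) + 1) := by
      refine ExecLe.loop' (fun v => update (update (update σ (tgt + 1) (un v))
        (tgt + 2) (un (g x e))) tgt (un ((f x e - v) * g x e))) _ (f x e) ?_ ?_ ?_ ?_ ?_
      · funext j
        simp only [Function.update_apply]
        split_ifs <;> first | omega | simp_all
      · funext j
        simp only [Function.update_apply]
        split_ifs <;> first | omega | simp_all
      · simp [f1]
      · intro v hv; simp [List.replicate_succ]
      · intro v hv
        have e1 : (f x e - v) * g x e = g x e + (f x e - (v + 1)) * g x e := by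
          have : f x e - v = (f x e - (v + 1)) + 1 := by omega
          rw [this]; ring
        refine (((ExecLe.pop (tgt + 1) _).seq (copyP_exec (a := tgt + 2) (b := tgt)
          (c := tgt + 3) (by omega) (by omega) (by omega) _ (g x e) ?_ ?_)).mono
            (by omega)).congr ?_
        · simp
        · simp [f3]
        · rw [e1]
          funext j
          simp only [Function.update_apply]
          split_ifs <;> first | omega | simp_all [List.replicate_succ]
    have h4 := clearP_exec (tgt + 2) (update (update σ tgt (un (f x e * g x e))) (tgt + 2)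
      (un (g x e)))
    have hAB : f x e * g x e ≤ A s * (B s * 10 + 6) := by
      calc f x e * g x e ≤ A s * B s := Nat.mul_le_mul hfA hgB
        _ ≤ A s * (B s * 10 + 6) := Nat.mul_le_mul_left _ (by omega)
    have hAB2 : f x e * (g x e * 10 + 5 + 1) ≤ A s * (B s * 10 + 6) :=
      Nat.mul_le_mul hfA (by omega)
    refine ⟨by dsimp only; omega, ((h1.seq (h2.seq (h3.seq h4))).mono ?_).congr ?_⟩
    · simp only [Function.update_self, List.length_replicate]
      omega
    · funext j
      simp only [Function.update_apply]
      split_ifs <;> first | omega | simp_all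

/-- the program moving the reversal of register `a` on top of register `b` -/
def revP (a b : ℕ) : Prog :=
  .loop a (.case a .skip (.seq (.pop a) (.push b false)) (.seq (.pop a) (.push b true)))

theorem revP_exec {a b : ℕ} (hab : a ≠ b) (σ : Store) :
    ExecLe (revP a b) σ (update (update σ a []) b ((σ a).reverse ++ σ b))
      ((σ a).length * 5 + 1) := by
  refine ExecLe.loop' (fun v => update (update σ a ((σ a).drop ((σ a).length - v))) b
    (((σ a).take ((σ a).length - v)).reverse ++ σ b)) 4 _ ?_ ?_ ?_ ?_ ?_
  · simp
  · simp
  · simp [hab]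
  · intro v hv
    simp only [ne_eq, hab, not_false_eq_true, Function.update_of_ne, Function.update_self,
      List.drop_eq_nil_iff, not_le]
    omega
  · intro v hv
    have hlt : (σ a).length - (v + 1) < (σ a).length := by omega
    have e1 : (σ a).drop ((σ a).length - (v + 1)) =
        (σ a)[(σ a).length - (v + 1)] :: (σ a).drop ((σ a).length - v) := by
      rw [List.drop_eq_getElem_cons hlt]
      congr 2
      omega
    have e2 : ((σ a).take ((σ a).length - v)).reverse =
        (σ a)[(σ a).length - (v + 1)] :: ((σ a).take ((σ a).length - (v + 1))).reverse := by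
      have : (σ a).length - v = ((σ a).length - (v + 1)) + 1 := by omega
      rw [this, List.take_succ_eq_append_getElem hlt]
      simp
    cases hb : (σ a)[(σ a).length - (v + 1)] with
    | false =>
      refine (ExecLe.case_false ?_ (((ExecLe.pop a _).seq (ExecLe.push b false _)))).congr ?_
      · simp [hab, List.getElem?_eq_getElem hlt, hb]
      · rw [e1, e2, hb]
        funext j
        simp only [Function.update_apply]
        split_ifs <;> simp_all
    | true =>
      refine (ExecLe.case_true ?_ (((ExecLe.pop a _).seq (ExecLe.push b true _)))).congr ?_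
      · simp [hab, List.getElem?_eq_getElem hlt, hb]
      · rw [e1, e2, hb]
        funext j
        simp only [Function.update_apply]
        split_ifs <;> simp_all

/-- number of steps through a list -/
theorem IsTerm.len (k : ℕ) : IsTerm k (fun x _ => x.length) where
  indep _ _ _ _ := rfl
  comp tgt ρ hs := by
    have h3 := hs.1
    refine ⟨.seq (.loop 0 (.seq (.push tgt true) (.case 0 .skip
        (.seq (.pop 0) (.push (tgt + 1) false)) (.seq (.pop 0) (.push (tgt + 1) true)))))
        (revP (tgt + 1) 0), fun s => s * 12 + 3,
      (PB.id.mul (PB.const 12)).add (PB.const 3), fun x e σ s ha hx he =>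
        ⟨by dsimp only; omega, ?_⟩⟩
    have f0 := ha.free tgt le_rfl
    have f1 := ha.free (tgt + 1) (by omega)
    have h0 := ha.inp
    have h1 : ExecLe (.loop 0 (.seq (.push tgt true) (.case 0 .skip
        (.seq (.pop 0) (.push (tgt + 1) false)) (.seq (.pop 0) (.push (tgt + 1) true)))))
        σ (update (update (update σ 0 []) tgt (un x.length)) (tgt + 1) x.reverse)
        (x.length * (6 + 1) + 1) := by
      refine ExecLe.loop' (fun v => update (update (update σ 0 (x.drop (x.length - v))) tgt
        (un (x.length - v))) (tgt + 1) (x.take (x.length - v)).reverse) 6 _ ?_ ?_ ?_ ?_ ?_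
      · funext j
        simp only [Function.update_apply]
        split_ifs <;> first | omega | simp_all
      · simp
      · rw [Function.update_of_ne (by omega), Function.update_of_ne (by omega),
          Function.update_self]
      · intro v hv
        rw [Function.update_of_ne (by omega), Function.update_of_ne (by omega),
          Function.update_self]
        simp only [ne_eq, List.drop_eq_nil_iff, not_le]
        omega
      · intro v hv
        have hlt : x.length - (v + 1) < x.length := by omega
        have e0 : x.length - v = (x.length - (v + 1)) + 1 := by omega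
        have e1 : x.drop (x.length - (v + 1)) =
            x[x.length - (v + 1)] :: x.drop (x.length - v) := by
          rw [List.drop_eq_getElem_cons hlt]
          congr 2
          omega
        have e2 : (x.take (x.length - v)).reverse =
            x[x.length - (v + 1)] :: (x.take (x.length - (v + 1))).reverse := by
          rw [e0, List.take_succ_eq_append_getElem hlt]
          simp
        have e3 : un (x.length - v) = true :: un (x.length - (v + 1)) := by
          rw [e0]; simp [List.replicate_succ]
        cases hb : x[x.length - (v + 1)] with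
        | false =>
          refine (((ExecLe.push tgt true _).seq (ExecLe.case_false ?_
            (((ExecLe.pop 0 _).seq (ExecLe.push (tgt + 1) false _))))).mono (by omega)).congr ?_
          · rw [Function.update_of_ne (by omega), Function.update_of_ne (by omega),
              Function.update_of_ne (by omega), Function.update_self, e1, hb]
            rfl
          · rw [e1, e2, e3, hb]
            funext j
            simp only [Function.update_apply]
            split_ifs <;> first | omega | simp_all
        | true =>
          refine (((ExecLe.push tgt true _).seq (ExecLe.case_true ?_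
            (((ExecLe.pop 0 _).seq (ExecLe.push (tgt + 1) true _))))).mono (by omega)).congr ?_
          · rw [Function.update_of_ne (by omega), Function.update_of_ne (by omega),
              Function.update_of_ne (by omega), Function.update_self, e1, hb]
            rfl
          · rw [e1, e2, e3, hb]
            funext j
            simp only [Function.update_apply]
            split_ifs <;> first | omega | simp_all
    have h2 := revP_exec (a := tgt + 1) (b := 0) (by omega)
      (update (update (update σ 0 []) tgt (un x.length)) (tgt + 1) x.reverse)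
    refine ((h1.seq h2).mono ?_).congr ?_
    · simp only [Function.update_self, List.length_reverse]
      omega
    · funext j
      simp only [Function.update_apply]
      split_ifs <;> first | omega | simp_all

/-! ### formulas -/

/-- truth value of a proposition -/
noncomputable def dec (p : Prop) : Bool := @decide p (Classical.propDecidable p)

theorem dec_pos {p : Prop} (h : p) : dec p = true := by simp [dec, h]

theorem dec_neg {p : Prop} (h : ¬ p) : dec p = false := by simp [dec, h]

theorem dec_congr {p q : Prop} (h : p ↔ q) : dec p = dec q := by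
  have : p = q := propext h
  rw [this]

/-- Predicates of the input and of `k` variables decidable in a polynomial number of steps. -/
structure IsForm (k : ℕ) (φ : List Bool → (ℕ → ℕ) → Prop) : Prop where
  indep : ∀ x e e', (∀ i, i < k → e i = e' i) → (φ x e ↔ φ x e')
  comp : ∀ tgt ρ, Scope k tgt ρ → ∃ (p : Prog) (B : ℕ → ℕ), PB B ∧
    ∀ x e σ s, Agree k tgt ρ x e σ → x.length ≤ s → (∀ i, i < k → e i ≤ s) →
      ExecLe p σ (update σ 2 (dec (φ x e) :: σ 2)) (B s)

theorem IsForm.weaken {k k' : ℕ} {f : List Bool → (ℕ → ℕ) → Prop} (h : IsForm k f) (hk : k ≤ k') :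
    IsForm k' f where
  indep x e e' he := h.indep x e e' fun i hi => he i (by omega)
  comp tgt ρ hs := by
    obtain ⟨p, B, hB, hp⟩ := h.comp tgt ρ ⟨hs.1, fun i hi => hs.2 i (by omega)⟩
    exact ⟨p, B, hB, fun x e σ s ha hx he =>
      hp x e σ s ⟨ha.inp, fun i hi => ha.vars i (by omega), ha.free⟩ hx
        fun i hi => he i (by omega)⟩

theorem IsForm.congr {k : ℕ} {φ ψ : List Bool → (ℕ → ℕ) → Prop} (h : IsForm k φ)
    (hφ : ∀ x e, φ x e ↔ ψ x e) : IsForm k ψ := by
  have : φ = ψ := by
    funext x e
    exact propext (hφ x e)
  exact this ▸ h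

theorem IsForm.not {k : ℕ} {φ : List Bool → (ℕ → ℕ) → Prop} (h : IsForm k φ) :
    IsForm k (fun x e => ¬ φ x e) where
  indep x e e' he := by rw [h.indep x e e' he]
  comp tgt ρ hs := by
    classical
    obtain ⟨p, B, hB, hp⟩ := h.comp tgt ρ hs
    refine ⟨.seq p (.case 2 .skip (.seq (.pop 2) (.push 2 true)) (.seq (.pop 2) (.push 2 false))),
      fun s => B s + 5, hB.add (PB.const 5), fun x e σ s ha hx he => ?_⟩
    have h1 := hp x e σ s ha hx he
    by_cases hφ : φ x e
    · refine ((h1.seq (ExecLe.case_true ?_ ((ExecLe.pop 2 _).seq (ExecLe.push 2 false _)))).mono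
        (by dsimp only; omega)).congr ?_
      · simp [dec_pos hφ]
      · simp [dec_pos hφ, dec_neg (not_not.2 hφ)]
    · refine ((h1.seq (ExecLe.case_false ?_ ((ExecLe.pop 2 _).seq (ExecLe.push 2 true _)))).mono
        (by dsimp only; omega)).congr ?_
      · simp [dec_neg hφ]
      · simp [dec_neg hφ, dec_pos hφ]

theorem IsForm.and {k : ℕ} {φ ψ : List Bool → (ℕ → ℕ) → Prop} (h : IsForm k φ)
    (h' : IsForm k ψ) : IsForm k (fun x e => φ x e ∧ ψ x e) where
  indep x e e' he := by rw [h.indep x e e' he, h'.indep x e e' he]
  comp tgt ρ hs := by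
    classical
    obtain ⟨p, A, hA, hp⟩ := h.comp tgt ρ hs
    obtain ⟨q, B, hB, hq⟩ := h'.comp tgt ρ hs
    refine ⟨.seq p (.seq q (.case 2 .skip (.seq (.pop 2) (.seq (.pop 2) (.push 2 false)))
      (.pop 2))), fun s => A s + B s + 9, (hA.add hB).add (PB.const 9), fun x e σ s ha hx he => ?_⟩
    have h1 := hp x e σ s ha hx he
    have h2 := hq x e _ s (ha.updateOut hs 2 (Or.inr rfl) (dec (φ x e) :: σ 2)) hx he
    by_cases hψ : ψ x e
    · refine ((h1.seq (h2.seq (ExecLe.case_true ?_ (ExecLe.pop 2 _)))).mono
        (by dsimp only; omega)).congr ?_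
      · simp [dec_pos hψ]
      · have e1 : dec (φ x e ∧ ψ x e) = dec (φ x e) := dec_congr (by simp [hψ])
        simp [e1]
    · refine ((h1.seq (h2.seq (ExecLe.case_false ?_ ((ExecLe.pop 2 _).seq
        ((ExecLe.pop 2 _).seq (ExecLe.push 2 false _)))))).mono
        (by dsimp only; omega)).congr ?_
      · simp [dec_neg hψ]
      · have e1 : dec (φ x e ∧ ψ x e) = false := dec_neg (by simp [hψ])
        simp [e1]

theorem IsForm.lt {k : ℕ} {f g : List Bool → (ℕ → ℕ) → ℕ} (hf : IsTerm k f) (hg : IsTerm k g) :
    IsForm k (fun x e => f x e < g x e) where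
  indep x e e' h := by rw [hf.indep x e e' h, hg.indep x e e' h]
  comp tgt ρ hs := by
    classical
    obtain ⟨p, A, hA, hp⟩ := hf.comp tgt ρ hs
    obtain ⟨q, B, hB, hq⟩ := hg.comp (tgt + 1) ρ hs.succ
    refine ⟨.seq p (.seq q (.seq (.loop tgt (.seq (.pop tgt) (.pop (tgt + 1))))
      (.seq (.case (tgt + 1) (.push 2 false) (.push 2 true) (.push 2 true)) (clearP (tgt + 1))))),
      fun s => A s * 5 + B s * 3 + 9,
      ((hA.mul (PB.const 5)).add (hB.mul (PB.const 3))).add (PB.const 9),
      fun x e σ s ha hx he => ?_⟩
    obtain ⟨hfA, h1⟩ := hp x e σ s ha hx he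
    obtain ⟨hgB, h2⟩ := hq x e _ s (ha.updateFree hs (un (f x e))) hx he
    have f0 := ha.free tgt le_rfl
    have f1 := ha.free (tgt + 1) (by omega)
    have h3s := hs.1
    have h3 : ExecLe (.loop tgt (.seq (.pop tgt) (.pop (tgt + 1))))
        (update (update σ tgt (un (f x e))) (tgt + 1) (un (g x e)))
        (update σ (tgt + 1) (un (g x e - f x e))) (f x e * (3 + 1) + 1) := by
      refine ExecLe.loop' (fun v => update (update σ tgt (un v)) (tgt + 1)
        (un (g x e - (f x e - v)))) 3 _ ?_ ?_ ?_ ?_ ?_
      · simp
      · funext j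
        simp only [Function.update_apply]
        split_ifs <;> first | omega | simp_all
      · rw [Function.update_of_ne (by omega), f0]
      · intro v hv
        rw [Function.update_of_ne (by omega), Function.update_self]
        simp [List.replicate_succ]
      · intro v hv
        refine ((ExecLe.pop tgt _).seq (ExecLe.pop (tgt + 1) _)).congr ?_
        have : g x e - (f x e - v) = g x e - (f x e - (v + 1)) - 1 := by omega
        funext j
        simp only [Function.update_apply]
        split_ifs <;> first | omega | simp_all [List.replicate_succ]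
    have h5 : ∀ b : Bool, ExecLe (clearP (tgt + 1))
        (update (update σ (tgt + 1) (un (g x e - f x e))) 2 (b :: σ 2))
        (update σ 2 (b :: σ 2)) ((g x e - f x e) * 2 + 1) := by
      intro b
      have := clearP_exec (tgt + 1) (update (update σ (tgt + 1) (un (g x e - f x e))) 2 (b :: σ 2))
      refine (this.mono ?_).congr ?_
      · rw [Function.update_of_ne (by omega), Function.update_self]
        simp
      · funext j
        simp only [Function.update_apply]
        split_ifs <;> first | omega | simp_all
    by_cases hlt : f x e < g x e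
    · have h4 : ExecLe (.case (tgt + 1) (.push 2 false) (.push 2 true) (.push 2 true))
          (update σ (tgt + 1) (un (g x e - f x e)))
          (update (update σ (tgt + 1) (un (g x e - f x e))) 2 (true :: σ 2)) 2 := by
        refine (ExecLe.case_true ?_ (ExecLe.push 2 true _)).congr ?_
        · obtain ⟨d, hd⟩ : ∃ d, g x e - f x e = d + 1 := ⟨g x e - f x e - 1, by omega⟩
          rw [hd]; simp [List.replicate_succ]
        · rw [Function.update_of_ne (by omega : (2:ℕ) ≠ tgt + 1)]
      refine ((h1.seq (h2.seq (h3.seq (h4.seq (h5 true))))).mono (by dsimp only; omega)).congr ?_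
      simp [dec_pos hlt]
    · have h4 : ExecLe (.case (tgt + 1) (.push 2 false) (.push 2 true) (.push 2 true))
          (update σ (tgt + 1) (un (g x e - f x e)))
          (update (update σ (tgt + 1) (un (g x e - f x e))) 2 (false :: σ 2)) 2 := by
        refine (ExecLe.case_nil ?_ (ExecLe.push 2 false _)).congr ?_
        · have hd : g x e - f x e = 0 := by omega
          rw [hd]; simp
        · rw [Function.update_of_ne (by omega : (2:ℕ) ≠ tgt + 1)]
      refine ((h1.seq (h2.seq (h3.seq (h4.seq (h5 false))))).mono (by dsimp only; omega)).congr ?_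
      simp [dec_neg hlt]

theorem IsForm.bit {k : ℕ} {f : List Bool → (ℕ → ℕ) → ℕ} (hf : IsTerm k f) :
    IsForm k (fun x e => x[f x e]? = some true) where
  indep x e e' h := by rw [hf.indep x e e' h]
  comp tgt ρ hs := by
    classical
    obtain ⟨p, A, hA, hp⟩ := hf.comp tgt ρ hs
    refine ⟨.seq p (.seq (.loop tgt (.seq (.pop tgt) (.case 0 .skip
        (.seq (.pop 0) (.push (tgt + 1) false)) (.seq (.pop 0) (.push (tgt + 1) true)))))
        (.seq (.case 0 (.push 2 false) (.push 2 false) (.push 2 true)) (revP (tgt + 1) 0))),
      fun s => A s * 8 + s * 5 + 9,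
      ((hA.mul (PB.const 8)).add (PB.id.mul (PB.const 5))).add (PB.const 9),
      fun x e σ s ha hx he => ?_⟩
    obtain ⟨hfA, h1⟩ := hp x e σ s ha hx he
    have f0 := ha.free tgt le_rfl
    have f1 := ha.free (tgt + 1) (by omega)
    have h3s := hs.1
    have hinp := ha.inp
    set n := f x e with hn
    have h3 : ExecLe (.loop tgt (.seq (.pop tgt) (.case 0 .skip
        (.seq (.pop 0) (.push (tgt + 1) false)) (.seq (.pop 0) (.push (tgt + 1) true)))))
        (update σ tgt (un n))
        (update (update σ 0 (x.drop n)) (tgt + 1) (x.take n).reverse) (n * (6 + 1) + 1) := by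
      refine ExecLe.loop' (fun v => update (update (update σ tgt (un v)) 0 (x.drop (n - v)))
        (tgt + 1) (x.take (n - v)).reverse) 6 _ ?_ ?_ ?_ ?_ ?_
      · funext j
        simp only [Function.update_apply]
        split_ifs <;> first | omega | simp_all
      · funext j
        simp only [Function.update_apply]
        split_ifs <;> first | omega | simp_all
      · rw [Function.update_of_ne (by omega), Function.update_of_ne (by omega), f0]
      · intro v hv
        rw [Function.update_of_ne (by omega), Function.update_of_ne (by omega),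
          Function.update_self]
        simp [List.replicate_succ]
      · intro v hv
        have e0 : n - v = (n - (v + 1)) + 1 := by omega
        by_cases hlt : n - (v + 1) < x.length
        · have e1 : x.drop (n - (v + 1)) = x[n - (v + 1)] :: x.drop (n - v) := by
            rw [List.drop_eq_getElem_cons hlt]
            congr 2
            omega
          have e2 : (x.take (n - v)).reverse =
              x[n - (v + 1)] :: (x.take (n - (v + 1))).reverse := by
            rw [e0, List.take_succ_eq_append_getElem hlt]
            simp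
          cases hb : x[n - (v + 1)] with
          | false =>
            refine (((ExecLe.pop tgt _).seq (ExecLe.case_false ?_
              (((ExecLe.pop 0 _).seq (ExecLe.push (tgt + 1) false _))))).mono (by omega)).congr ?_
            · rw [Function.update_of_ne (by omega), Function.update_of_ne (by omega),
                Function.update_self, e1, hb]
              rfl
            · rw [e1, e2, hb]
              funext j
              simp only [Function.update_apply]
              split_ifs <;> first | omega | simp_all [List.replicate_succ]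
          | true =>
            refine (((ExecLe.pop tgt _).seq (ExecLe.case_true ?_
              (((ExecLe.pop 0 _).seq (ExecLe.push (tgt + 1) true _))))).mono (by omega)).congr ?_
            · rw [Function.update_of_ne (by omega), Function.update_of_ne (by omega),
                Function.update_self, e1, hb]
              rfl
            · rw [e1, e2, hb]
              funext j
              simp only [Function.update_apply]
              split_ifs <;> first | omega | simp_all [List.replicate_succ]
        · have e1 : x.drop (n - (v + 1)) = [] := List.drop_eq_nil_iff.2 (by omega)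
          have e1' : x.drop (n - v) = [] := List.drop_eq_nil_iff.2 (by omega)
          have e2 : x.take (n - (v + 1)) = x := List.take_of_length_le (by omega)
          have e2' : x.take (n - v) = x := List.take_of_length_le (by omega)
          refine (((ExecLe.pop tgt _).seq (ExecLe.case_nil ?_ (ExecLe.skip _))).mono
            (by omega)).congr ?_
          · rw [Function.update_of_ne (by omega), Function.update_of_ne (by omega),
              Function.update_self, e1]
          · rw [e1, e2, e1', e2']
            funext j
            simp only [Function.update_apply]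
            split_ifs <;> first | omega | simp_all [List.replicate_succ]
    have h5 : ∀ b : Bool, ExecLe (revP (tgt + 1) 0)
        (update (update (update σ 0 (x.drop n)) (tgt + 1) (x.take n).reverse) 2 (b :: σ 2))
        (update σ 2 (b :: σ 2)) (x.length * 5 + 1) := by
      intro b
      have := revP_exec (a := tgt + 1) (b := 0) (by omega)
        (update (update (update σ 0 (x.drop n)) (tgt + 1) (x.take n).reverse) 2 (b :: σ 2))
      refine (this.mono ?_).congr ?_
      · rw [Function.update_of_ne (by omega), Function.update_self]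
        simp only [List.length_reverse, List.length_take]
        omega
      · funext j
        simp only [Function.update_apply]
        split_ifs <;> first | omega | simp_all
    have h4 : ∀ b : Bool, b = dec (x[n]? = some true) →
        ExecLe (.case 0 (.push 2 false) (.push 2 false) (.push 2 true))
          (update (update σ 0 (x.drop n)) (tgt + 1) (x.take n).reverse)
          (update (update (update σ 0 (x.drop n)) (tgt + 1) (x.take n).reverse) 2 (b :: σ 2))
          2 := by
      intro b hb
      have hst : update (update σ 0 (x.drop n)) (tgt + 1) (x.take n).reverse 0 = x.drop n := by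
        rw [Function.update_of_ne (by omega), Function.update_self]
      have hst2 : update (update σ 0 (x.drop n)) (tgt + 1) (x.take n).reverse 2 = σ 2 := by
        rw [Function.update_of_ne (by omega), Function.update_of_ne (by omega)]
      have hhead : (x.drop n).head? = x[n]? := List.head?_drop
      rcases hx' : x[n]? with _ | _ | _
      · have : b = false := by rw [hb, hx']; exact dec_neg (by simp)
        subst this
        refine (ExecLe.case_nil ?_ (ExecLe.push 2 false _)).congr ?_
        · rw [hst]
          rw [hx'] at hhead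
          exact List.head?_eq_none_iff.1 hhead
        · rw [hst2]
      · have : b = false := by rw [hb, hx']; exact dec_neg (by simp)
        subst this
        refine (ExecLe.case_false ?_ (ExecLe.push 2 false _)).congr ?_
        · rw [hst, hhead, hx']
        · rw [hst2]
      · have : b = true := by rw [hb, hx']; exact dec_pos rfl
        subst this
        refine (ExecLe.case_true ?_ (ExecLe.push 2 true _)).congr ?_
        · rw [hst, hhead, hx']
        · rw [hst2]
    refine (h1.seq (h3.seq ((h4 _ rfl).seq (h5 _)))).mono ?_
    dsimp only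
    omega

theorem Agree.bind {k tgt : ℕ} {ρ : ℕ → ℕ} {x : List Bool} {e : ℕ → ℕ} {σ : Store}
    (hs : Scope k tgt ρ) (h : Agree k tgt ρ x e σ) (v : ℕ) :
    Agree (k + 1) (tgt + 1) (update ρ k tgt) x (update e k v) (update σ tgt (un v)) where
  inp := by
    rw [Function.update_of_ne (by have := hs.1; omega)]
    exact h.inp
  vars i hi := by
    by_cases hik : i = k
    · subst hik
      simp
    · have hi' : i < k := by omega
      rw [Function.update_of_ne hik, Function.update_of_ne hik,
        Function.update_of_ne (by have := (hs.2 i hi').2; omega)]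
      exact h.vars i hi'
  free j hj := by
    rw [Function.update_of_ne (by omega)]
    exact h.free j (by omega)

theorem Scope.bind {k tgt : ℕ} {ρ : ℕ → ℕ} (h : Scope k tgt ρ) :
    Scope (k + 1) (tgt + 1) (update ρ k tgt) :=
  ⟨by have := h.1; omega, fun i hi => by
    have := h.1
    by_cases hik : i = k
    · subst hik
      simp only [Function.update_self]
      omega
    · have hi' : i < k := by omega
      rw [Function.update_of_ne hik]
      have := h.2 i hi'
      omega⟩

/-- Bounded existential quantification over the variable number `k`. -/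
theorem IsForm.ex {k : ℕ} {b : List Bool → (ℕ → ℕ) → ℕ} {φ : List Bool → (ℕ → ℕ) → Prop}
    (hb : IsTerm k b) (hφ : IsForm (k + 1) φ) :
    IsForm k (fun x e => ∃ v < b x e, φ x (update e k v)) where
  indep x e e' h := by
    rw [hb.indep x e e' h]
    apply exists_congr
    intro v
    apply and_congr_right
    intro _
    apply hφ.indep
    intro i hi
    by_cases hik : i = k
    · subst hik; simp
    · rw [Function.update_of_ne hik, Function.update_of_ne hik]
      exact h i (by omega)
  comp tgt ρ hs := by
    classical
    obtain ⟨p, A, hA, hp⟩ := hb.comp tgt ρ hs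
    obtain ⟨q, B, hB, hq⟩ := hφ.comp (tgt + 1) (update ρ k tgt) hs.bind
    refine ⟨.seq p (.seq (.push 2 false) (.loop tgt (.seq (.pop tgt) (.seq q
      (.case 2 .skip (.pop 2) (.seq (.pop 2) (.seq (.pop 2) (.push 2 true)))))))),
      fun s => A s + A s * (B (s + A s) + 10) + 5,
      (hA.add (hA.mul ((hB.comp (PB.id.add hA)).add (PB.const 10)))).add (PB.const 5),
      fun x e σ s ha hx he => ?_⟩
    obtain ⟨hbA, h1⟩ := hp x e σ s ha hx he
    have f0 := ha.free tgt le_rfl
    have h3s := hs.1
    set n := b x e with hn
    have h3 : ExecLe (.loop tgt (.seq (.pop tgt) (.seq q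
        (.case 2 .skip (.pop 2) (.seq (.pop 2) (.seq (.pop 2) (.push 2 true)))))))
        (update (update σ tgt (un n)) 2 (false :: σ 2))
        (update σ 2 (dec (∃ v < n, φ x (update e k v)) :: σ 2))
        (n * ((B (s + A s) + 9) + 1) + 1) := by
      refine ExecLe.loop' (fun v => update (update σ tgt (un v)) 2
        (dec (∃ w < n, v ≤ w ∧ φ x (update e k w)) :: σ 2)) _ _ ?_ ?_ ?_ ?_ ?_
      · have : ¬ ∃ w < n, n ≤ w ∧ φ x (update e k w) := by
          rintro ⟨w, hw, hw', _⟩; omega
        simp only [dec_neg this]
      · have : (∃ w < n, 0 ≤ w ∧ φ x (update e k w)) ↔ (∃ w < n, φ x (update e k w)) := by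
          simp
        funext j
        simp only [Function.update_apply, dec_congr this]
        split_ifs <;> first | omega | simp_all
      · rw [Function.update_of_ne (by omega), f0]
      · intro v hv
        rw [Function.update_of_ne (by omega), Function.update_self]
        simp [List.replicate_succ]
      · intro v hv
        have hag : Agree (k + 1) (tgt + 1) (update ρ k tgt) x (update e k v)
            (update (update σ 2 (dec (∃ w < n, v + 1 ≤ w ∧ φ x (update e k w)) :: σ 2))
              tgt (un v)) :=
          (ha.updateOut hs 2 (Or.inr rfl) _).bind hs v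
        have h4 := hq x (update e k v) _ (s + A s) hag (by omega) (by
          intro i hi
          by_cases hik : i = k
          · subst hik; simp only [Function.update_self]; omega
          · rw [Function.update_of_ne hik]
            have := he i (by omega)
            omega)
        have hpop : ExecLe (.pop tgt) (update (update σ tgt (un (v + 1))) 2
            (dec (∃ w < n, v + 1 ≤ w ∧ φ x (update e k w)) :: σ 2))
            (update (update σ 2 (dec (∃ w < n, v + 1 ≤ w ∧ φ x (update e k w)) :: σ 2))
              tgt (un v)) 1 := by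
          refine (ExecLe.pop tgt _).congr ?_
          funext j
          simp only [Function.update_apply]
          split_ifs <;> first | omega | simp_all [List.replicate_succ]
        by_cases hv' : φ x (update e k v)
        · refine ((hpop.seq (h4.seq (ExecLe.case_true ?_ ((ExecLe.pop 2 _).seq
            ((ExecLe.pop 2 _).seq (ExecLe.push 2 true _)))))).mono (by omega)).congr ?_
          · simp [dec_pos hv']
          · have : ∃ w < n, v ≤ w ∧ φ x (update e k w) := ⟨v, hv, le_rfl, hv'⟩
            funext j
            simp only [Function.update_apply, dec_pos this]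
            split_ifs <;> first | omega | simp_all
        · refine ((hpop.seq (h4.seq (ExecLe.case_false ?_ (ExecLe.pop 2 _)))).mono
            (by omega)).congr ?_
          · simp [dec_neg hv']
          · have : (∃ w < n, v ≤ w ∧ φ x (update e k w)) ↔
                (∃ w < n, v + 1 ≤ w ∧ φ x (update e k w)) := by
              constructor
              · rintro ⟨w, hw, hvw, hφw⟩
                refine ⟨w, hw, ?_, hφw⟩
                rcases Nat.lt_or_ge v w with h | h
                · omega
                · have : w = v := by omega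
                  subst this
                  exact absurd hφw hv'
              · rintro ⟨w, hw, hvw, hφw⟩
                exact ⟨w, hw, by omega, hφw⟩
            funext j
            simp only [Function.update_apply, dec_congr this]
            split_ifs <;> first | omega | simp_all
    refine ((h1.seq (((ExecLe.push 2 false _).congr ?_).seq h3)).mono ?_)
    · rw [Function.update_of_ne (by omega : (2:ℕ) ≠ tgt)]
    · have : n * (B (s + A s) + 9 + 1) ≤ A s * (B (s + A s) + 10) := Nat.mul_le_mul hbA le_rfl
      dsimp only; omega

theorem IsForm.or {k : ℕ} {φ ψ : List Bool → (ℕ → ℕ) → Prop} (h : IsForm k φ)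
    (h' : IsForm k ψ) : IsForm k (fun x e => φ x e ∨ ψ x e) :=
  (h.not.and h'.not).not.congr fun x e => by tauto

theorem IsForm.imp {k : ℕ} {φ ψ : List Bool → (ℕ → ℕ) → Prop} (h : IsForm k φ)
    (h' : IsForm k ψ) : IsForm k (fun x e => φ x e → ψ x e) :=
  (h.and h'.not).not.congr fun x e => by tauto

theorem IsForm.all {k : ℕ} {b : List Bool → (ℕ → ℕ) → ℕ} {φ : List Bool → (ℕ → ℕ) → Prop}
    (hb : IsTerm k b) (hφ : IsForm (k + 1) φ) :
    IsForm k (fun x e => ∀ v < b x e, φ x (update e k v)) :=
  (IsForm.ex hb hφ.not).not.congr fun x e => by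
    constructor
    · intro h v hv
      by_contra hc
      exact h ⟨v, hv, hc⟩
    · rintro h ⟨v, hv, hc⟩
      exact hc (h v hv)

theorem IsForm.le {k : ℕ} {f g : List Bool → (ℕ → ℕ) → ℕ} (hf : IsTerm k f) (hg : IsTerm k g) :
    IsForm k (fun x e => f x e ≤ g x e) :=
  (IsForm.lt hg hf).not.congr fun _ _ => not_lt

theorem IsForm.eq {k : ℕ} {f g : List Bool → (ℕ → ℕ) → ℕ} (hf : IsTerm k f) (hg : IsTerm k g) :
    IsForm k (fun x e => f x e = g x e) :=
  ((IsForm.le hf hg).and (IsForm.le hg hf)).congr fun x e => by
    constructor
    · rintro ⟨h1, h2⟩; omega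
    · intro h; omega

theorem IsForm.true (k : ℕ) : IsForm k (fun _ _ => True) :=
  (IsForm.lt (IsTerm.const k 0) (IsTerm.const k 1)).congr fun x e => by simp

theorem IsForm.false (k : ℕ) : IsForm k (fun _ _ => False) :=
  (IsForm.lt (IsTerm.const k 0) (IsTerm.const k 0)).congr fun x e => by simp

/-- finite disjunctions -/
theorem IsForm.exMem {k : ℕ} {ι : Type*} (l : List ι) {φ : ι → List Bool → (ℕ → ℕ) → Prop}
    (h : ∀ i ∈ l, IsForm k (φ i)) : IsForm k (fun x e => ∃ i ∈ l, φ i x e) := by
  induction l with
  | nil => exact (IsForm.false k).congr fun x e => by simp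
  | cons a l ih =>
    exact ((h a (by simp)).or (ih fun i hi => h i (by simp [hi]))).congr fun x e => by simp

theorem IsForm.allMem {k : ℕ} {ι : Type*} (l : List ι) {φ : ι → List Bool → (ℕ → ℕ) → Prop}
    (h : ∀ i ∈ l, IsForm k (φ i)) : IsForm k (fun x e => ∀ i ∈ l, φ i x e) := by
  induction l with
  | nil => exact (IsForm.true k).congr fun x e => by simp
  | cons a l ih =>
    exact ((h a (by simp)).and (ih fun i hi => h i (by simp [hi]))).congr fun x e => by simp

/-! ### printing -/

/-- every bit `b` is written as `[true, b, false]` -/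
def tri (l : List Bool) : List Bool := l.flatMap fun b => [true, b, false]

theorem tri_append (l l' : List Bool) : tri (l ++ l') = tri l ++ tri l' := by
  simp [tri]

theorem tri_cons (b : Bool) (l : List Bool) : tri (b :: l) = true :: b :: false :: tri l := by
  simp [tri]

/-- List-valued functions of the input and of `k` variables that can be printed in a polynomial
number of steps. -/
structure IsEmit (k : ℕ) (F : List Bool → (ℕ → ℕ) → List Bool) : Prop where
  indep : ∀ x e e', (∀ i, i < k → e i = e' i) → F x e = F x e'
  comp : ∀ tgt ρ, Scope k tgt ρ → ∃ (p : Prog) (B : ℕ → ℕ), PB B ∧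
    ∀ x e σ s, Agree k tgt ρ x e σ → x.length ≤ s → (∀ i, i < k → e i ≤ s) →
      ExecLe p σ (update σ 1 (tri (F x e) ++ σ 1)) (B s)

theorem IsEmit.congr {k : ℕ} {F G : List Bool → (ℕ → ℕ) → List Bool} (h : IsEmit k F)
    (hF : ∀ x e, F x e = G x e) : IsEmit k G := by
  have : F = G := by
    funext x e
    exact hF x e
  exact this ▸ h

theorem IsEmit.nil (k : ℕ) : IsEmit k (fun _ _ => []) where
  indep _ _ _ _ := rfl
  comp _ _ _ := ⟨.skip, fun _ => 1, PB.const _, fun _ _ σ _ _ _ _ =>
    (ExecLe.skip σ).congr (by simp [tri])⟩

theorem IsEmit.bit (k : ℕ) (b : Bool) : IsEmit k (fun _ _ => [b]) where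
  indep _ _ _ _ := rfl
  comp _ _ _ := ⟨.seq (.push 1 false) (.seq (.push 1 b) (.push 1 true)), fun _ => 5, PB.const _,
    fun _ _ σ _ _ _ _ => (((ExecLe.push 1 false _).seq
      ((ExecLe.push 1 b _).seq (ExecLe.push 1 true _)))).congr (by simp [tri])⟩

theorem IsEmit.append {k : ℕ} {F G : List Bool → (ℕ → ℕ) → List Bool} (hF : IsEmit k F)
    (hG : IsEmit k G) : IsEmit k (fun x e => F x e ++ G x e) where
  indep x e e' he := by rw [hF.indep x e e' he, hG.indep x e e' he]
  comp tgt ρ hs := by
    obtain ⟨p, A, hA, hp⟩ := hF.comp tgt ρ hs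
    obtain ⟨q, B, hB, hq⟩ := hG.comp tgt ρ hs
    refine ⟨.seq q p, fun s => A s + B s + 1, (hA.add hB).add (PB.const 1),
      fun x e σ s ha hx he => ?_⟩
    have h1 := hq x e σ s ha hx he
    have h2 := hp x e _ s (ha.updateOut hs 1 (Or.inl rfl) (tri (G x e) ++ σ 1)) hx he
    refine ((h1.seq h2).mono (by dsimp only; omega)).congr ?_
    simp [tri_append]

open Classical in
theorem IsEmit.ite {k : ℕ} {φ : List Bool → (ℕ → ℕ) → Prop}
    {F G : List Bool → (ℕ → ℕ) → List Bool} (hφ : IsForm k φ) (hF : IsEmit k F)
    (hG : IsEmit k G) : IsEmit k (fun x e => if φ x e then F x e else G x e) where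
  indep x e e' he := by
    have h1 : φ x e = φ x e' := propext (hφ.indep x e e' he)
    rw [hF.indep x e e' he, hG.indep x e e' he]
    simp only [h1]
  comp tgt ρ hs := by
    obtain ⟨r, C, hC, hr⟩ := hφ.comp tgt ρ hs
    obtain ⟨p, A, hA, hp⟩ := hF.comp tgt ρ hs
    obtain ⟨q, B, hB, hq⟩ := hG.comp tgt ρ hs
    refine ⟨.seq r (.case 2 .skip (.seq (.pop 2) q) (.seq (.pop 2) p)),
      fun s => A s + B s + C s + 4, ((hA.add hB).add hC).add (PB.const 4),
      fun x e σ s ha hx he => ?_⟩
    have h1 := hr x e σ s ha hx he
    have h2 := hp x e σ s ha hx he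
    have h3 := hq x e σ s ha hx he
    by_cases h : φ x e
    · have hpop : ExecLe (.pop 2) (update σ 2 (dec (φ x e) :: σ 2)) σ 1 :=
        (ExecLe.pop 2 _).congr (by simp)
      refine ((h1.seq (ExecLe.case_true ?_ (hpop.seq h2))).mono (by dsimp only; omega)).congr ?_
      · simp [dec_pos h]
      · simp [h]
    · have hpop : ExecLe (.pop 2) (update σ 2 (dec (φ x e) :: σ 2)) σ 1 :=
        (ExecLe.pop 2 _).congr (by simp)
      refine ((h1.seq (ExecLe.case_false ?_ (hpop.seq h3))).mono (by dsimp only; omega)).congr ?_
      · simp [dec_neg h]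
      · simp [h]

/-- printing a truth value -/
theorem IsEmit.dec {k : ℕ} {φ : List Bool → (ℕ → ℕ) → Prop} (hφ : IsForm k φ) :
    IsEmit k (fun x e => [dec (φ x e)]) := by
  classical
  refine (IsEmit.ite hφ (IsEmit.bit k true) (IsEmit.bit k false)).congr fun x e => ?_
  by_cases h : φ x e
  · simp [h, dec_pos]
  · simp [h, dec_neg]

/-- printing in a loop over a bounded range -/
theorem IsEmit.for {k : ℕ} {b : List Bool → (ℕ → ℕ) → ℕ} {F : List Bool → (ℕ → ℕ) → List Bool}
    (hb : IsTerm k b) (hF : IsEmit (k + 1) F) :
    IsEmit k (fun x e => (List.range (b x e)).flatMap fun v => F x (update e k v)) where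
  indep x e e' h := by
    rw [hb.indep x e e' h]
    have : (fun v => F x (update e k v)) = fun v => F x (update e' k v) := by
      funext v
      apply hF.indep
      intro i hi
      by_cases hik : i = k
      · subst hik; simp
      · rw [Function.update_of_ne hik, Function.update_of_ne hik]
        exact h i (by omega)
    rw [this]
  comp tgt ρ hs := by
    obtain ⟨p, A, hA, hp⟩ := hb.comp tgt ρ hs
    obtain ⟨q, B, hB, hq⟩ := hF.comp (tgt + 1) (update ρ k tgt) hs.bind
    refine ⟨.seq p (.loop tgt (.seq (.pop tgt) q)),
      fun s => A s + A s * (B (s + A s) + 3) + 2,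
      (hA.add (hA.mul ((hB.comp (PB.id.add hA)).add (PB.const 3)))).add (PB.const 2),
      fun x e σ s ha hx he => ?_⟩
    obtain ⟨hbA, h1⟩ := hp x e σ s ha hx he
    have f0 := ha.free tgt le_rfl
    have h3s := hs.1
    set n := b x e with hn
    have h3 : ExecLe (.loop tgt (.seq (.pop tgt) q)) (update σ tgt (un n))
        (update σ 1 (tri ((List.range n).flatMap fun v => F x (update e k v)) ++ σ 1))
        (n * ((B (s + A s) + 2) + 1) + 1) := by
      refine ExecLe.loop' (fun v => update (update σ tgt (un v)) 1
        (tri ((List.range' v (n - v)).flatMap fun v => F x (update e k v)) ++ σ 1))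
          _ _ ?_ ?_ ?_ ?_ ?_
      · funext j
        simp only [Function.update_apply, Nat.sub_self]
        split_ifs <;> first | omega | simp_all [tri]
      · funext j
        simp only [Function.update_apply, Nat.sub_zero, List.range_eq_range']
        split_ifs <;> first | omega | simp_all
      · rw [Function.update_of_ne (by omega), f0]
      · intro v hv
        rw [Function.update_of_ne (by omega), Function.update_self]
        simp [List.replicate_succ]
      · intro v hv
        have e0 : List.range' v (n - v) = v :: List.range' (v + 1) (n - (v + 1)) := by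
          have : n - v = (n - (v + 1)) + 1 := by omega
          rw [this, List.range'_succ]
        have hag : Agree (k + 1) (tgt + 1) (update ρ k tgt) x (update e k v)
            (update (update σ 1 (tri ((List.range' (v + 1) (n - (v + 1))).flatMap
              fun v => F x (update e k v)) ++ σ 1)) tgt (un v)) :=
          (ha.updateOut hs 1 (Or.inl rfl) _).bind hs v
        have h4 := hq x (update e k v) _ (s + A s) hag (by omega) (by
          intro i hi
          by_cases hik : i = k
          · subst hik; simp only [Function.update_self]; omega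
          · rw [Function.update_of_ne hik]
            have := he i (by omega)
            omega)
        have hpop : ExecLe (.pop tgt) (update (update σ tgt (un (v + 1))) 1
            (tri ((List.range' (v + 1) (n - (v + 1))).flatMap
              fun v => F x (update e k v)) ++ σ 1))
            (update (update σ 1 (tri ((List.range' (v + 1) (n - (v + 1))).flatMap
              fun v => F x (update e k v)) ++ σ 1)) tgt (un v)) 1 := by
          refine (ExecLe.pop tgt _).congr ?_
          funext j
          simp only [Function.update_apply]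
          split_ifs <;> first | omega | simp_all [List.replicate_succ]
        refine ((hpop.seq h4).mono (by omega)).congr ?_
        rw [e0, List.flatMap_cons, tri_append]
        funext j
        simp only [Function.update_apply]
        split_ifs <;> first | omega | simp_all
    refine (h1.seq h3).mono ?_
    have : n * (B (s + A s) + 2 + 1) ≤ A s * (B (s + A s) + 3) := Nat.mul_le_mul hbA le_rfl
    dsimp only
    omega

end Pool.Agent.Lib57
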