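import Mathlib
import Pool.Prelude.Def_F_458e953d
import Pool.Agent.Lib_helper57.Definable

/-! Printable functions on bit strings are computable in polynomial time in the sense of the
definitions of `Pool.Prelude`. -/

namespace Pool.Agent.Lib57

open Function

theorem bitEncode_eq_tri (l : List Bool) : N487b59b3.bitEncode l = tri l := by
  show ((l.map fun b => [b]).map N487b59b3.delimit).flatten = tri l
  induction l with
  | nil => rfl
  | cons a l ih =>
    simp only [List.map_cons, List.flatten_cons, ih, tri_cons]
    simp [N487b59b3.delimit]

/-- the program decoding the triples in register `0` to register `3` -/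
def decodeP : Prog :=
  .loop 0 (.seq (.pop 0) (.seq (.case 0 .skip (.seq (.pop 0) (.push 3 false))
    (.seq (.pop 0) (.push 3 true))) (.pop 0)))

theorem decodeP_exec (σ : Store) (x : List Bool) (h0 : σ 0 = tri x) (h3 : σ 3 = []) :
    ExecLe decodeP σ (update (update σ 0 []) 3 x.reverse) (x.length * 9 + 1) := by
  refine ExecLe.loop' (fun v => update (update σ 0 (tri (x.drop (x.length - v)))) 3
    (x.take (x.length - v)).reverse) 8 _ ?_ ?_ ?_ ?_ ?_
  · funext j
    simp only [Function.update_apply]
    split_ifs <;> simp_all
  · simp [tri]
  · simp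
  · intro v hv
    have hlt : x.length - (v + 1) < x.length := by omega
    rw [Function.update_of_ne (by omega), Function.update_self, List.drop_eq_getElem_cons hlt,
      tri_cons]
    simp
  · intro v hv
    have hlt : x.length - (v + 1) < x.length := by omega
    have e0 : x.length - v = (x.length - (v + 1)) + 1 := by omega
    have e1 : x.drop (x.length - (v + 1)) =
        x[x.length - (v + 1)] :: x.drop (x.length - v) := by
      rw [List.drop_eq_getElem_cons hlt]
      congr 2
      omega
    have e2 : (x.take (x.length - v)).reverse =
        x[x.length - (v + 1)] :: (x.take (x.length - (v + 1))).reverse := by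
      rw [e0, List.take_succ_eq_append_getElem hlt]
      simp
    cases hb : x[x.length - (v + 1)] with
    | false =>
      refine (((ExecLe.pop 0 _).seq ((ExecLe.case_false ?_
        (((ExecLe.pop 0 _).seq (ExecLe.push 3 false _)))).seq
          (ExecLe.pop 0 _))).mono (by omega)).congr ?_
      · simp [e1, hb, tri_cons]
      · rw [e1, e2, hb]
        funext j
        simp only [Function.update_apply]
        split_ifs <;> first | omega | simp_all [tri_cons]
    | true =>
      refine (((ExecLe.pop 0 _).seq ((ExecLe.case_true ?_
        (((ExecLe.pop 0 _).seq (ExecLe.push 3 true _)))).seq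
          (ExecLe.pop 0 _))).mono (by omega)).congr ?_
      · simp [e1, hb, tri_cons]
      · rw [e1, e2, hb]
        funext j
        simp only [Function.update_apply]
        split_ifs <;> first | omega | simp_all [tri_cons]

theorem isPolyTime_of_isEmit {F : List Bool → (ℕ → ℕ) → List Bool} (hF : IsEmit 0 F) :
    N68a2faeb.IsPolyTime (fun x : List Bool => F x (fun _ => 0)) := by
  obtain ⟨p, B, ⟨c, hc⟩, hp⟩ := hF.comp 3 (fun _ => 0)
    ⟨le_rfl, fun i hi => absurd hi (Nat.not_lt_zero i)⟩
  refine computable_of_prog (α := List Bool) (β := List Bool) N487b59b3.bitEncode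
    N487b59b3.bitEncode _ (.seq decodeP (.seq (revP 3 0) (.seq p (clearP 0)))) 0 1
    ((Polynomial.X + 2) ^ c + 16 * Polynomial.X + 6) ?_
  intro x
  have h1 := decodeP_exec (Function.update (fun _ => []) 0 (N487b59b3.bitEncode x)) x
    (by rw [Function.update_self, bitEncode_eq_tri]) (by simp)
  have h2 := revP_exec (a := 3) (b := 0) (by omega)
    (update (update (Function.update (fun _ => []) 0 (N487b59b3.bitEncode x)) 0 []) 3 x.reverse)
  have h2' : ExecLe (revP 3 0)
      (update (update (Function.update (fun _ => []) 0 (N487b59b3.bitEncode x)) 0 []) 3 x.reverse)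
      (update (fun _ => []) 0 x) (x.length * 5 + 1) := by
    refine (h2.mono (by simp)).congr ?_
    funext j
    simp only [Function.update_apply]
    split_ifs <;> simp_all
  have hag : Agree 0 3 (fun _ => 0) x (fun _ => 0) (update (fun _ => []) 0 x) :=
    ⟨by simp, fun i hi => absurd hi (Nat.not_lt_zero i), fun j hj => by
      rw [Function.update_of_ne (by omega)]⟩
  have h3 := hp x (fun _ => 0) (update (fun _ => []) 0 x) x.length hag le_rfl
    (fun i hi => absurd hi (Nat.not_lt_zero i))
  have h4 := clearP_exec 0 (update (update (fun _ => []) 0 x) 1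
    (tri (F x fun _ => 0) ++ (update (fun _ => []) 0 x : Store) 1))
  have h5 := (h1.seq (h2'.seq (h3.seq h4)))
  obtain ⟨t, ht, he⟩ := h5.congr (σ'' := Function.update (fun _ => []) 1
    (N487b59b3.bitEncode (F x fun _ => 0))) (by
      rw [bitEncode_eq_tri]
      funext j
      simp only [Function.update_apply]
      split_ifs <;> simp_all)
  refine ⟨t, ht.trans ?_, he⟩
  have hlen : (N487b59b3.bitEncode x).length = 3 * x.length := by
    rw [bitEncode_eq_tri]
    clear * -
    induction x with
    | nil => rfl
    | cons a l ih => rw [tri_cons]; simp [ih]; ring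
  have hB : B x.length ≤ (3 * x.length + 2) ^ c :=
    (hc _).trans (Nat.pow_le_pow_left (by omega) c)
  rw [hlen]
  simp only [Polynomial.eval_add, Polynomial.eval_pow, Polynomial.eval_X, Polynomial.eval_mul,
    Polynomial.eval_ofNat]
  simp only [ne_eq, one_ne_zero, not_false_eq_true, zero_ne_one, Function.update_of_ne,
    Function.update_self] at ht ⊢
  omega

end Pool.Agent.Lib57
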