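import Mathlib

set_option linter.unusedSectionVars false

/-! Micro-step semantics of multi-stack machines: every micro-step touches at most one stack
symbol. -/

namespace Pool.Agent.Lib57

open Turing Function

section micro

variable {K : Type} [DecidableEq K] {Γ : K → Type} {Λ σ : Type}

/-- Configurations of the micro-step machine; the statement `none` means halted. -/
structure MCfg (Γ : K → Type) (Λ σ : Type) where
  q : Option (TM2.Stmt Γ Λ σ)
  v : σ
  S : ∀ k, List (Γ k)

/-- One micro-step. -/
def mstep (M : Λ → TM2.Stmt Γ Λ σ) (c : MCfg Γ Λ σ) : MCfg Γ Λ σ :=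
  match c.q with
  | none => c
  | some (.push k f q) => ⟨some q, c.v, update c.S k (f c.v :: c.S k)⟩
  | some (.peek k f q) => ⟨some q, f c.v (c.S k).head?, c.S⟩
  | some (.pop k f q) => ⟨some q, f c.v (c.S k).head?, update c.S k (c.S k).tail⟩
  | some (.load a q) => ⟨some q, a c.v, c.S⟩
  | some (.branch f q₁ q₂) => ⟨some (cond (f c.v) q₁ q₂), c.v, c.S⟩
  | some (.goto f) => ⟨some (M (f c.v)), c.v, c.S⟩
  | some .halt => ⟨none, c.v, c.S⟩

/-- number of micro-steps of a statement -/
def depth : TM2.Stmt Γ Λ σ → ℕ
  | .push _ _ q => depth q + 1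
  | .peek _ _ q => depth q + 1
  | .pop _ _ q => depth q + 1
  | .load _ q => depth q + 1
  | .branch _ q₁ q₂ => max (depth q₁) (depth q₂) + 1
  | .goto _ => 1
  | .halt => 1

/-- the micro configuration of a machine configuration -/
def toM (M : Λ → TM2.Stmt Γ Λ σ) (c : TM2.Cfg Γ Λ σ) : MCfg Γ Λ σ := ⟨c.l.map M, c.var, c.stk⟩

theorem micro_stepAux (M : Λ → TM2.Stmt Γ Λ σ) (q : TM2.Stmt Γ Λ σ) :
    ∀ (v : σ) (S : ∀ k, List (Γ k)), ∃ c ≤ depth q,
      (mstep M)^[c] ⟨some q, v, S⟩ = toM M (TM2.stepAux q v S) := by
  induction q with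
  | push k f q ih =>
    intro v S
    obtain ⟨c, hc, h⟩ := ih v (update S k (f v :: S k))
    exact ⟨c + 1, by simp only [depth]; omega, by rw [iterate_succ_apply]; exact h⟩
  | peek k f q ih =>
    intro v S
    obtain ⟨c, hc, h⟩ := ih (f v (S k).head?) S
    exact ⟨c + 1, by simp only [depth]; omega, by rw [iterate_succ_apply]; exact h⟩
  | pop k f q ih =>
    intro v S
    obtain ⟨c, hc, h⟩ := ih (f v (S k).head?) (update S k (S k).tail)
    exact ⟨c + 1, by simp only [depth]; omega, by rw [iterate_succ_apply]; exact h⟩
  | load a q ih =>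
    intro v S
    obtain ⟨c, hc, h⟩ := ih (a v) S
    exact ⟨c + 1, by simp only [depth]; omega, by rw [iterate_succ_apply]; exact h⟩
  | branch f q₁ q₂ ih₁ ih₂ =>
    intro v S
    cases hf : f v with
    | true =>
      obtain ⟨c, hc, h⟩ := ih₁ v S
      refine ⟨c + 1, by simp only [depth]; omega, ?_⟩
      rw [iterate_succ_apply]
      simp only [mstep, hf, cond_true, TM2.stepAux]
      exact h
    | false =>
      obtain ⟨c, hc, h⟩ := ih₂ v S
      refine ⟨c + 1, by simp only [depth]; omega, ?_⟩
      rw [iterate_succ_apply]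
      simp only [mstep, hf, cond_false, TM2.stepAux]
      exact h
  | goto f =>
    intro v S
    exact ⟨1, by simp [depth], rfl⟩
  | halt =>
    intro v S
    exact ⟨1, by simp [depth], rfl⟩

theorem micro_steps (M : Λ → TM2.Stmt Γ Λ σ) (D : ℕ) (hD : ∀ l, depth (M l) ≤ D) (s : ℕ) :
    ∀ (a b : TM2.Cfg Γ Λ σ), (flip bind (TM2.step M))^[s] (some a) = some b →
      ∃ c ≤ s * D, (mstep M)^[c] (toM M a) = toM M b := by
  induction s with
  | zero =>
    intro a b h
    simp only [iterate_zero, id_eq, Option.some.injEq] at h
    subst h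
    exact ⟨0, by simp, rfl⟩
  | succ s ih =>
    intro a b h
    rw [iterate_succ_apply] at h
    obtain ⟨l, v, S⟩ := a
    cases l with
    | none =>
      exfalso
      have hnone : ∀ n, (flip bind (TM2.step M))^[n] (none : Option (TM2.Cfg Γ Λ σ)) = none := by
        intro n
        induction n with
        | zero => rfl
        | succ n ihn => rw [iterate_succ_apply]; exact ihn
      have h1 : flip bind (TM2.step M) (some ⟨none, v, S⟩) = none := rfl
      rw [h1, hnone] at h
      cases h
    | some l =>
      have h1 : flip bind (TM2.step M) (some ⟨some l, v, S⟩) =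
          some (TM2.stepAux (M l) v S) := rfl
      rw [h1] at h
      obtain ⟨c, hc, hc'⟩ := ih _ _ h
      obtain ⟨d, hd, hd'⟩ := micro_stepAux M (M l) v S
      refine ⟨c + d, ?_, ?_⟩
      · have := hD l
        calc c + d ≤ s * D + D := by omega
          _ = (s + 1) * D := by ring
      · rw [iterate_add_apply]
        have : toM M ⟨some l, v, S⟩ = ⟨some (M l), v, S⟩ := rfl
        rw [this, hd', hc']

theorem micro_halt (M : Λ → TM2.Stmt Γ Λ σ) (v : σ) (S : ∀ k, List (Γ k)) (n : ℕ) :
    (mstep M)^[n] ⟨none, v, S⟩ = ⟨none, v, S⟩ := by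
  induction n with
  | zero => rfl
  | succ n ih => rw [iterate_succ_apply]; exact ih

/-! ### cells -/

/-- Contents of a cell of a stack: above the stack, below the stack, or a symbol. -/
inductive Sy (G : Type) : Type
  | blank : Sy G
  | bot : Sy G
  | sym (a : G) : Sy G

/-- Contents of the cell number `i` when the stack `S` starts at cell number `b`. -/
def cell {G : Type} (b : ℕ) (S : List G) (i : ℕ) : Sy G :=
  if i < b then .bot else match S.reverse[i - b]? with
    | none => .blank
    | some a => .sym a

theorem cell_lt {G : Type} {b : ℕ} {S : List G} {i : ℕ} (h : i < b) : cell b S i = .bot := by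
  simp [cell, h]

theorem cell_ge {G : Type} {b : ℕ} {S : List G} {i : ℕ} (h : b + S.length ≤ i) :
    cell b S i = .blank := by
  have h1 : ¬ i < b := by omega
  have h2 : S.reverse[i - b]? = none := by
    rw [List.getElem?_eq_none_iff]
    simp only [List.length_reverse]
    omega
  simp [cell, h1, h2]

theorem cell_mid {G : Type} {b : ℕ} {S : List G} {i : ℕ} (h1 : b ≤ i) (h2 : i < b + S.length) :
    cell b S i = .sym (S[b + S.length - 1 - i]'(by omega)) := by
  have h3 : ¬ i < b := by omega
  have h4 : i - b < S.reverse.length := by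
    simp only [List.length_reverse]; omega
  have h5 : S.reverse[i - b]? = some (S[b + S.length - 1 - i]'(by omega)) := by
    rw [List.getElem?_eq_getElem h4, List.getElem_reverse]
    congr 2
    omega
  simp [cell, h3, h5]

theorem cell_blank_iff {G : Type} {b : ℕ} {S : List G} {i : ℕ} :
    cell b S i = .blank ↔ b + S.length ≤ i := by
  constructor
  · intro h
    by_contra hc
    by_cases h1 : i < b
    · rw [cell_lt h1] at h
      cases h
    · rw [cell_mid (by omega) (by omega)] at h
      cases h
  · exact cell_ge

theorem cell_bot_iff {G : Type} {b : ℕ} {S : List G} {i : ℕ} :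
    cell b S i = .bot ↔ i < b := by
  constructor
  · intro h
    by_contra hc
    by_cases h1 : i < b + S.length
    · rw [cell_mid (by omega) (by omega)] at h
      cases h
    · rw [cell_ge (by omega)] at h
      cases h
  · exact cell_lt

/-- new contents of a cell after a push of `a`; `s₁` is the cell below -/
noncomputable def pushUpd {G : Type} (a : G) (s₁ s₂ : Sy G) : Sy G :=
  open Classical in if s₂ = .blank ∧ s₁ ≠ .blank then .sym a else s₂

/-- new contents of a cell after a pop; `s₃` is the cell above -/
noncomputable def popUpd {G : Type} (s₂ s₃ : Sy G) : Sy G :=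
  open Classical in if s₃ = .blank ∧ s₂ ≠ .bot then .blank else s₂

theorem cell_push {G : Type} {b : ℕ} (a : G) (S : List G) (i : ℕ) :
    cell b (a :: S) (i + 1) = pushUpd a (cell b S i) (cell b S (i + 1)) := by
  unfold pushUpd
  by_cases h : i + 1 = b + S.length
  · have h1 : cell b S (i + 1) = .blank := cell_ge (by omega)
    have h2 : cell b S i ≠ .blank := by rw [Ne, cell_blank_iff]; omega
    rw [if_pos ⟨h1, h2⟩, cell_mid (by omega) (by simp only [List.length_cons]; omega)]
    congr 1
    have : b + (a :: S).length - 1 - (i + 1) = 0 := by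
      simp only [List.length_cons]; omega
    simp only [this]
    rfl
  · rw [if_neg]
    · by_cases h1 : i + 1 < b
      · rw [cell_lt h1, cell_lt h1]
      · by_cases h2 : i + 1 < b + S.length
        · rw [cell_mid (by omega) (by simp only [List.length_cons]; omega),
            cell_mid (by omega) (by omega)]
          congr 1
          have : b + (a :: S).length - 1 - (i + 1) = (b + S.length - 1 - (i + 1)) + 1 := by
            simp only [List.length_cons]; omega
          simp only [this]
          rfl
        · rw [cell_ge (by simp only [List.length_cons]; omega), cell_ge (by omega)]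
    · rw [cell_blank_iff, Ne, cell_blank_iff]
      omega

theorem cell_pop {G : Type} {b : ℕ} (S : List G) (i : ℕ) :
    cell b S.tail i = popUpd (cell b S i) (cell b S (i + 1)) := by
  unfold popUpd
  by_cases h : cell b S (i + 1) = .blank ∧ cell b S i ≠ .bot
  · rw [if_pos h]
    rw [cell_blank_iff, Ne, cell_bot_iff] at h
    rw [cell_blank_iff]
    simp only [List.length_tail]
    omega
  · rw [if_neg h]
    rw [cell_blank_iff, Ne, cell_bot_iff] at h
    by_cases h1 : i < b
    · rw [cell_lt h1, cell_lt h1]
    · have h2 : i + 1 < b + S.length := by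
        by_contra hc
        exact h ⟨by omega, by omega⟩
      rw [cell_mid (by omega) (by simp only [List.length_tail]; omega),
        cell_mid (by omega) (by omega)]
      congr 1
      rw [List.getElem_tail]
      congr 1
      simp only [List.length_tail]
      omega

/-- the top cell determines the head of the stack -/
def Sy.toList {G : Type} : Sy G → List G
  | .sym a => [a]
  | _ => []

theorem cell_top {G : Type} {b : ℕ} {S : List G} {i : ℕ} (h1 : cell b S i ≠ .blank)
    (h2 : cell b S (i + 1) = .blank) : (cell b S i).toList.head? = S.head? := by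
  rw [Ne, cell_blank_iff] at h1
  rw [cell_blank_iff] at h2
  by_cases h : i < b
  · rw [cell_lt h]
    have : S.length = 0 := by omega
    rw [List.length_eq_zero_iff] at this
    subst this
    rfl
  · rw [cell_mid (by omega) (by omega)]
    cases S with
    | nil => simp only [List.length_nil] at h1; omega
    | cons a S =>
      have : b + (a :: S).length - 1 - i = 0 := by
        simp only [List.length_cons] at h1 h2 ⊢; omega
      simp only [Sy.toList, this]
      rfl

/-! ### local rules -/

/-- the stack read by a statement -/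
def rk (k₀ : K) : Option (TM2.Stmt Γ Λ σ) → K
  | some (.peek k _ _) => k
  | some (.pop k _ _) => k
  | _ => k₀

/-- the next control state, given the top cell of the stack that is read -/
def nextc (M : Λ → TM2.Stmt Γ Λ σ) (k₀ : K) (c : Option (TM2.Stmt Γ Λ σ) × σ)
    (s : Sy (Γ (rk k₀ c.1))) : Option (TM2.Stmt Γ Λ σ) × σ :=
  let d := mstep M ⟨c.1, c.2, update (fun _ => []) (rk k₀ c.1) s.toList⟩
  (d.q, d.v)

theorem nextc_eq (M : Λ → TM2.Stmt Γ Λ σ) (k₀ : K) (c : MCfg Γ Λ σ) (s : Sy (Γ (rk k₀ c.q)))
    (hs : s.toList.head? = (c.S (rk k₀ c.q)).head?) :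
    nextc M k₀ (c.q, c.v) s = ((mstep M c).q, (mstep M c).v) := by
  obtain ⟨q, v, S⟩ := c
  cases q with
  | none => rfl
  | some q =>
    cases q with
    | push k f q => rfl
    | peek k f q =>
      simp only [rk] at hs
      simp only [nextc, mstep, rk, update_self, hs]
    | pop k f q =>
      simp only [rk] at hs
      simp only [nextc, mstep, rk, update_self, hs]
    | load a q => rfl
    | branch f q₁ q₂ => rfl
    | goto f => rfl
    | halt => rfl

/-- the next contents of a cell of the stack `k`; `s₁`, `s₃` are the cells below and above -/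
noncomputable def upd (q : Option (TM2.Stmt Γ Λ σ)) (v : σ) (k : K) (s₁ s₂ s₃ : Sy (Γ k)) :
    Sy (Γ k) :=
  match q with
  | some (.push k' f _) => if h : k' = k then pushUpd (h ▸ f v) s₁ s₂ else s₂
  | some (.pop k' _ _) => if k' = k then popUpd s₂ s₃ else s₂
  | _ => s₂

theorem cell_mstep (M : Λ → TM2.Stmt Γ Λ σ) (c : MCfg Γ Λ σ) (b : ℕ) (k : K) (i : ℕ) :
    cell b ((mstep M c).S k) (i + 1) =
      upd c.q c.v k (cell b (c.S k) i) (cell b (c.S k) (i + 1)) (cell b (c.S k) (i + 2)) := by
  obtain ⟨q, v, S⟩ := c
  cases q with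
  | none => rfl
  | some q =>
    cases q with
    | push k' f q =>
      rcases eq_or_ne k' k with rfl | h
      · simp only [mstep, upd, update_self, dif_pos]
        exact cell_push (f v) (S k') i
      · simp only [mstep, upd, dif_neg h]
        rw [update_of_ne (Ne.symm h)]
    | peek k' f q => rfl
    | pop k' f q =>
      rcases eq_or_ne k' k with rfl | h
      · simp only [mstep, upd, update_self, if_true]
        exact cell_pop (S k') (i + 1)
      · simp only [mstep, upd, if_neg h]
        rw [update_of_ne (Ne.symm h)]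
    | load a q => rfl
    | branch f q₁ q₂ => rfl
    | goto f => rfl
    | halt => rfl

/-! ### finiteness -/

variable [Fintype Λ] [Fintype σ]

/-- the reachable statements -/
noncomputable def Qs (M : Λ → TM2.Stmt Γ Λ σ) : Finset (Option (TM2.Stmt Γ Λ σ)) :=
  TM2.stmts M Finset.univ

theorem none_mem_Qs (M : Λ → TM2.Stmt Γ Λ σ) : none ∈ Qs M := by
  simp [Qs, TM2.stmts]

theorem main_mem_Qs (M : Λ → TM2.Stmt Γ Λ σ) (l : Λ) : some (M l) ∈ Qs M := by
  simp only [Qs, TM2.stmts, Finset.mem_insertNone, Finset.mem_biUnion]
  intro q hq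
  simp only [Option.mem_def, Option.some.injEq] at hq
  subst hq
  exact ⟨l, Finset.mem_univ l, TM2.stmts₁_self⟩

theorem mstep_mem_Qs (M : Λ → TM2.Stmt Γ Λ σ) (c : MCfg Γ Λ σ) (h : c.q ∈ Qs M) :
    (mstep M c).q ∈ Qs M := by
  obtain ⟨q, v, S⟩ := c
  cases q with
  | none => exact h
  | some q =>
    have key : ∀ q', q' ∈ TM2.stmts₁ q → some q' ∈ Qs M := fun q' hq' => TM2.stmts_trans hq' h
    cases q with
    | push k f q => exact key q (by simp [TM2.stmts₁, TM2.stmts₁_self])
    | peek k f q => exact key q (by simp [TM2.stmts₁, TM2.stmts₁_self])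
    | pop k f q => exact key q (by simp [TM2.stmts₁, TM2.stmts₁_self])
    | load a q => exact key q (by simp [TM2.stmts₁, TM2.stmts₁_self])
    | branch f q₁ q₂ =>
      cases hf : f v with
      | true =>
        simp only [mstep, hf, cond_true]
        exact key q₁ (by simp [TM2.stmts₁, TM2.stmts₁_self])
      | false =>
        simp only [mstep, hf, cond_false]
        exact key q₂ (by simp [TM2.stmts₁, TM2.stmts₁_self])
    | goto f => exact main_mem_Qs M _
    | halt => exact none_mem_Qs M

/-- the symbols that can occur on the stack `k` -/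
def symSet (M : Λ → TM2.Stmt Γ Λ σ) (k₀ k : K) : Set (Γ k) :=
  {a | k = k₀ ∨ ∃ f q v, some (TM2.Stmt.push k f q) ∈ Qs M ∧ a = f v}

theorem symSet_finite (M : Λ → TM2.Stmt Γ Λ σ) (k₀ k : K) [Finite (Γ k₀)] :
    (symSet M k₀ k).Finite := by
  by_cases hk : k = k₀
  · subst hk
    exact Set.toFinite _
  · have : symSet M k₀ k ⊆ ⋃ q' ∈ (↑(Qs M) : Set (Option (TM2.Stmt Γ Λ σ))),
        {a : Γ k | ∃ f q v, q' = some (TM2.Stmt.push k f q) ∧ a = f v} := by
      intro a ha
      rcases ha with h | ⟨f, q, v, h, rfl⟩
      · exact absurd h hk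
      · simp only [Set.mem_iUnion]
        exact ⟨_, h, f, q, v, rfl, rfl⟩
    refine Set.Finite.subset ?_ this
    refine Set.Finite.biUnion (Finset.finite_toSet _) ?_
    intro q' _
    by_cases h : ∃ f q, q' = some (TM2.Stmt.push k f q)
    · obtain ⟨f, q, rfl⟩ := h
      refine Set.Finite.subset (Set.finite_range f) ?_
      rintro a ⟨f', q'', v, h, rfl⟩
      simp only [Option.some.injEq, TM2.Stmt.push.injEq, heq_eq_eq, true_and] at h
      obtain ⟨rfl, rfl⟩ := h
      exact ⟨v, rfl⟩
    · convert Set.finite_empty
      ext a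
      simp only [Set.mem_ofPred_eq, Set.mem_empty_iff_false, iff_false]
      rintro ⟨f, q, v, rfl, _⟩
      exact h ⟨f, q, rfl⟩

theorem mstep_sym (M : Λ → TM2.Stmt Γ Λ σ) (k₀ : K) (c : MCfg Γ Λ σ) (hq : c.q ∈ Qs M)
    (h : ∀ k, ∀ a ∈ c.S k, a ∈ symSet M k₀ k) :
    ∀ k, ∀ a ∈ (mstep M c).S k, a ∈ symSet M k₀ k := by
  obtain ⟨q, v, S⟩ := c
  intro k a ha
  cases q with
  | none => exact h k a ha
  | some q =>
    cases q with
    | push k' f q =>
      simp only [mstep] at ha
      rcases eq_or_ne k k' with rfl | hk
      · rw [update_self] at ha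
        rcases List.mem_cons.1 ha with rfl | ha
        · exact Or.inr ⟨f, q, v, hq, rfl⟩
        · exact h k a ha
      · rw [update_of_ne hk] at ha
        exact h k a ha
    | peek k' f q => exact h k a ha
    | pop k' f q =>
      simp only [mstep] at ha
      rcases eq_or_ne k k' with rfl | hk
      · rw [update_self] at ha
        exact h k a (List.mem_of_mem_tail ha)
      · rw [update_of_ne hk] at ha
        exact h k a ha
    | load a' q => exact h k a ha
    | branch f q₁ q₂ => exact h k a ha
    | goto f => exact h k a ha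
    | halt => exact h k a ha

theorem mstep_length (M : Λ → TM2.Stmt Γ Λ σ) (c : MCfg Γ Λ σ) (k : K) :
    ((mstep M c).S k).length ≤ (c.S k).length + 1 := by
  obtain ⟨q, v, S⟩ := c
  cases q with
  | none => simp [mstep]
  | some q =>
    cases q with
    | push k' f q =>
      simp only [mstep]
      rcases eq_or_ne k k' with rfl | hk
      · simp
      · rw [update_of_ne hk]; omega
    | pop k' f q =>
      simp only [mstep]
      rcases eq_or_ne k k' with rfl | hk
      · simp only [update_self, List.length_tail]; omega
      · rw [update_of_ne hk]; omega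
    | peek k' f q => simp [mstep]
    | load a' q => simp [mstep]
    | branch f q₁ q₂ => simp [mstep]
    | goto f => simp [mstep]
    | halt => simp [mstep]

end micro

end Pool.Agent.Lib57
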