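import Mathlib
import Pool.Agent.Lib_helper57.PolyTime
import Pool.Agent.Lib_helper57.Micro

/-! The input words of verifiers, and definable width-bounded CNFs. -/

namespace Pool.Agent.Lib57

open Function

theorem getElem?_flatMap_const {α β : Type*} (f : α → List β) (c : ℕ)
    (hf : ∀ a, (f a).length = c) : ∀ (l : List α) (u r : ℕ), r < c →
      (l.flatMap f)[c * u + r]? = (l[u]?).bind fun a => (f a)[r]? := by
  intro l
  induction l with
  | nil => intro u r _; simp
  | cons a l ih =>
    intro u r hr
    rw [List.flatMap_cons]
    cases u with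
    | zero =>
      rw [List.getElem?_append_left (by rw [hf]; omega)]
      simp
    | succ u =>
      rw [List.getElem?_append_right (by rw [hf]; nlinarith)]
      have : c * (u + 1) + r - (f a).length = c * u + r := by
        rw [hf]
        have : c * (u + 1) = c * u + c := by ring
        omega
      rw [this, ih u r hr]
      simp

theorem length_flatMap_const {α β : Type*} (f : α → List β) (c : ℕ)
    (hf : ∀ a, (f a).length = c) (l : List α) : (l.flatMap f).length = c * l.length := by
  induction l with
  | nil => simp
  | cons a l ih => rw [List.flatMap_cons, List.length_append, ih, hf, List.length_cons]; ring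

theorem length_tri (l : List Bool) : (tri l).length = 3 * l.length :=
  length_flatMap_const _ 3 (fun _ => rfl) l

/-- the first part of the input of a verifier -/
def headWord (x : List Bool) : List Bool :=
  (x.flatMap fun b => [true, true, true, b, true, false]) ++ [false]

theorem length_headWord (x : List Bool) : (headWord x).length = 6 * x.length + 1 := by
  simp [headWord, length_flatMap_const _ 6]

theorem delimit_tri (x : List Bool) : N487b59b3.delimit (tri x) = headWord x := by
  induction x with
  | nil => rfl
  | cons a l ih =>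
    rw [tri_cons]
    simp only [N487b59b3.delimit, ih]
    rfl

theorem bitEncode_pair (x w : List Bool) :
    N487b59b3.bitEncode ((x, w) : List Bool × List Bool) = headWord x ++ tri w := by
  show N487b59b3.delimit (N487b59b3.bitEncode x) ++ N487b59b3.bitEncode w = _
  rw [bitEncode_eq_tri, bitEncode_eq_tri, delimit_tri]

/-- the bits of `headWord x` -/
def hbit (x : List Bool) (j : ℕ) : Prop :=
  ∃ u < x.length, j = 6 * u ∨ j = 6 * u + 1 ∨ j = 6 * u + 2 ∨ j = 6 * u + 4 ∨
    (j = 6 * u + 3 ∧ x[u]? = some true)

theorem headWord_getElem? (x : List Bool) (j : ℕ) (hj : j < 6 * x.length + 1) :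
    (headWord x)[j]? = some (dec (hbit x j)) := by
  unfold headWord
  by_cases hj' : j < 6 * x.length
  · rw [List.getElem?_append_left (by rw [length_flatMap_const _ 6 (fun _ => rfl)]; exact hj')]
    obtain ⟨u, r, hr, rfl⟩ : ∃ u r, r < 6 ∧ j = 6 * u + r :=
      ⟨j / 6, j % 6, Nat.mod_lt _ (by norm_num), (Nat.div_add_mod j 6).symm⟩
    have hu : u < x.length := by omega
    rw [getElem?_flatMap_const _ 6 (fun _ => rfl) x u r hr, List.getElem?_eq_getElem hu]
    simp only [Option.bind_some]
    have key : ∀ u' < x.length, (6 * u + r = 6 * u' ∨ 6 * u + r = 6 * u' + 1 ∨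
        6 * u + r = 6 * u' + 2 ∨ 6 * u + r = 6 * u' + 4 ∨
        (6 * u + r = 6 * u' + 3 ∧ x[u']? = some true)) → u = u' := by
      intro u' _ h
      omega
    interval_cases r
    · rw [dec_pos (show hbit x (6 * u + 0) from ⟨u, hu, by omega⟩)]; rfl
    · rw [dec_pos (show hbit x (6 * u + 1) from ⟨u, hu, by omega⟩)]; rfl
    · rw [dec_pos (show hbit x (6 * u + 2) from ⟨u, hu, by omega⟩)]; rfl
    · by_cases hx : x[u] = true
      · rw [dec_pos (show hbit x (6 * u + 3) from
          ⟨u, hu, by right; right; right; right; exact ⟨rfl, by rw [List.getElem?_eq_getElem hu, hx]⟩⟩)]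
        simp [hx]
      · rw [dec_neg (show ¬ hbit x (6 * u + 3) from ?_)]
        · simp at hx
          simp [hx]
        · rintro ⟨u', hu', h⟩
          have := key u' hu' h
          subst this
          rcases h with h | h | h | h | ⟨_, h⟩
          · omega
          · omega
          · omega
          · omega
          · rw [List.getElem?_eq_getElem hu] at h
            exact hx (Option.some.inj h)
    · rw [dec_pos (show hbit x (6 * u + 4) from ⟨u, hu, by omega⟩)]; rfl
    · rw [dec_neg (show ¬ hbit x (6 * u + 5) from ?_)]
      · rfl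
      · rintro ⟨u', hu', h⟩
        omega
  · have : j = 6 * x.length := by omega
    subst this
    rw [List.getElem?_append_right (by rw [length_flatMap_const _ 6 (fun _ => rfl)]),
      length_flatMap_const _ 6 (fun _ => rfl), Nat.sub_self]
    rw [dec_neg]
    · rfl
    · rintro ⟨u', hu', h⟩
      omega

/-! ### definable CNFs -/

/-- A literal of a pattern placed at `(t, i)`: the variable at time `t + dt` and position `i + d`
(or position `0`), with kind `code`. -/
structure Lit where
  dt : ℕ
  di : Option ℕ
  code : ℕ
  sign : Bool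

/-- position of a literal -/
def Lit.pos (l : Lit) (i : ℕ) : ℕ :=
  match l.di with
  | none => 0
  | some d => i + d

/-- A clause pattern, used at all `(t, i)` satisfying the guard. -/
structure Pat where
  guard : List Bool → ℕ → ℕ → Prop
  lits : List Lit

/-- A family of CNF formulas, one for each input word `x`; the variables are the triples
`(t, i, a)` with `t < T x`, `i < H x`, `a < A`. -/
structure DCNF where
  T : List Bool → ℕ
  H : List Bool → ℕ
  A : ℕ
  pats : List Pat

/-- satisfiability of the formula of `x` -/
def DCNF.Sat (D : DCNF) (x : List Bool) : Prop :=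
  ∃ y : ℕ → ℕ → ℕ → Bool, ∀ t < D.T x, ∀ i < D.H x, ∀ π ∈ D.pats, π.guard x t i →
    ∃ l ∈ π.lits, y (t + l.dt) (l.pos i) l.code = l.sign

/-- definability and width bound -/
structure DCNF.Good (D : DCNF) (w : ℕ) : Prop where
  T_term : IsTerm 0 (fun x _ => D.T x)
  H_term : IsTerm 0 (fun x _ => D.H x)
  T_pos : ∀ x, 1 ≤ D.T x
  H_pos : ∀ x, 1 ≤ D.H x
  guard_form : ∀ π ∈ D.pats, IsForm 2 (fun x e => π.guard x (e 0) (e 1))
  width : ∀ π ∈ D.pats, π.lits.length ≤ w
  range : ∀ π ∈ D.pats, ∀ x t i, t < D.T x → i < D.H x → π.guard x t i →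
    ∀ l ∈ π.lits, t + l.dt < D.T x ∧ l.pos i < D.H x ∧ l.code < D.A

theorem exists_code {α : Type*} (F : Finset α) :
    ∃ (code : α → ℕ) (A : ℕ), (∀ a, code a < A) ∧ ∀ a ∈ F, ∀ b, code a = code b → a = b := by
  classical
  refine ⟨fun a => if h : a ∈ F then (F.equivFin ⟨a, h⟩ : ℕ) else F.card, F.card + 1, ?_, ?_⟩
  · intro a
    dsimp only
    split_ifs with h
    · have := (F.equivFin ⟨a, h⟩).isLt
      omega
    · omega
  · intro a ha b hab
    dsimp only at hab
    rw [dif_pos ha] at hab
    split_ifs at hab with hb
    · have h1 : F.equivFin ⟨a, ha⟩ = F.equivFin ⟨b, hb⟩ := Fin.ext hab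
      have h2 := F.equivFin.injective h1
      exact congrArg Subtype.val h2
    · have := (F.equivFin ⟨a, ha⟩).isLt
      omega

end Pool.Agent.Lib57
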