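import Mathlib
import Pool.Agent.Lib_helper57.Blocks

set_option linter.unusedSectionVars false

/-! The computation tableau of a multi-stack machine as a width-bounded CNF. -/

namespace Pool.Agent.Lib57

open Turing Function

section tableau

variable {K : Type} [DecidableEq K] [Fintype K] {Γ : K → Type} {Λ σ : Type} [Fintype Λ]
  [Fintype σ]

/-- facts about a configuration: its control state, or the contents of a cell -/
abbrev FK (Γ : K → Type) (Λ σ : Type) : Type :=
  (Option (TM2.Stmt Γ Λ σ) × σ) ⊕ (Σ k, Sy (Γ k))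

/-- names of the clause patterns -/
inductive PName (Γ : K → Type) (Λ σ : Type) (k₀ : K) : Type
  | ctl (c : Option (TM2.Stmt Γ Λ σ) × σ) (s : Sy (Γ (rk k₀ c.1)))
  | cel (c : Option (TM2.Stmt Γ Λ σ) × σ) (k : K) (s₁ s₂ s₃ : Sy (Γ k))
  | bot (k : K)
  | top (k : K)
  | ictl
  | ioth (k : K)
  | iabove
  | ix (b : Bool)
  | w1
  | w2 (b : Bool)
  | w3 (b : Bool)
  | w4
  | w5
  | w6
  | fin

/-- all data of the construction -/
structure TData (Γ : K → Type) (Λ σ : Type) where
  M : Λ → TM2.Stmt Γ Λ σ
  k₀ : K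
  k₁ : K
  main : Λ
  v0 : σ
  g : Bool → Γ k₀
  outF : Γ k₁
  P : List Bool → ℕ
  T : List Bool → ℕ
  H : List Bool → ℕ
  code : FK Γ Λ σ → ℕ

namespace TData

variable (X : TData Γ Λ σ)

/-- literal about the control state -/
def lC (dt : ℕ) (c : Option (TM2.Stmt Γ Λ σ) × σ) (b : Bool) : Lit :=
  ⟨dt, none, X.code (.inl c), b⟩

/-- literal about a cell -/
def lS (dt d : ℕ) (k : K) (s : Sy (Γ k)) (b : Bool) : Lit :=
  ⟨dt, some d, X.code (.inr ⟨k, s⟩), b⟩

/-- the last position of the head word -/
def hi (x : List Bool) : ℕ := 3 * X.P x + 6 * x.length + 1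

/-- the bit of the head word at position `i` -/
def xb (x : List Bool) (i : ℕ) : Prop :=
  ∃ u < x.length, X.hi x = i + 6 * u ∨ X.hi x = i + 6 * u + 1 ∨ X.hi x = i + 6 * u + 2 ∨
    X.hi x = i + 6 * u + 4 ∨ (X.hi x = i + 6 * u + 3 ∧ x[u]? = some true)

/-- `i` is the lowest position of a block of the witness region -/
def W (x : List Bool) (i : ℕ) : Prop := ∃ u < X.P x, i + 2 + 3 * u = 3 * X.P x

/-- the pattern of a name -/
noncomputable def pat : PName Γ Λ σ X.k₀ → Pat
  | .ctl c s => ⟨fun x t i => s ≠ .blank ∧ t + 1 < X.T x ∧ i + 1 < X.H x,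
      [X.lC 0 c false, X.lS 0 0 (rk X.k₀ c.1) s false, X.lS 0 1 (rk X.k₀ c.1) .blank false,
        X.lC 1 (nextc X.M X.k₀ c s) true]⟩
  | .cel c k s₁ s₂ s₃ => ⟨fun x t i => t + 1 < X.T x ∧ i + 2 < X.H x,
      [X.lC 0 c false, X.lS 0 0 k s₁ false, X.lS 0 1 k s₂ false, X.lS 0 2 k s₃ false,
        X.lS 1 1 k (upd c.1 c.2 k s₁ s₂ s₃) true]⟩
  | .bot k => ⟨fun _ _ i => i = 0, [X.lS 0 0 k .bot true]⟩
  | .top k => ⟨fun x _ i => i + 1 = X.H x, [X.lS 0 0 k .blank true]⟩
  | .ictl => ⟨fun _ t _ => t = 0, [X.lC 0 (some (X.M X.main), X.v0) true]⟩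
  | .ioth k => ⟨fun _ t i => t = 0 ∧ 1 ≤ i ∧ k ≠ X.k₀, [X.lS 0 0 k .blank true]⟩
  | .iabove => ⟨fun x t i => t = 0 ∧ X.hi x < i, [X.lS 0 0 X.k₀ .blank true]⟩
  | .ix b => ⟨fun x t i => t = 0 ∧ 3 * X.P x < i ∧ i ≤ X.hi x ∧ (X.xb x i ↔ b = true),
      [X.lS 0 0 X.k₀ (.sym (X.g b)) true]⟩
  | .w1 => ⟨fun x t i => t = 0 ∧ X.W x i,
      [X.lS 0 1 X.k₀ (.sym (X.g false)) true, X.lS 0 1 X.k₀ (.sym (X.g true)) true,
        X.lS 0 1 X.k₀ .bot true]⟩
  | .w2 b => ⟨fun x t i => t = 0 ∧ X.W x i,
      [X.lS 0 1 X.k₀ (.sym (X.g b)) false, X.lS 0 2 X.k₀ (.sym (X.g true)) true]⟩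
  | .w3 b => ⟨fun x t i => t = 0 ∧ X.W x i,
      [X.lS 0 1 X.k₀ (.sym (X.g b)) false, X.lS 0 0 X.k₀ (.sym (X.g false)) true]⟩
  | .w4 => ⟨fun x t i => t = 0 ∧ X.W x i,
      [X.lS 0 1 X.k₀ .bot false, X.lS 0 2 X.k₀ .bot true]⟩
  | .w5 => ⟨fun x t i => t = 0 ∧ X.W x i,
      [X.lS 0 1 X.k₀ .bot false, X.lS 0 0 X.k₀ .bot true]⟩
  | .w6 => ⟨fun x t i => t = 0 ∧ X.W x i ∧ X.W x (i + 3),
      [X.lS 0 4 X.k₀ .bot false, X.lS 0 1 X.k₀ .bot true]⟩
  | .fin => ⟨fun x t _ => t + 1 = X.T x, [X.lS 0 0 X.k₁ (.sym X.outF) false]⟩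

/-- the input stack -/
def inp (x w : List Bool) : List (Γ X.k₀) := (headWord x ++ tri w).map X.g

/-- the initial configuration -/
def init (x w : List Bool) : MCfg Γ Λ σ :=
  ⟨some (X.M X.main), X.v0, update (fun _ => []) X.k₀ (X.inp x w)⟩

/-- the run -/
def run (x w : List Bool) (t : ℕ) : MCfg Γ Λ σ := (mstep X.M)^[t] (X.init x w)

/-- the lowest position of a stack -/
def bs (x w : List Bool) (k : K) : ℕ := if k = X.k₀ then 3 * X.P x + 1 - 3 * w.length else 1

/-- the true facts of the run -/
def truth (x w : List Bool) (t i : ℕ) : FK Γ Λ σ → Prop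
  | .inl c => c = ((X.run x w t).q, (X.run x w t).v)
  | .inr ⟨k, s⟩ => cell (X.bs x w k) ((X.run x w t).S k) i = s

theorem run_succ (x w : List Bool) (t : ℕ) : X.run x w (t + 1) = mstep X.M (X.run x w t) := by
  simp only [run, iterate_succ_apply']

/-! #### the initial cells -/

theorem length_inp (x w : List Bool) :
    (X.inp x w).length = 6 * x.length + 1 + 3 * w.length := by
  simp [inp, length_headWord, length_tri]

theorem run_zero_S (x w : List Bool) (k : K) :
    (X.run x w 0).S k = update (fun _ => []) X.k₀ (X.inp x w) k := rfl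

theorem bs_k₀ (x w : List Bool) : X.bs x w X.k₀ = 3 * X.P x + 1 - 3 * w.length := by
  simp [bs]

theorem cell_init_other (x w : List Bool) {k : K} (hk : k ≠ X.k₀) (i : ℕ) (hi : 1 ≤ i) :
    cell (X.bs x w k) ((X.run x w 0).S k) i = .blank := by
  rw [run_zero_S, update_of_ne hk]
  apply cell_ge
  simp only [bs, if_neg hk, List.length_nil]
  omega

theorem cell_zero (x w : List Bool) (hw : w.length ≤ X.P x) (k : K) (t : ℕ) :
    cell (X.bs x w k) ((X.run x w t).S k) 0 = .bot := by
  apply cell_lt
  unfold bs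
  split_ifs <;> omega

theorem cell_init_above (x w : List Bool) (hw : w.length ≤ X.P x) (i : ℕ) (hi : X.hi x < i) :
    cell (X.bs x w X.k₀) ((X.run x w 0).S X.k₀) i = .blank := by
  rw [run_zero_S, update_self]
  apply cell_ge
  rw [bs_k₀, length_inp]
  unfold TData.hi at hi
  omega

theorem cell_init_bot (x w : List Bool) (i : ℕ) (hi : i + 3 * w.length ≤ 3 * X.P x) :
    cell (X.bs x w X.k₀) ((X.run x w 0).S X.k₀) i = .bot := by
  apply cell_lt
  rw [bs_k₀]
  omega

theorem inp_getElem?_head (x w : List Bool) (j : ℕ) (hj : j < 6 * x.length + 1) :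
    (X.inp x w)[j]? = some (X.g (dec (hbit x j))) := by
  unfold inp
  rw [List.getElem?_map, List.getElem?_append_left (by rw [length_headWord]; exact hj),
    headWord_getElem? x j hj]
  rfl

theorem inp_getElem?_tail (x w : List Bool) (u r : ℕ) (hr : r < 3) :
    (X.inp x w)[6 * x.length + 1 + (3 * u + r)]? =
      ((w[u]?).bind fun a => [true, a, false][r]?).map X.g := by
  unfold inp
  rw [List.getElem?_map, List.getElem?_append_right (by rw [length_headWord]; omega),
    length_headWord]
  congr 1
  rw [show 6 * x.length + 1 + (3 * u + r) - (6 * x.length + 1) = 3 * u + r by omega]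
  exact getElem?_flatMap_const _ 3 (fun _ => rfl) w u r hr

theorem cell_init_mid (x w : List Bool) (hw : w.length ≤ X.P x) (i j : ℕ)
    (hij : i + j = X.hi x) (hj : j < 6 * x.length + 1 + 3 * w.length) (a : Γ X.k₀)
    (ha : (X.inp x w)[j]? = some a) :
    cell (X.bs x w X.k₀) ((X.run x w 0).S X.k₀) i = .sym a := by
  have hlen := X.length_inp x w
  unfold TData.hi at hij
  have hS : (X.run x w 0).S X.k₀ = X.inp x w := by rw [run_zero_S, update_self]
  rw [hS, bs_k₀, cell_mid (by omega) (by omega)]
  congr 1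
  have h1 : 3 * X.P x + 1 - 3 * w.length + (X.inp x w).length - 1 - i = j := by omega
  have h2 : j < (X.inp x w).length := by omega
  rw [List.getElem?_eq_getElem h2] at ha
  simp only [h1]
  exact Option.some.inj ha

theorem xb_iff (x : List Bool) (i : ℕ) (hi : i ≤ X.hi x) :
    X.xb x i ↔ hbit x (X.hi x - i) := by
  unfold xb hbit
  apply exists_congr
  intro u
  apply and_congr_right
  intro _
  constructor
  · rintro (h | h | h | h | ⟨h, h'⟩)
    · omega
    · omega
    · omega
    · omega
    · right; right; right; right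
      exact ⟨by omega, h'⟩
  · rintro (h | h | h | h | ⟨h, h'⟩)
    · omega
    · omega
    · omega
    · omega
    · right; right; right; right
      exact ⟨by omega, h'⟩

theorem cell_init_x (x w : List Bool) (hw : w.length ≤ X.P x) (i : ℕ) (h1 : 3 * X.P x < i)
    (h2 : i ≤ X.hi x) :
    cell (X.bs x w X.k₀) ((X.run x w 0).S X.k₀) i = .sym (X.g (dec (X.xb x i))) := by
  have h3 : X.hi x - i < 6 * x.length + 1 := by unfold TData.hi; omega
  apply X.cell_init_mid x w hw i (X.hi x - i) (by omega) (by omega)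
  rw [X.inp_getElem?_head x w _ h3, dec_congr (X.xb_iff x i h2)]

theorem cell_init_w (x w : List Bool) (hw : w.length ≤ X.P x) (i u r : ℕ) (hr : r < 3)
    (hi : i + 3 * u + r = 3 * X.P x) (hu : u < w.length) (b : Bool)
    (hb : [true, w[u], false][r]? = some b) :
    cell (X.bs x w X.k₀) ((X.run x w 0).S X.k₀) i = .sym (X.g b) := by
  apply X.cell_init_mid x w hw i (6 * x.length + 1 + (3 * u + r))
  · unfold TData.hi; omega
  · omega
  · rw [X.inp_getElem?_tail x w u r hr, List.getElem?_eq_getElem hu]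
    simp only [Option.bind_some, hb, Option.map_some]

/-! #### steps -/

theorem cell_step (x w : List Bool) (k : K) (t i : ℕ) :
    cell (X.bs x w k) ((X.run x w (t + 1)).S k) (i + 1) =
      upd (X.run x w t).q (X.run x w t).v k (cell (X.bs x w k) ((X.run x w t).S k) i)
        (cell (X.bs x w k) ((X.run x w t).S k) (i + 1))
        (cell (X.bs x w k) ((X.run x w t).S k) (i + 2)) := by
  rw [run_succ]
  exact cell_mstep X.M (X.run x w t) _ k i

theorem ctl_step (x w : List Bool) (t i : ℕ)
    (s : Sy (Γ (rk X.k₀ (X.run x w t).q)))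
    (h0 : s ≠ .blank)
    (h1 : cell (X.bs x w (rk X.k₀ (X.run x w t).q))
      ((X.run x w t).S (rk X.k₀ (X.run x w t).q)) i = s)
    (h2 : cell (X.bs x w (rk X.k₀ (X.run x w t).q))
      ((X.run x w t).S (rk X.k₀ (X.run x w t).q)) (i + 1) = .blank) :
    nextc X.M X.k₀ ((X.run x w t).q, (X.run x w t).v) s =
      ((X.run x w (t + 1)).q, (X.run x w (t + 1)).v) := by
  rw [run_succ]
  apply nextc_eq
  rw [← h1]
  exact cell_top (by rw [h1]; exact h0) h2

theorem length_bound (x w : List Bool) (hw : w.length ≤ X.P x) (k : K) (t : ℕ) :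
    X.bs x w k + ((X.run x w t).S k).length ≤ X.hi x + 1 + t := by
  induction t with
  | zero =>
    rw [run_zero_S]
    by_cases hk : k = X.k₀
    · subst hk
      rw [update_self, bs_k₀, length_inp]
      unfold TData.hi
      omega
    · rw [update_of_ne hk]
      simp only [bs, if_neg hk, List.length_nil]
      unfold TData.hi
      omega
  | succ t ih =>
    have := mstep_length X.M (X.run x w t) k
    rw [run_succ]
    omega

theorem run_Qs (x w : List Bool) (t : ℕ) : (X.run x w t).q ∈ Qs X.M := by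
  induction t with
  | zero => exact main_mem_Qs X.M X.main
  | succ t ih => rw [run_succ]; exact mstep_mem_Qs X.M _ ih

theorem run_sym (x w : List Bool) (t : ℕ) :
    ∀ k, ∀ a ∈ (X.run x w t).S k, a ∈ symSet X.M X.k₀ k := by
  induction t with
  | zero =>
    intro k a ha
    rw [run_zero_S] at ha
    by_cases hk : k = X.k₀
    · exact Or.inl hk
    · rw [update_of_ne hk] at ha
      simp at ha
  | succ t ih => rw [run_succ]; exact mstep_sym X.M X.k₀ _ (X.run_Qs x w t) ih

/-- the cell contents that can occur -/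
def cellSet (k : K) : Set (Sy (Γ k)) :=
  {.blank, .bot} ∪ Sy.sym '' (symSet X.M X.k₀ k)

theorem cellSet_finite [Finite (Γ X.k₀)] (k : K) : (X.cellSet k).Finite := by
  apply Set.Finite.union
  · exact Set.toFinite _
  · exact (symSet_finite X.M X.k₀ k).image _

theorem cell_mem_of_list {k : K} (b : ℕ) (S : List (Γ k)) (i : ℕ)
    (h : ∀ a ∈ S, a ∈ symSet X.M X.k₀ k) : cell b S i ∈ X.cellSet k := by
  by_cases h1 : i < b
  · rw [cell_lt h1]
    exact Or.inl (by simp)
  · by_cases h2 : i < b + S.length
    · rw [cell_mid (by omega) h2]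
      exact Or.inr ⟨_, h _ (List.getElem_mem _), rfl⟩
    · rw [cell_ge (by omega)]
      exact Or.inl (by simp)

theorem cell_mem (x w : List Bool) (t : ℕ) (k : K) (i : ℕ) :
    cell (X.bs x w k) ((X.run x w t).S k) i ∈ X.cellSet k :=
  X.cell_mem_of_list _ _ _ (X.run_sym x w t k)

/-- the facts that can occur -/
def factSet : Set (FK Γ Λ σ) :=
  (Sum.inl '' {c | c.1 ∈ Qs X.M}) ∪ ⋃ k, (fun s => Sum.inr ⟨k, s⟩) '' (X.cellSet k)

theorem factSet_finite [Finite (Γ X.k₀)] : (X.factSet).Finite := by
  apply Set.Finite.union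
  · apply Set.Finite.image
    have : {c : Option (TM2.Stmt Γ Λ σ) × σ | c.1 ∈ Qs X.M} ⊆
        ((Qs X.M : Finset _) ×ˢ (Finset.univ : Finset σ) : Finset _) := by
      intro c hc
      simp only [Finset.coe_product, Finset.coe_univ, Set.mem_prod, Set.mem_univ, and_true]
      exact hc
    exact Set.Finite.subset (Finset.finite_toSet _) this
  · apply Set.finite_iUnion
    intro k
    exact (X.cellSet_finite k).image _

theorem truth_mem (x w : List Bool) (t i : ℕ) (a : FK Γ Λ σ) (h : X.truth x w t i a) :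
    a ∈ X.factSet := by
  rcases a with c | ⟨k, s⟩
  · left
    refine ⟨c, ?_, rfl⟩
    have : c = ((X.run x w t).q, (X.run x w t).v) := h
    rw [this]
    exact X.run_Qs x w t
  · right
    simp only [Set.mem_iUnion]
    refine ⟨k, s, ?_, rfl⟩
    have : cell (X.bs x w k) ((X.run x w t).S k) i = s := h
    rw [← this]
    exact X.cell_mem x w t k i

/-! #### completeness -/

/-- the assignment of a run -/
noncomputable def asg (x w : List Bool) (t i n : ℕ) : Bool :=
  dec (∃ a, X.truth x w t i a ∧ X.code a = n)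

theorem asg_code (hcode : ∀ a ∈ X.factSet, ∀ b, X.code a = X.code b → a = b) (x w : List Bool)
    (t i : ℕ) (a : FK Γ Λ σ) : X.asg x w t i (X.code a) = dec (X.truth x w t i a) := by
  apply dec_congr
  constructor
  · rintro ⟨a', h1, h2⟩
    have := hcode a' (X.truth_mem x w t i a' h1) a h2
    exact this ▸ h1
  · intro h
    exact ⟨a, h, rfl⟩

/-- the literal holds under the assignment `y` at `(t, i)` -/
def _root_.Pool.Agent.Lib57.Lit.holds (l : Lit) (y : ℕ → ℕ → ℕ → Bool) (t i : ℕ) : Prop :=
  y (t + l.dt) (l.pos i) l.code = l.sign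

theorem lC_holds (hcode : ∀ a ∈ X.factSet, ∀ b, X.code a = X.code b → a = b) (x w : List Bool)
    (t i dt : ℕ) (c : Option (TM2.Stmt Γ Λ σ) × σ) (b : Bool) :
    (X.lC dt c b).holds (X.asg x w) t i ↔
      (c = ((X.run x w (t + dt)).q, (X.run x w (t + dt)).v) ↔ b = true) := by
  unfold Lit.holds
  simp only [lC, Lit.pos]
  rw [X.asg_code hcode]
  show dec (c = ((X.run x w (t + dt)).q, (X.run x w (t + dt)).v)) = b ↔ _
  by_cases h : c = ((X.run x w (t + dt)).q, (X.run x w (t + dt)).v)
  · rw [dec_pos h]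
    cases b <;> simp [h]
  · rw [dec_neg h]
    cases b <;> simp [h]

theorem lS_holds (hcode : ∀ a ∈ X.factSet, ∀ b, X.code a = X.code b → a = b) (x w : List Bool)
    (t i dt d : ℕ) (k : K) (s : Sy (Γ k)) (b : Bool) :
    (X.lS dt d k s b).holds (X.asg x w) t i ↔
      (cell (X.bs x w k) ((X.run x w (t + dt)).S k) (i + d) = s ↔ b = true) := by
  unfold Lit.holds
  simp only [lS, Lit.pos]
  rw [X.asg_code hcode]
  show dec (cell (X.bs x w k) ((X.run x w (t + dt)).S k) (i + d) = s) = b ↔ _
  by_cases h : cell (X.bs x w k) ((X.run x w (t + dt)).S k) (i + d) = s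
  · rw [dec_pos h]
    cases b <;> simp [h]
  · rw [dec_neg h]
    cases b <;> simp [h]

theorem mem_of_cell {G : Type} {b : ℕ} {S : List G} {i : ℕ} {a : G}
    (h : cell b S i = .sym a) : a ∈ S := by
  by_cases h1 : i < b
  · rw [cell_lt h1] at h; cases h
  · by_cases h2 : i < b + S.length
    · rw [cell_mid (by omega) h2] at h
      simp only [Sy.sym.injEq] at h
      rw [← h]
      exact List.getElem_mem _
    · rw [cell_ge (by omega)] at h; cases h

theorem witness_cells (x w : List Bool) (hw : w.length ≤ X.P x) (i u : ℕ)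
    (hi : i + 2 + 3 * u = 3 * X.P x) :
    (∃ b, cell (X.bs x w X.k₀) ((X.run x w 0).S X.k₀) (i + 1) = .sym (X.g b) ∧
      cell (X.bs x w X.k₀) ((X.run x w 0).S X.k₀) (i + 2) = .sym (X.g true) ∧
      cell (X.bs x w X.k₀) ((X.run x w 0).S X.k₀) i = .sym (X.g false) ∧ u < w.length) ∨
    (cell (X.bs x w X.k₀) ((X.run x w 0).S X.k₀) (i + 1) = .bot ∧
      cell (X.bs x w X.k₀) ((X.run x w 0).S X.k₀) (i + 2) = .bot ∧
      cell (X.bs x w X.k₀) ((X.run x w 0).S X.k₀) i = .bot ∧ w.length ≤ u) := by
  by_cases hu : u < w.length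
  · left
    refine ⟨w[u], ?_, ?_, ?_, hu⟩
    · exact X.cell_init_w x w hw (i + 1) u 1 (by omega) (by omega) hu _ rfl
    · exact X.cell_init_w x w hw (i + 2) u 0 (by omega) (by omega) hu _ rfl
    · exact X.cell_init_w x w hw i u 2 (by omega) (by omega) hu _ rfl
  · right
    refine ⟨?_, ?_, ?_, by omega⟩
    · exact X.cell_init_bot x w (i + 1) (by omega)
    · exact X.cell_init_bot x w (i + 2) (by omega)
    · exact X.cell_init_bot x w i (by omega)

theorem complete (hcode : ∀ a ∈ X.factSet, ∀ b, X.code a = X.code b → a = b)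
    (x w : List Bool) (hw : w.length ≤ X.P x) (hH : X.hi x + 1 + X.T x < X.H x)
    (hfin : ∀ a ∈ (X.run x w (X.T x - 1)).S X.k₁, a ≠ X.outF) (nm : PName Γ Λ σ X.k₀)
    (t i : ℕ) (ht : t < X.T x) (hg : (X.pat nm).guard x t i) :
    ∃ l ∈ (X.pat nm).lits, l.holds (X.asg x w) t i := by
  cases nm with
  | ctl c s =>
    simp only [pat] at hg ⊢
    simp only [List.mem_cons, List.not_mem_nil, or_false, exists_eq_or_imp, exists_eq_left,
      X.lC_holds hcode, X.lS_holds hcode, Nat.add_zero]
    by_cases hc : c = ((X.run x w t).q, (X.run x w t).v)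
    · subst hc
      by_cases h1 : cell (X.bs x w (rk X.k₀ (X.run x w t).q))
          ((X.run x w t).S (rk X.k₀ (X.run x w t).q)) i = s
      · by_cases h2 : cell (X.bs x w (rk X.k₀ (X.run x w t).q))
            ((X.run x w t).S (rk X.k₀ (X.run x w t).q)) (i + 1) = .blank
        · right; right; right
          have := X.ctl_step x w t i s hg.1 h1 h2
          simp [this]
        · right; right; left
          simp [h2]
      · right; left
        simp [h1]
    · left
      simp [hc]
  | cel c k s₁ s₂ s₃ =>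
    simp only [pat] at hg ⊢
    simp only [List.mem_cons, List.not_mem_nil, or_false, exists_eq_or_imp, exists_eq_left,
      X.lC_holds hcode, X.lS_holds hcode, Nat.add_zero]
    by_cases hc : c = ((X.run x w t).q, (X.run x w t).v)
    · subst hc
      by_cases h1 : cell (X.bs x w k) ((X.run x w t).S k) i = s₁
      · by_cases h2 : cell (X.bs x w k) ((X.run x w t).S k) (i + 1) = s₂
        · by_cases h3 : cell (X.bs x w k) ((X.run x w t).S k) (i + 2) = s₃
          · right; right; right; right
            rw [X.cell_step x w k t i, h1, h2, h3]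
            simp
          · right; right; right; left
            simp [h3]
        · right; right; left
          simp [h2]
      · right; left
        simp [h1]
    · left
      simp [hc]
  | bot k =>
    simp only [pat] at hg ⊢
    simp only [List.mem_cons, List.not_mem_nil, or_false, exists_eq_left, X.lS_holds hcode,
      Nat.add_zero, iff_true]
    rw [hg]
    exact X.cell_zero x w hw k t
  | top k =>
    simp only [pat] at hg ⊢
    simp only [List.mem_cons, List.not_mem_nil, or_false, exists_eq_left, X.lS_holds hcode,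
      Nat.add_zero, iff_true]
    apply cell_ge
    have := X.length_bound x w hw k t
    omega
  | ictl =>
    simp only [pat] at hg ⊢
    simp only [List.mem_cons, List.not_mem_nil, or_false, exists_eq_left, X.lC_holds hcode,
      Nat.add_zero, iff_true]
    rw [hg]
    rfl
  | ioth k =>
    simp only [pat] at hg ⊢
    simp only [List.mem_cons, List.not_mem_nil, or_false, exists_eq_left, X.lS_holds hcode,
      Nat.add_zero, iff_true]
    rw [hg.1]
    exact X.cell_init_other x w hg.2.2 i hg.2.1
  | iabove =>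
    simp only [pat] at hg ⊢
    simp only [List.mem_cons, List.not_mem_nil, or_false, exists_eq_left, X.lS_holds hcode,
      Nat.add_zero, iff_true]
    rw [hg.1]
    exact X.cell_init_above x w hw i hg.2
  | ix b =>
    simp only [pat] at hg ⊢
    simp only [List.mem_cons, List.not_mem_nil, or_false, exists_eq_left, X.lS_holds hcode,
      Nat.add_zero, iff_true]
    rw [hg.1, X.cell_init_x x w hw i hg.2.1 hg.2.2.1]
    congr 2
    have := hg.2.2.2
    cases b with
    | true => exact dec_pos (this.2 rfl)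
    | false => exact dec_neg (fun h => by have := this.1 h; cases this)
  | w1 =>
    simp only [pat] at hg ⊢
    simp only [List.mem_cons, List.not_mem_nil, or_false, exists_eq_or_imp, exists_eq_left,
      X.lS_holds hcode, Nat.add_zero, iff_true]
    obtain ⟨rfl, u, hu, hiu⟩ := hg
    rcases X.witness_cells x w hw i u hiu with ⟨b, h1, _⟩ | ⟨h1, _⟩
    · rw [h1]
      cases b <;> simp
    · rw [h1]
      simp
  | w2 b =>
    simp only [pat] at hg ⊢
    simp only [List.mem_cons, List.not_mem_nil, or_false, exists_eq_or_imp, exists_eq_left,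
      X.lS_holds hcode, Nat.add_zero, iff_true]
    obtain ⟨rfl, u, hu, hiu⟩ := hg
    rcases X.witness_cells x w hw i u hiu with ⟨b', h1, h2, h3, _⟩ | ⟨h1, _⟩
    · right; exact h2
    · rw [h1]
      simp
  | w3 b =>
    simp only [pat] at hg ⊢
    simp only [List.mem_cons, List.not_mem_nil, or_false, exists_eq_or_imp, exists_eq_left,
      X.lS_holds hcode, Nat.add_zero, iff_true]
    obtain ⟨rfl, u, hu, hiu⟩ := hg
    rcases X.witness_cells x w hw i u hiu with ⟨b', h1, h2, h3, _⟩ | ⟨h1, _⟩
    · right; exact h3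
    · rw [h1]
      simp
  | w4 =>
    simp only [pat] at hg ⊢
    simp only [List.mem_cons, List.not_mem_nil, or_false, exists_eq_or_imp, exists_eq_left,
      X.lS_holds hcode, Nat.add_zero, iff_true]
    obtain ⟨rfl, u, hu, hiu⟩ := hg
    rcases X.witness_cells x w hw i u hiu with ⟨b', h1, h2, h3, _⟩ | ⟨h1, h2, h3, _⟩
    · left; rw [h1]; simp
    · right; exact h2
  | w5 =>
    simp only [pat] at hg ⊢
    simp only [List.mem_cons, List.not_mem_nil, or_false, exists_eq_or_imp, exists_eq_left,
      X.lS_holds hcode, Nat.add_zero, iff_true]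
    obtain ⟨rfl, u, hu, hiu⟩ := hg
    rcases X.witness_cells x w hw i u hiu with ⟨b', h1, h2, h3, _⟩ | ⟨h1, h2, h3, _⟩
    · left; rw [h1]; simp
    · right; exact h3
  | w6 =>
    simp only [pat] at hg ⊢
    simp only [List.mem_cons, List.not_mem_nil, or_false, exists_eq_or_imp, exists_eq_left,
      X.lS_holds hcode, Nat.add_zero, iff_true]
    obtain ⟨rfl, ⟨u, hu, hiu⟩, ⟨u', hu', hiu'⟩⟩ := hg
    rcases X.witness_cells x w hw (i + 3) u' hiu' with ⟨b', h1, h2, h3, _⟩ | ⟨h1, h2, h3, h4⟩
    · left; rw [show i + 4 = i + 3 + 1 by omega, h1]; simp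
    · right
      rcases X.witness_cells x w hw i u hiu with ⟨b', h1, h2, h3, h5⟩ | ⟨h1, h2, h3, _⟩
      · omega
      · exact h1
  | fin =>
    simp only [pat] at hg ⊢
    simp only [List.mem_cons, List.not_mem_nil, or_false, exists_eq_left, X.lS_holds hcode,
      Nat.add_zero]
    have ht' : t = X.T x - 1 := by omega
    subst ht'
    have : ¬ cell (X.bs x w X.k₁) ((X.run x w (X.T x - 1)).S X.k₁) i = .sym X.outF := by
      intro h
      exact hfin _ (mem_of_cell h) rfl
    simp [this]

/-! #### soundness -/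

/-- the relevant patterns -/
def Rel : PName Γ Λ σ X.k₀ → Prop
  | .ctl c s => c.1 ∈ Qs X.M ∧ s ∈ X.cellSet (rk X.k₀ c.1)
  | .cel c k s₁ s₂ s₃ => c.1 ∈ Qs X.M ∧ s₁ ∈ X.cellSet k ∧ s₂ ∈ X.cellSet k ∧ s₃ ∈ X.cellSet k
  | _ => True

theorem exists_cell {G : Type} {b : ℕ} {S : List G} {a : G} (h : a ∈ S) :
    ∃ i < b + S.length, cell b S i = .sym a := by
  obtain ⟨j, hj, rfl⟩ := List.getElem_of_mem h
  refine ⟨b + S.length - 1 - j, by omega, ?_⟩
  rw [cell_mid (by omega) (by omega)]
  congr 2
  omega

theorem bs_pos (x w : List Bool) (hw : w.length ≤ X.P x) (k : K) : 1 ≤ X.bs x w k := by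
  unfold bs
  split_ifs <;> omega

theorem sound_init (x : List Bool) (y : ℕ → ℕ → ℕ → Bool) (hT : 1 ≤ X.T x)
    (hH : X.hi x + 1 + X.T x < X.H x)
    (hall : ∀ nm, X.Rel nm → ∀ t < X.T x, ∀ i < X.H x, (X.pat nm).guard x t i →
      ∃ l ∈ (X.pat nm).lits, l.holds y t i) :
    ∃ w : List Bool, w.length ≤ X.P x ∧ ∀ k, ∀ i < X.H x,
      y 0 i (X.code (.inr ⟨k, cell (X.bs x w k) ((X.run x w 0).S k) i⟩)) = true := by
  classical
  -- the length of the witness
  let q : ℕ → Prop := fun u => u = X.P x ∨
    (u < X.P x ∧ y 0 (3 * X.P x - 3 * u - 1) (X.code (.inr ⟨X.k₀, .bot⟩)) = true)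
  have hq : ∃ u, q u := ⟨X.P x, Or.inl rfl⟩
  set N := Nat.find hq with hN
  have hNspec : q N := Nat.find_spec hq
  have hNle : N ≤ X.P x := Nat.find_min' hq (Or.inl rfl)
  have hNmin : ∀ u < N, y 0 (3 * X.P x - 3 * u - 1) (X.code (.inr ⟨X.k₀, .bot⟩)) ≠ true := by
    intro u hu h
    exact Nat.find_min hq hu (Or.inr ⟨by omega, h⟩)
  have hPH : 3 * X.P x + 1 < X.H x := by unfold TData.hi at hH; omega
  -- cells below the witness
  have hbot : ∀ d, N + d < X.P x →
      y 0 (3 * X.P x - 3 * (N + d) - 1) (X.code (.inr ⟨X.k₀, .bot⟩)) = true := by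
    intro d
    induction d with
    | zero =>
      intro hd
      rcases hNspec with h | h
      · omega
      · exact h.2
    | succ d ih =>
      intro hd
      have ih' := ih (by omega)
      obtain ⟨l, hl, hl'⟩ := hall .w6 trivial 0 (by omega) (3 * X.P x - 3 * (N + (d + 1)) - 2)
        (by omega) ⟨rfl, ⟨N + (d + 1), hd, by omega⟩, ⟨N + d, by omega, by omega⟩⟩
      simp only [pat, List.mem_cons, List.not_mem_nil, or_false] at hl
      rcases hl with rfl | rfl
      · simp only [Lit.holds, lS, Lit.pos] at hl'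
        rw [show 3 * X.P x - 3 * (N + (d + 1)) - 2 + 4 = 3 * X.P x - 3 * (N + d) - 1 by omega]
          at hl'
        rw [Nat.add_zero] at hl'
        rw [ih'] at hl'
        cases hl'
      · simp only [Lit.holds, lS, Lit.pos] at hl'
        rw [show 3 * X.P x - 3 * (N + (d + 1)) - 2 + 1 = 3 * X.P x - 3 * (N + (d + 1)) - 1 by
          omega] at hl'
        exact hl'
  let bit : ℕ → Bool := fun u => y 0 (3 * X.P x - 3 * u - 1)
    (X.code (.inr ⟨X.k₀, .sym (X.g true)⟩))
  have hbit' : ∀ u < N, y 0 (3 * X.P x - 3 * u - 1)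
      (X.code (.inr ⟨X.k₀, .sym (X.g (bit u))⟩)) = true := by
    intro u hu
    cases hb : bit u with
    | true => exact hb
    | false =>
      obtain ⟨l, hl, hl'⟩ := hall .w1 trivial 0 (by omega) (3 * X.P x - 3 * u - 2)
        (by omega) ⟨rfl, ⟨u, by omega, by omega⟩⟩
      simp only [pat, List.mem_cons, List.not_mem_nil, or_false] at hl
      have e : 3 * X.P x - 3 * u - 2 + 1 = 3 * X.P x - 3 * u - 1 := by omega
      rcases hl with rfl | rfl | rfl
      · simp only [Lit.holds, lS, Lit.pos, e] at hl'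
        exact hl'
      · simp only [Lit.holds, lS, Lit.pos, e] at hl'
        have : bit u = true := hl'
        rw [hb] at this
        cases this
      · simp only [Lit.holds, lS, Lit.pos, e] at hl'
        exact absurd hl' (hNmin u hu)
  set w : List Bool := (List.range N).map bit with hw
  have hwlen : w.length = N := by simp [hw]
  have hwu : ∀ u (hu : u < w.length), w[u] = bit u := by
    intro u hu
    simp [hw]
  refine ⟨w, by omega, ?_⟩
  have hwP : w.length ≤ X.P x := by omega
  intro k i hi
  by_cases hk : k = X.k₀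
  · subst hk
    by_cases hi0 : i = 0
    · subst hi0
      rw [X.cell_zero x w hwP]
      obtain ⟨l, hl, hl'⟩ := hall (.bot X.k₀) trivial 0 (by omega) 0 (by omega) rfl
      simp only [pat, List.mem_cons, List.not_mem_nil, or_false] at hl
      subst hl
      exact hl'
    · by_cases hiw : i ≤ 3 * X.P x
      · -- witness region
        obtain ⟨u, r, hr, hur⟩ : ∃ u r, r < 3 ∧ i + 3 * u + r = 3 * X.P x :=
          ⟨(3 * X.P x - i) / 3, (3 * X.P x - i) % 3, Nat.mod_lt _ (by norm_num), by
            have := Nat.div_add_mod (3 * X.P x - i) 3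
            omega⟩
        have huP : u < X.P x := by omega
        have hWg : X.W x (3 * X.P x - 3 * u - 2) := ⟨u, huP, by omega⟩
        by_cases hu : u < w.length
        · have hmid := hbit' u (by omega)
          have hlow : 3 * X.P x - 3 * u - 2 + 1 = 3 * X.P x - 3 * u - 1 := by omega
          interval_cases r
          · rw [X.cell_init_w x w hwP i u 0 (by omega) (by omega) hu true rfl]
            obtain ⟨l, hl, hl'⟩ := hall (.w2 (bit u)) trivial 0 (by omega)
              (3 * X.P x - 3 * u - 2) (by omega) ⟨rfl, hWg⟩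
            simp only [pat, List.mem_cons, List.not_mem_nil, or_false] at hl
            rcases hl with rfl | rfl
            · simp only [Lit.holds, lS, Lit.pos, hlow, Nat.add_zero] at hl'
              rw [hmid] at hl'
              cases hl'
            · simp only [Lit.holds, lS, Lit.pos, Nat.add_zero] at hl'
              rw [show 3 * X.P x - 3 * u - 2 + 2 = i by omega] at hl'
              exact hl'
          · rw [X.cell_init_w x w hwP i u 1 (by omega) (by omega) hu (bit u)
              (by rw [hwu u hu]; rfl)]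
            rw [show i = 3 * X.P x - 3 * u - 1 by omega]
            exact hmid
          · rw [X.cell_init_w x w hwP i u 2 (by omega) (by omega) hu false rfl]
            obtain ⟨l, hl, hl'⟩ := hall (.w3 (bit u)) trivial 0 (by omega)
              (3 * X.P x - 3 * u - 2) (by omega) ⟨rfl, hWg⟩
            simp only [pat, List.mem_cons, List.not_mem_nil, or_false] at hl
            rcases hl with rfl | rfl
            · simp only [Lit.holds, lS, Lit.pos, hlow, Nat.add_zero] at hl'
              rw [hmid] at hl'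
              cases hl'
            · simp only [Lit.holds, lS, Lit.pos, Nat.add_zero] at hl'
              rw [show 3 * X.P x - 3 * u - 2 = i by omega] at hl'
              exact hl'
        · have hmid := hbot (u - N) (by omega)
          rw [show N + (u - N) = u by omega] at hmid
          have hlow : 3 * X.P x - 3 * u - 2 + 1 = 3 * X.P x - 3 * u - 1 := by omega
          rw [X.cell_init_bot x w i (by omega)]
          interval_cases r
          · obtain ⟨l, hl, hl'⟩ := hall .w4 trivial 0 (by omega)
              (3 * X.P x - 3 * u - 2) (by omega) ⟨rfl, hWg⟩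
            simp only [pat, List.mem_cons, List.not_mem_nil, or_false] at hl
            rcases hl with rfl | rfl
            · simp only [Lit.holds, lS, Lit.pos, hlow, Nat.add_zero] at hl'
              rw [hmid] at hl'
              cases hl'
            · simp only [Lit.holds, lS, Lit.pos, Nat.add_zero] at hl'
              rw [show 3 * X.P x - 3 * u - 2 + 2 = i by omega] at hl'
              exact hl'
          · rw [show i = 3 * X.P x - 3 * u - 1 by omega]
            exact hmid
          · obtain ⟨l, hl, hl'⟩ := hall .w5 trivial 0 (by omega)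
              (3 * X.P x - 3 * u - 2) (by omega) ⟨rfl, hWg⟩
            simp only [pat, List.mem_cons, List.not_mem_nil, or_false] at hl
            rcases hl with rfl | rfl
            · simp only [Lit.holds, lS, Lit.pos, hlow, Nat.add_zero] at hl'
              rw [hmid] at hl'
              cases hl'
            · simp only [Lit.holds, lS, Lit.pos, Nat.add_zero] at hl'
              rw [show 3 * X.P x - 3 * u - 2 = i by omega] at hl'
              exact hl'
      · by_cases hix : i ≤ X.hi x
        · rw [X.cell_init_x x w hwP i (by omega) hix]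
          obtain ⟨l, hl, hl'⟩ := hall (.ix (dec (X.xb x i))) trivial 0 (by omega) i hi
            ⟨rfl, by omega, hix, by
              by_cases hxb : X.xb x i
              · simp [hxb, dec_pos]
              · simp [hxb, dec_neg]⟩
          simp only [pat, List.mem_cons, List.not_mem_nil, or_false] at hl
          subst hl
          exact hl'
        · rw [X.cell_init_above x w hwP i (by omega)]
          obtain ⟨l, hl, hl'⟩ := hall .iabove trivial 0 (by omega) i hi ⟨rfl, by omega⟩
          simp only [pat, List.mem_cons, List.not_mem_nil, or_false] at hl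
          subst hl
          exact hl'
  · by_cases hi0 : i = 0
    · subst hi0
      rw [X.cell_zero x w hwP]
      obtain ⟨l, hl, hl'⟩ := hall (.bot k) trivial 0 (by omega) 0 (by omega) rfl
      simp only [pat, List.mem_cons, List.not_mem_nil, or_false] at hl
      subst hl
      exact hl'
    · rw [X.cell_init_other x w hk i (by omega)]
      obtain ⟨l, hl, hl'⟩ := hall (.ioth k) trivial 0 (by omega) i hi ⟨rfl, by omega, hk⟩
      simp only [pat, List.mem_cons, List.not_mem_nil, or_false] at hl
      subst hl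
      exact hl'

theorem sound_run (x : List Bool) (y : ℕ → ℕ → ℕ → Bool)
    (hH : X.hi x + 1 + X.T x < X.H x)
    (hall : ∀ nm, X.Rel nm → ∀ t < X.T x, ∀ i < X.H x, (X.pat nm).guard x t i →
      ∃ l ∈ (X.pat nm).lits, l.holds y t i)
    (w : List Bool) (hw : w.length ≤ X.P x)
    (hinit : ∀ k, ∀ i < X.H x,
      y 0 i (X.code (.inr ⟨k, cell (X.bs x w k) ((X.run x w 0).S k) i⟩)) = true) (t : ℕ) :
    t < X.T x → y t 0 (X.code (.inl ((X.run x w t).q, (X.run x w t).v))) = true ∧
      ∀ k, ∀ i < X.H x,
        y t i (X.code (.inr ⟨k, cell (X.bs x w k) ((X.run x w t).S k) i⟩)) = true := by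
  induction t with
  | zero =>
    intro hT
    refine ⟨?_, hinit⟩
    obtain ⟨l, hl, hl'⟩ := hall .ictl trivial 0 hT 0 (by omega) rfl
    simp only [pat, List.mem_cons, List.not_mem_nil, or_false] at hl
    subst hl
    exact hl'
  | succ t ih =>
    intro hT
    obtain ⟨ihc, ihs⟩ := ih (by omega)
    constructor
    · -- control
      let k := rk X.k₀ (X.run x w t).q
      have hlen := X.length_bound x w hw k t
      have hb := X.bs_pos x w hw k
      let i := X.bs x w k + ((X.run x w t).S k).length - 1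
      have h1 : cell (X.bs x w k) ((X.run x w t).S k) i ≠ .blank := by
        rw [Ne, cell_blank_iff]
        omega
      have h2 : cell (X.bs x w k) ((X.run x w t).S k) (i + 1) = .blank := by
        rw [cell_blank_iff]
        omega
      have hiH : i + 1 < X.H x := by omega
      obtain ⟨l, hl, hl'⟩ := hall (.ctl ((X.run x w t).q, (X.run x w t).v)
        (cell (X.bs x w k) ((X.run x w t).S k) i)) ⟨X.run_Qs x w t, X.cell_mem x w t k i⟩
        t (by omega) i (by omega) ⟨h1, hT, hiH⟩
      simp only [pat, List.mem_cons, List.not_mem_nil, or_false] at hl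
      rcases hl with rfl | rfl | rfl | rfl
      · simp only [Lit.holds, lC, Lit.pos, Nat.add_zero] at hl'
        rw [ihc] at hl'
        cases hl'
      · simp only [Lit.holds, lS, Lit.pos, Nat.add_zero] at hl'
        rw [ihs k i (by omega)] at hl'
        cases hl'
      · simp only [Lit.holds, lS, Lit.pos, Nat.add_zero] at hl'
        have := ihs k (i + 1) hiH
        rw [h2] at this
        rw [this] at hl'
        cases hl'
      · simp only [Lit.holds, lC, Lit.pos] at hl'
        rw [X.ctl_step x w t i _ h1 rfl h2] at hl'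
        exact hl'
    · intro k i hi
      rcases Nat.eq_zero_or_pos i with rfl | hi0
      · rw [X.cell_zero x w hw]
        obtain ⟨l, hl, hl'⟩ := hall (.bot k) trivial (t + 1) hT 0 hi rfl
        simp only [pat, List.mem_cons, List.not_mem_nil, or_false] at hl
        subst hl
        exact hl'
      · by_cases hi2 : i + 1 < X.H x
        · obtain ⟨j, rfl⟩ : ∃ j, i = j + 1 := ⟨i - 1, by omega⟩
          obtain ⟨l, hl, hl'⟩ := hall (.cel ((X.run x w t).q, (X.run x w t).v) k
            (cell (X.bs x w k) ((X.run x w t).S k) j)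
            (cell (X.bs x w k) ((X.run x w t).S k) (j + 1))
            (cell (X.bs x w k) ((X.run x w t).S k) (j + 2)))
            ⟨X.run_Qs x w t, X.cell_mem x w t k _, X.cell_mem x w t k _, X.cell_mem x w t k _⟩
            t (by omega) j (by omega) ⟨hT, by omega⟩
          simp only [pat, List.mem_cons, List.not_mem_nil, or_false] at hl
          rcases hl with rfl | rfl | rfl | rfl | rfl
          · simp only [Lit.holds, lC, Lit.pos, Nat.add_zero] at hl'
            rw [ihc] at hl'
            cases hl'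
          · simp only [Lit.holds, lS, Lit.pos, Nat.add_zero] at hl'
            rw [ihs k j (by omega)] at hl'
            cases hl'
          · simp only [Lit.holds, lS, Lit.pos, Nat.add_zero] at hl'
            rw [ihs k (j + 1) (by omega)] at hl'
            cases hl'
          · simp only [Lit.holds, lS, Lit.pos, Nat.add_zero] at hl'
            rw [ihs k (j + 2) (by omega)] at hl'
            cases hl'
          · simp only [Lit.holds, lS, Lit.pos] at hl'
            rw [X.cell_step x w k t j]
            exact hl'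
        · have : cell (X.bs x w k) ((X.run x w (t + 1)).S k) i = .blank := by
            apply cell_ge
            have := X.length_bound x w hw k (t + 1)
            omega
          rw [this]
          obtain ⟨l, hl, hl'⟩ := hall (.top k) trivial (t + 1) hT i hi (by
            show i + 1 = X.H x
            omega)
          simp only [pat, List.mem_cons, List.not_mem_nil, or_false] at hl
          subst hl
          exact hl'

theorem sound (x : List Bool) (y : ℕ → ℕ → ℕ → Bool) (hT : 1 ≤ X.T x)
    (hH : X.hi x + 1 + X.T x < X.H x)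
    (hall : ∀ nm, X.Rel nm → ∀ t < X.T x, ∀ i < X.H x, (X.pat nm).guard x t i →
      ∃ l ∈ (X.pat nm).lits, l.holds y t i) :
    ∃ w : List Bool, w.length ≤ X.P x ∧
      ∀ a ∈ (X.run x w (X.T x - 1)).S X.k₁, a ≠ X.outF := by
  obtain ⟨w, hw, hinit⟩ := X.sound_init x y hT hH hall
  refine ⟨w, hw, ?_⟩
  rintro a ha rfl
  have h1 := (X.sound_run x y hH hall w hw hinit (X.T x - 1) (by omega)).2
  obtain ⟨i, hi, hcell⟩ := exists_cell (b := X.bs x w X.k₁) ha
  have hlen := X.length_bound x w hw X.k₁ (X.T x - 1)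
  have h2 := h1 X.k₁ i (by omega)
  obtain ⟨l, hl, hl'⟩ := hall .fin trivial (X.T x - 1) (by omega) i (by omega) (by
    show X.T x - 1 + 1 = X.T x
    omega)
  simp only [pat, List.mem_cons, List.not_mem_nil, or_false] at hl
  subst hl
  simp only [Lit.holds, lS, Lit.pos, Nat.add_zero] at hl'
  rw [hcell] at h2
  rw [h2] at hl'
  cases hl'

/-! #### the list of patterns -/

theorem rel_finite [Finite (Γ X.k₀)] : {nm : PName Γ Λ σ X.k₀ | X.Rel nm}.Finite := by
  classical
  have hctl : {c : Option (TM2.Stmt Γ Λ σ) × σ | c.1 ∈ Qs X.M}.Finite := by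
    have : {c : Option (TM2.Stmt Γ Λ σ) × σ | c.1 ∈ Qs X.M} ⊆
        ((Qs X.M : Finset _) ×ˢ (Finset.univ : Finset σ) : Finset _) := by
      intro c hc
      simp only [Finset.coe_product, Finset.coe_univ, Set.mem_prod, Set.mem_univ, and_true]
      exact hc
    exact Set.Finite.subset (Finset.finite_toSet _) this
  have h1 : (⋃ c ∈ {c : Option (TM2.Stmt Γ Λ σ) × σ | c.1 ∈ Qs X.M},
      (fun s => (PName.ctl c s : PName Γ Λ σ X.k₀)) '' X.cellSet (rk X.k₀ c.1)).Finite :=
    hctl.biUnion fun c _ => (X.cellSet_finite _).image _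
  have h2 : (⋃ c ∈ {c : Option (TM2.Stmt Γ Λ σ) × σ | c.1 ∈ Qs X.M}, ⋃ k : K,
      (fun s : Sy (Γ k) × Sy (Γ k) × Sy (Γ k) =>
        (PName.cel c k s.1 s.2.1 s.2.2 : PName Γ Λ σ X.k₀)) ''
          (X.cellSet k ×ˢ (X.cellSet k ×ˢ X.cellSet k))).Finite :=
    hctl.biUnion fun c _ => Set.finite_iUnion fun k =>
      ((X.cellSet_finite k).prod ((X.cellSet_finite k).prod (X.cellSet_finite k))).image _
  have h3 : (⋃ k : K, ({PName.bot k, PName.top k, PName.ioth k} :
      Set (PName Γ Λ σ X.k₀))).Finite := Set.finite_iUnion fun k => Set.toFinite _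
  have h4 : (⋃ b : Bool, ({PName.ix b, PName.w2 b, PName.w3 b} :
      Set (PName Γ Λ σ X.k₀))).Finite := Set.finite_iUnion fun k => Set.toFinite _
  have h5 : ({PName.ictl, PName.iabove, PName.w1, PName.w4, PName.w5, PName.w6, PName.fin} :
      Set (PName Γ Λ σ X.k₀)).Finite := Set.toFinite _
  refine Set.Finite.subset ((((h1.union h2).union h3).union h4).union h5) ?_
  intro nm hnm
  cases nm with
  | ctl c s =>
    left; left; left; left
    simp only [Set.mem_iUnion]
    exact ⟨c, hnm.1, s, hnm.2, rfl⟩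
  | cel c k s₁ s₂ s₃ =>
    left; left; left; right
    simp only [Set.mem_iUnion]
    exact ⟨c, hnm.1, k, (s₁, s₂, s₃), ⟨hnm.2.1, hnm.2.2.1, hnm.2.2.2⟩, rfl⟩
  | bot k => left; left; right; simp
  | top k => left; left; right; simp
  | ioth k => left; left; right; simp
  | ix b => left; right; simp
  | w2 b => left; right; simp
  | w3 b => left; right; simp
  | ictl => right; simp
  | iabove => right; simp
  | w1 => right; simp
  | w4 => right; simp
  | w5 => right; simp
  | w6 => right; simp
  | fin => right; simp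

/-! #### definability -/

theorem guard_form (hP : IsTerm 0 fun x _ => X.P x) (hT : IsTerm 0 fun x _ => X.T x)
    (hH : IsTerm 0 fun x _ => X.H x) (nm : PName Γ Λ σ X.k₀) :
    IsForm 2 (fun x e => (X.pat nm).guard x (e 0) (e 1)) := by
  have hP2 := hP.weaken (k' := 2) (by omega)
  have hT2 := hT.weaken (k' := 2) (by omega)
  have hH2 := hH.weaken (k' := 2) (by omega)
  have v0 : IsTerm 2 (fun _ e => e 0) := IsTerm.var (by omega)
  have v1 : IsTerm 2 (fun _ e => e 1) := IsTerm.var (by omega)
  have c (n : ℕ) : IsTerm 2 (fun _ _ => n) := IsTerm.const 2 n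
  have hhi : IsTerm 2 (fun x _ => X.hi x) :=
    (((c 3).mul hP2).add ((c 6).mul (IsTerm.len 2))).add (c 1)
  have t0 : IsForm 2 (fun _ e => e 0 = 0) := IsForm.eq v0 (c 0)
  -- the form of `W`
  have hW : ∀ d : ℕ, IsForm 2 (fun x e => X.W x (e 1 + d)) := by
    intro d
    have h3 : IsForm 3 (fun x e => e 1 + d + 2 + 3 * e 2 = 3 * X.P x) :=
      IsForm.eq ((((IsTerm.var (by omega)).add (IsTerm.const 3 d)).add (IsTerm.const 3 2)).add
        ((IsTerm.const 3 3).mul (IsTerm.var (by omega))))
        ((IsTerm.const 3 3).mul (hP.weaken (by omega)))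
    refine (IsForm.ex hP2 h3).congr fun x e => ?_
    simp [W]
  have hxb : IsForm 2 (fun x e => X.xb x (e 1)) := by
    have w1 : IsTerm 3 (fun _ e => e 1) := IsTerm.var (by omega)
    have w2 : IsTerm 3 (fun _ e => e 2) := IsTerm.var (by omega)
    have hhi3 := hhi.weaken (k' := 3) (by omega)
    have lin : ∀ d : ℕ, IsForm 3 (fun x e => X.hi x = e 1 + 6 * e 2 + d) := fun d =>
      IsForm.eq hhi3 ((w1.add ((IsTerm.const 3 6).mul w2)).add (IsTerm.const 3 d))
    have h3 : IsForm 3 (fun x e => X.hi x = e 1 + 6 * e 2 + 0 ∨ X.hi x = e 1 + 6 * e 2 + 1 ∨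
        X.hi x = e 1 + 6 * e 2 + 2 ∨ X.hi x = e 1 + 6 * e 2 + 4 ∨
        (X.hi x = e 1 + 6 * e 2 + 3 ∧ x[e 2]? = some true)) :=
      (lin 0).or ((lin 1).or ((lin 2).or ((lin 4).or ((lin 3).and (IsForm.bit w2)))))
    refine (IsForm.ex (IsTerm.len 2) h3).congr fun x e => ?_
    simp [xb]
  have hprop : ∀ p : Prop, IsForm 2 (fun _ _ => p) := by
    intro p
    by_cases h : p
    · exact (IsForm.true 2).congr fun _ _ => by simp [h]
    · exact (IsForm.false 2).congr fun _ _ => by simp [h]
  cases nm with
  | ctl c' s =>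
    exact (hprop _).and ((IsForm.lt (v0.add (c 1)) hT2).and (IsForm.lt (v1.add (c 1)) hH2))
  | cel c' k s₁ s₂ s₃ =>
    exact (IsForm.lt (v0.add (c 1)) hT2).and (IsForm.lt (v1.add (c 2)) hH2)
  | bot k => exact IsForm.eq v1 (c 0)
  | top k => exact IsForm.eq (v1.add (c 1)) hH2
  | ictl => exact t0
  | ioth k => exact t0.and ((IsForm.le (c 1) v1).and (hprop _))
  | iabove => exact t0.and (IsForm.lt hhi v1)
  | ix b =>
    refine t0.and ((IsForm.lt ((c 3).mul hP2) v1).and ((IsForm.le v1 hhi).and ?_))
    cases b with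
    | true => exact hxb.congr fun x e => by simp
    | false => exact hxb.not.congr fun x e => by simp
  | w1 => exact t0.and ((hW 0).congr fun x e => by simp)
  | w2 b => exact t0.and ((hW 0).congr fun x e => by simp)
  | w3 b => exact t0.and ((hW 0).congr fun x e => by simp)
  | w4 => exact t0.and ((hW 0).congr fun x e => by simp)
  | w5 => exact t0.and ((hW 0).congr fun x e => by simp)
  | w6 => exact t0.and (((hW 0).congr fun x e => by simp).and (hW 3))
  | fin => exact IsForm.eq (v0.add (c 1)) hT2

theorem pat_width (nm : PName Γ Λ σ X.k₀) : (X.pat nm).lits.length ≤ 5 := by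
  cases nm <;> simp [pat]

theorem pat_range (A : ℕ) (hA : ∀ a, X.code a < A) (x : List Bool)
    (hH : X.hi x + 1 + X.T x < X.H x) (nm : PName Γ Λ σ X.k₀) (t i : ℕ) (ht : t < X.T x)
    (hi : i < X.H x) (hg : (X.pat nm).guard x t i) :
    ∀ l ∈ (X.pat nm).lits, t + l.dt < X.T x ∧ l.pos i < X.H x ∧ l.code < A := by
  have hPH : 3 * X.P x + 1 < X.H x := by unfold TData.hi at hH; omega
  intro l hl
  cases nm with
  | ctl c' s =>
    simp only [pat, List.mem_cons, List.not_mem_nil, or_false] at hl hg
    rcases hl with rfl | rfl | rfl | rfl <;> simp only [lC, lS, Lit.pos] <;>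
      refine ⟨by omega, by omega, hA _⟩
  | cel c' k s₁ s₂ s₃ =>
    simp only [pat, List.mem_cons, List.not_mem_nil, or_false] at hl hg
    rcases hl with rfl | rfl | rfl | rfl | rfl <;> simp only [lC, lS, Lit.pos] <;>
      refine ⟨by omega, by omega, hA _⟩
  | bot k =>
    simp only [pat, List.mem_cons, List.not_mem_nil, or_false] at hl hg
    subst hl
    exact ⟨by simpa [lS] using ht, by simpa [lS, Lit.pos] using hi, hA _⟩
  | top k =>
    simp only [pat, List.mem_cons, List.not_mem_nil, or_false] at hl hg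
    subst hl
    exact ⟨by simpa [lS] using ht, by simpa [lS, Lit.pos] using hi, hA _⟩
  | ictl =>
    simp only [pat, List.mem_cons, List.not_mem_nil, or_false] at hl hg
    subst hl
    exact ⟨by simpa [lC] using ht, by simp only [lC, Lit.pos]; omega, hA _⟩
  | ioth k =>
    simp only [pat, List.mem_cons, List.not_mem_nil, or_false] at hl hg
    subst hl
    exact ⟨by simpa [lS] using ht, by simpa [lS, Lit.pos] using hi, hA _⟩
  | iabove =>
    simp only [pat, List.mem_cons, List.not_mem_nil, or_false] at hl hg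
    subst hl
    exact ⟨by simpa [lS] using ht, by simpa [lS, Lit.pos] using hi, hA _⟩
  | ix b =>
    simp only [pat, List.mem_cons, List.not_mem_nil, or_false] at hl hg
    subst hl
    exact ⟨by simpa [lS] using ht, by simpa [lS, Lit.pos] using hi, hA _⟩
  | w1 =>
    simp only [pat, List.mem_cons, List.not_mem_nil, or_false] at hl hg
    obtain ⟨_, u, hu, hiu⟩ := hg
    rcases hl with rfl | rfl | rfl <;> simp only [lC, lS, Lit.pos] <;>
      refine ⟨by omega, by omega, hA _⟩
  | w2 b =>
    simp only [pat, List.mem_cons, List.not_mem_nil, or_false] at hl hg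
    obtain ⟨_, u, hu, hiu⟩ := hg
    rcases hl with rfl | rfl <;> simp only [lC, lS, Lit.pos] <;>
      refine ⟨by omega, by omega, hA _⟩
  | w3 b =>
    simp only [pat, List.mem_cons, List.not_mem_nil, or_false] at hl hg
    obtain ⟨_, u, hu, hiu⟩ := hg
    rcases hl with rfl | rfl <;> simp only [lC, lS, Lit.pos] <;>
      refine ⟨by omega, by omega, hA _⟩
  | w4 =>
    simp only [pat, List.mem_cons, List.not_mem_nil, or_false] at hl hg
    obtain ⟨_, u, hu, hiu⟩ := hg
    rcases hl with rfl | rfl <;> simp only [lC, lS, Lit.pos] <;>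
      refine ⟨by omega, by omega, hA _⟩
  | w5 =>
    simp only [pat, List.mem_cons, List.not_mem_nil, or_false] at hl hg
    obtain ⟨_, u, hu, hiu⟩ := hg
    rcases hl with rfl | rfl <;> simp only [lC, lS, Lit.pos] <;>
      refine ⟨by omega, by omega, hA _⟩
  | w6 =>
    simp only [pat, List.mem_cons, List.not_mem_nil, or_false] at hl hg
    obtain ⟨_, ⟨u, hu, hiu⟩, ⟨u', hu', hiu'⟩⟩ := hg
    rcases hl with rfl | rfl <;> simp only [lC, lS, Lit.pos] <;>
      refine ⟨by omega, by omega, hA _⟩
  | fin =>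
    simp only [pat, List.mem_cons, List.not_mem_nil, or_false] at hl hg
    subst hl
    exact ⟨by simpa [lS] using ht, by simpa [lS, Lit.pos] using hi, hA _⟩

/-- The tableau theorem: acceptance by a witnessed run is expressed by a definable CNF of
width at most five. -/
theorem exists_dcnf [Finite (Γ X.k₀)] (hP : IsTerm 0 fun x _ => X.P x)
    (hT : IsTerm 0 fun x _ => X.T x) (hH : IsTerm 0 fun x _ => X.H x)
    (hT1 : ∀ x, 1 ≤ X.T x) (hH1 : ∀ x, X.hi x + 1 + X.T x < X.H x) :
    ∃ D : DCNF, D.Good 5 ∧ ∀ x, D.Sat x ↔ ∃ w : List Bool, w.length ≤ X.P x ∧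
      ∀ a ∈ (X.run x w (X.T x - 1)).S X.k₁, a ≠ X.outF := by
  classical
  obtain ⟨code, A, hA, hcode⟩ := exists_code X.factSet_finite.toFinset
  let Y : TData Γ Λ σ := { X with code := code }
  have hfs : ∀ a, a ∈ X.factSet_finite.toFinset ↔ a ∈ Y.factSet := by
    intro a
    rw [Set.Finite.mem_toFinset]
    rfl
  have hcode' : ∀ a ∈ Y.factSet, ∀ b, Y.code a = Y.code b → a = b := fun a ha b hab =>
    hcode a ((hfs a).2 ha) b hab
  have hfin : Finite (Γ Y.k₀) := inferInstanceAs (Finite (Γ X.k₀))
  let names := (Y.rel_finite).toFinset.toList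
  have hnames : ∀ nm, nm ∈ names ↔ Y.Rel nm := by
    intro nm
    simp only [names, Finset.mem_toList, Set.Finite.mem_toFinset]
    rfl
  refine ⟨⟨Y.T, Y.H, A, names.map Y.pat⟩, ⟨hT, hH, hT1, ?_, ?_, ?_, ?_⟩, ?_⟩
  · intro x
    have := hH1 x
    show 1 ≤ X.H x
    omega
  · intro π hπ
    obtain ⟨nm, _, rfl⟩ := List.mem_map.1 hπ
    exact Y.guard_form hP hT hH nm
  · intro π hπ
    obtain ⟨nm, _, rfl⟩ := List.mem_map.1 hπ
    exact Y.pat_width nm
  · intro π hπ x t i ht hi hg
    obtain ⟨nm, _, rfl⟩ := List.mem_map.1 hπ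
    exact Y.pat_range A hA x (hH1 x) nm t i ht hi hg
  · intro x
    constructor
    · rintro ⟨y, hy⟩
      exact Y.sound x y (hT1 x) (hH1 x) fun nm hnm t ht i hi hg =>
        hy t ht i hi (Y.pat nm) (List.mem_map.2 ⟨nm, (hnames nm).2 hnm, rfl⟩) hg
    · rintro ⟨w, hw, hfin'⟩
      refine ⟨Y.asg x w, ?_⟩
      intro t ht i hi π hπ hg
      obtain ⟨nm, _, rfl⟩ := List.mem_map.1 hπ
      exact Y.complete hcode' x w hw (hH1 x) hfin' nm t i ht hg

end TData

end tableau

end Pool.Agent.Lib57
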