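import Mathlib
import Pool.Agent.Lib_helper57.Tableau

/-! Every language in NP is the satisfiability problem of a definable CNF family of width at
most five. -/

namespace Pool.Agent.Lib57

open Turing Function

theorem IsTerm.pow {k : ℕ} {f : List Bool → (ℕ → ℕ) → ℕ} (hf : IsTerm k f) (n : ℕ) :
    IsTerm k (fun x e => f x e ^ n) := by
  induction n with
  | zero => simpa using IsTerm.const k 1
  | succ n ih => simpa [pow_succ] using ih.mul hf

theorem IsTerm.poly {k : ℕ} {f : List Bool → (ℕ → ℕ) → ℕ} (hf : IsTerm k f)
    (p : Polynomial ℕ) : IsTerm k (fun x e => p.eval (f x e)) := by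
  induction p using Polynomial.induction_on' with
  | add p q hp hq => simpa using hp.add hq
  | monomial n a => simpa using (IsTerm.const k a).mul (hf.pow n)

theorem eval_mono (p : Polynomial ℕ) {a b : ℕ} (h : a ≤ b) : p.eval a ≤ p.eval b := by
  induction p using Polynomial.induction_on' with
  | add p q hp hq => simpa using Nat.add_le_add hp hq
  | monomial n a => simpa using Nat.mul_le_mul_left _ (Nat.pow_le_pow_left h n)

theorem cook_levin (L : N68a2faeb.DecisionProblem) (hL : L ∈ N68a2faeb.NP) :
    ∃ D : DCNF, D.Good 5 ∧ ∀ x, L x = true ↔ D.Sat x := by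
  obtain ⟨p, R, ⟨C⟩, hR⟩ := hL
  let tm := C.tm
  have kf : Fintype tm.K := tm.kFin
  have lf : Fintype tm.Λ := tm.ΛFin
  have sf : Fintype tm.σ := tm.σFin
  have gf : Fintype (tm.Γ tm.k₀) := tm.Γk₀Fin
  let Dp : ℕ := Finset.univ.sup fun l : tm.Λ => depth (tm.m l)
  have hDp : ∀ l, depth (tm.m l) ≤ Dp := fun l =>
    Finset.le_sup (f := fun l : tm.Λ => depth (tm.m l)) (Finset.mem_univ l)
  let P : List Bool → ℕ := fun x => p.eval x.length
  let T : List Bool → ℕ := fun x =>
    C.time.eval (6 * x.length + 1 + 3 * P x) * Dp + 1
  let H : List Bool → ℕ := fun x => 3 * P x + 6 * x.length + T x + 3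
  let X : TData tm.Γ tm.Λ tm.σ :=
    { M := tm.m
      k₀ := tm.k₀
      k₁ := tm.k₁
      main := tm.main
      v0 := tm.initialState
      g := C.inputAlphabet.invFun
      outF := C.outputAlphabet.invFun false
      P := P
      T := T
      H := H
      code := fun _ => 0 }
  have hP : IsTerm 0 fun x _ => P x := (IsTerm.len 0).poly p
  have hT : IsTerm 0 fun x _ => T x :=
    (((((IsTerm.const 0 6).mul (IsTerm.len 0)).add (IsTerm.const 0 1)).add
      ((IsTerm.const 0 3).mul hP)).poly C.time |>.mul (IsTerm.const 0 Dp)).add (IsTerm.const 0 1)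
  have hH : IsTerm 0 fun x _ => H x :=
    ((((IsTerm.const 0 3).mul hP).add ((IsTerm.const 0 6).mul (IsTerm.len 0))).add hT).add
      (IsTerm.const 0 3)
  have hfin : Finite (tm.Γ X.k₀) := inferInstanceAs (Finite (tm.Γ tm.k₀))
  obtain ⟨D, hD, hDS⟩ := X.exists_dcnf hP hT hH (fun x => by
      show 1 ≤ C.time.eval (6 * x.length + 1 + 3 * P x) * Dp + 1
      omega) (fun x => by
      show 3 * P x + 6 * x.length + 1 + 1 + T x < 3 * P x + 6 * x.length + T x + 3
      omega)
  refine ⟨D, hD, fun x => ?_⟩
  rw [hDS x, hR x]
  -- the final configuration of the run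
  have key : ∀ w : List Bool, w.length ≤ P x →
      (X.run x w (T x - 1)).S tm.k₁ =
        List.map C.outputAlphabet.invFun [R (x, w)] := by
    intro w hw
    have hout := C.outputsFun (x, w)
    obtain ⟨⟨s, hs⟩, hsle⟩ := hout
    have hinit : toM tm.m (initList tm (List.map C.inputAlphabet.invFun
        (N487b59b3.bitEncode ((x, w) : List Bool × List Bool)))) = X.init x w := by
      rw [bitEncode_pair]
      simp only [toM, initList, TData.init, TData.inp, X, Option.map_some]
      congr 1
      funext k
      by_cases hk : k = tm.k₀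
      · subst hk
        simp
      · simp [hk]
    have hlen : (N487b59b3.bitEncode ((x, w) : List Bool × List Bool)).length =
        6 * x.length + 1 + 3 * w.length := by
      rw [bitEncode_pair, List.length_append, length_headWord, length_tri]
    obtain ⟨c, hc, hc'⟩ := micro_steps tm.m Dp hDp s _ _ hs
    have hcT : c ≤ T x - 1 := by
      have h1 : s ≤ C.time.eval (6 * x.length + 1 + 3 * w.length) := by
        rw [← hlen]; exact hsle
      have h2 : C.time.eval (6 * x.length + 1 + 3 * w.length) ≤
          C.time.eval (6 * x.length + 1 + 3 * P x) := eval_mono _ (by omega)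
      have h3 : s * Dp ≤ C.time.eval (6 * x.length + 1 + 3 * P x) * Dp :=
        Nat.mul_le_mul_right _ (h1.trans h2)
      show c ≤ C.time.eval (6 * x.length + 1 + 3 * P x) * Dp + 1 - 1
      omega
    have hrun : X.run x w (T x - 1) = (mstep tm.m)^[T x - 1 - c]
        (toM tm.m (haltList tm (List.map C.outputAlphabet.invFun
          (N487b59b3.bitEncode (R (x, w)))))) := by
      unfold TData.run
      rw [← hinit, show T x - 1 = (T x - 1 - c) + c by omega, iterate_add_apply]
      rw [show (T x - 1 - c) + c - c = T x - 1 - c by omega]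
      congr 1
    have hhalt : toM tm.m (haltList tm (List.map C.outputAlphabet.invFun
        (N487b59b3.bitEncode (R (x, w))))) =
        ⟨none, tm.initialState, (haltList tm (List.map C.outputAlphabet.invFun
          (N487b59b3.bitEncode (R (x, w))))).stk⟩ := rfl
    rw [hrun, hhalt, micro_halt]
    simp only [haltList]
    have hb : N487b59b3.bitEncode (R (x, w)) = [R (x, w)] := rfl
    simp [hb]
  constructor
  · rintro ⟨w, hw, hRw⟩
    refine ⟨w, hw, ?_⟩
    intro a ha
    have h1 : a ∈ (X.run x w (T x - 1)).S tm.k₁ := ha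
    rw [key w hw, hRw] at h1
    simp only [List.map_cons, List.map_nil, List.mem_singleton] at h1
    subst h1
    intro h2
    have h3 : C.outputAlphabet.invFun true = C.outputAlphabet.invFun false := h2
    have := C.outputAlphabet.symm.injective h3
    cases this
  · rintro ⟨w, hw, hacc⟩
    refine ⟨w, hw, ?_⟩
    by_contra hne
    have hRw : R (x, w) = false := by
      cases h : R (x, w) with
      | true => exact absurd h hne
      | false => rfl
    have h1 := key w hw
    rw [hRw] at h1
    exact hacc (C.outputAlphabet.invFun false) (by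
      show C.outputAlphabet.invFun false ∈ (X.run x w (T x - 1)).S tm.k₁
      rw [h1]
      simp) rfl

end Pool.Agent.Lib57
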