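import Mathlib
import Pool.Prelude.Def_F_458e953d

/-! Locating-dominating coalitions and the associated decision problems. -/

namespace Pool.Agent.Lib57

/-- `D` is a locating-dominating set of `G`: every vertex outside `D` has a neighbour in `D`, and
two distinct vertices outside `D` have different sets of neighbours in `D`. -/
def IsLDSet {V : Type} (G : SimpleGraph V) (D : Set V) : Prop :=
  (∀ v, v ∉ D → ∃ u ∈ D, G.Adj v u) ∧
    ∀ u v, u ∉ D → v ∉ D → u ≠ v → G.neighborSet u ∩ D ≠ G.neighborSet v ∩ D

/-- Two disjoint sets form an LD-coalition if none of them is an LD-set but their union is. -/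
def IsLDCoalition {V : Type} (G : SimpleGraph V) (X Y : Set V) : Prop :=
  Disjoint X Y ∧ ¬ IsLDSet G X ∧ ¬ IsLDSet G Y ∧ IsLDSet G (X ∪ Y)

/-- An LDC-partition: a partition of the vertex set into nonempty parts such that no part is an
LD-set and every part forms an LD-coalition with another part. -/
def IsLDCPartition {V : Type} (G : SimpleGraph V) (P : Set (Set V)) : Prop :=
  Setoid.IsPartition P ∧
    ∀ X ∈ P, ¬ IsLDSet G X ∧ ∃ Y ∈ P, Y ≠ X ∧ IsLDCoalition G X Y

/-- `C_L(G) ≥ k`: there is an LDC-partition with at least `k` parts. -/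
def LDCNumGE {V : Type} (G : SimpleGraph V) (k : ℕ) : Prop :=
  ∃ P : Set (Set V), IsLDCPartition G P ∧ k ≤ P.ncard

open Classical in
/-- The adjacency matrix of a graph with vertex set `{0, ..., n - 1}`, row by row. -/
noncomputable def encodeGraph {n : ℕ} (G : SimpleGraph (Fin n)) : List Bool :=
  (List.finRange n).flatMap fun i => (List.finRange n).map fun j => decide (G.Adj i j)

open Classical in
/-- The decision problem `LDC_k` for fixed `k`: given the adjacency matrix of a connected graph
`G`, is `C_L(G) ≥ k`? -/
noncomputable def LDCk (k : ℕ) : N68a2faeb.DecisionProblem := fun s =>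
  decide (∃ (n : ℕ) (G : SimpleGraph (Fin n)), G.Connected ∧ s = encodeGraph G ∧ LDCNumGE G k)

open Classical in
/-- The decision problem `LDC`: given (the standard bit encoding of) a pair of the adjacency
matrix of a connected graph `G` and a number `k` in binary, is `C_L(G) ≥ k`? -/
noncomputable def LDC : N68a2faeb.DecisionProblem := fun s =>
  decide (∃ (n : ℕ) (G : SimpleGraph (Fin n)) (k : ℕ), G.Connected ∧
    s = N487b59b3.bitEncode (encodeGraph G, k) ∧ LDCNumGE G k)

/-- NP-hardness with respect to polynomial-time many-one reductions. -/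
def NPHard (A : N68a2faeb.DecisionProblem) : Prop :=
  ∀ B ∈ N68a2faeb.NP, N793a5b8e.ManyOneReducible B A

end Pool.Agent.Lib57
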