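import Mathlib
import Pool.Agent.Lib_helper57.LDCDefs

/-! The gadget graph and its LDC-partitions. -/

namespace Pool.Agent.Lib57

/-! ### hyperedges -/

section hyper

variable {V : Type} (G : SimpleGraph V)

/-- closed neighbourhood -/
def cN (u : V) : Set V := {w | w = u ∨ G.Adj u w}

/-- vertices separating `u` and `v` -/
def sp (u v : V) : Set V := {w | w = u ∨ w = v ∨ ¬ (G.Adj u w ↔ G.Adj v w)}

variable {G}

/-- sets met by every LD-set -/
def Trans (G : SimpleGraph V) (e : Set V) : Prop := ∀ D, IsLDSet G D → (D ∩ e).Nonempty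

theorem trans_cN (u : V) : Trans G (cN G u) := by
  intro D hD
  by_cases h : u ∈ D
  · exact ⟨u, h, Or.inl rfl⟩
  · obtain ⟨w, hw, hadj⟩ := hD.1 u h
    exact ⟨w, hw, Or.inr hadj⟩

theorem trans_sp {u v : V} (huv : u ≠ v) : Trans G (sp G u v) := by
  intro D hD
  by_cases hu : u ∈ D
  · exact ⟨u, hu, Or.inl rfl⟩
  by_cases hv : v ∈ D
  · exact ⟨v, hv, Or.inr (Or.inl rfl)⟩
  have h := hD.2 u v hu hv huv
  by_contra hc
  apply h
  ext w
  simp only [Set.mem_inter_iff, SimpleGraph.mem_neighborSet]
  constructor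
  · rintro ⟨h1, h2⟩
    refine ⟨?_, h2⟩
    by_contra h3
    exact hc ⟨w, h2, Or.inr (Or.inr fun h4 => h3 (h4.1 h1))⟩
  · rintro ⟨h1, h2⟩
    refine ⟨?_, h2⟩
    by_contra h3
    exact hc ⟨w, h2, Or.inr (Or.inr fun h4 => h3 (h4.2 h1))⟩

theorem not_LD {D : Set V} (h : ¬ IsLDSet G D) :
    (∃ u, Disjoint D (cN G u)) ∨ ∃ u v, u ≠ v ∧ Disjoint D (sp G u v) := by
  unfold IsLDSet at h
  rw [not_and_or] at h
  rcases h with h | h
  · left
    push Not at h
    obtain ⟨v, hv, h⟩ := h
    refine ⟨v, ?_⟩
    rw [Set.disjoint_left]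
    rintro w hw (rfl | hadj)
    · exact hv hw
    · exact h w hw hadj
  · right
    push Not at h
    obtain ⟨u, v, hu, hv, huv, h⟩ := h
    refine ⟨u, v, huv, ?_⟩
    rw [Set.disjoint_left]
    rintro w hw (rfl | rfl | hadj)
    · exact hu hw
    · exact hv hw
    · apply hadj
      have := Set.ext_iff.1 h w
      simp only [Set.mem_inter_iff, SimpleGraph.mem_neighborSet, hw, and_true] at this
      exact this

/-- to be an LD-set -/
theorem LD_of {D : Set V} (h1 : ∀ v, v ∉ D → ∃ u ∈ D, G.Adj v u)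
    (h2 : ∀ u v, u ∉ D → v ∉ D → u ≠ v → ∃ w ∈ D, ¬ (G.Adj u w ↔ G.Adj v w)) :
    IsLDSet G D := by
  refine ⟨h1, ?_⟩
  intro u v hu hv huv he
  obtain ⟨w, hw, hw'⟩ := h2 u v hu hv huv
  apply hw'
  have := Set.ext_iff.1 he w
  simp only [Set.mem_inter_iff, SimpleGraph.mem_neighborSet, hw, and_true] at this
  exact this

/-- the partners of a part -/
def partners (G : SimpleGraph V) (P : Set (Set V)) (A : Set V) : Set (Set V) :=
  {X | X ∈ P ∧ IsLDCoalition G A X}

theorem part_eq {P : Set (Set V)} (hP : Setoid.IsPartition P) {X Y : Set V} (hX : X ∈ P)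
    (hY : Y ∈ P) {a : V} (h1 : a ∈ X) (h2 : a ∈ Y) : X = Y := by
  obtain ⟨Z, _, hZ⟩ := hP.2 a
  rw [hZ X ⟨hX, h1⟩, hZ Y ⟨hY, h2⟩]

theorem partners_ncard [Finite V] {P : Set (Set V)} (hP : Setoid.IsPartition P) {A e : Set V}
    (he : Trans G e) (hA : Disjoint A e) : (partners G P A).ncard ≤ e.ncard := by
  classical
  have hmeet : ∀ X ∈ partners G P A, (X ∩ e).Nonempty := by
    intro X hX
    obtain ⟨w, hw, hwe⟩ := he _ hX.2.2.2.2
    rcases hw with hw | hw
    · exact absurd hwe (Set.disjoint_left.1 hA hw)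
    · exact ⟨w, hw, hwe⟩
  have key : ∀ X : Set V, ∃ a : V, X ∈ partners G P A → a ∈ X ∩ e := by
    intro X
    by_cases hX : X ∈ partners G P A
    · obtain ⟨a, ha⟩ := hmeet X hX
      exact ⟨a, fun _ => ha⟩
    · obtain ⟨a, _⟩ | h := (Set.eq_empty_or_nonempty e).symm
      · exact ⟨a, fun h => absurd h hX⟩
      · by_cases hV : Nonempty V
        · exact ⟨hV.some, fun h => absurd h hX⟩
        · exfalso
          obtain ⟨a, _⟩ := he Set.univ ⟨fun v hv => absurd (Set.mem_univ v) hv,
            fun u v hu => absurd (Set.mem_univ u) hu⟩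
          exact hV ⟨a⟩
  choose f hf using key
  apply Set.ncard_le_ncard_of_injOn f
  · intro X hX
    exact (hf X hX).2
  · intro X hX Y hY hXY
    have h1 := (hf X hX).1
    have h2 := (hf Y hY).1
    rw [hXY] at h1
    exact part_eq hP hX.1 hY.1 h1 h2

/-- Large LDC-partitions contain two disjoint parts meeting all small hyperedges. -/
theorem large_partition [Finite V] {P : Set (Set V)} (hP : IsLDCPartition G P) (M s k : ℕ)
    (hM : ∀ D, ¬ IsLDSet G D → ∃ e, e.ncard ≤ M ∧ Trans G e ∧ Disjoint D e)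
    (b l : V) (hbl : cN G l = {l, b}) (hk2 : 2 + s + M < k)
    (hk : k ≤ P.ncard) :
    ∃ A C : Set V, Disjoint A C ∧ b ∈ A ∧ l ∈ C ∧
      ∀ e, Trans G e → e.ncard ≤ s → (A ∩ e).Nonempty ∧ (C ∩ e).Nonempty := by
  classical
  obtain ⟨hpart, hall⟩ := hP
  obtain ⟨A, ⟨hAP, hbA⟩, _⟩ := hpart.2 b
  obtain ⟨C, ⟨hCP, hlC⟩, _⟩ := hpart.2 l
  obtain ⟨eA, heA, htA, hdA⟩ := hM A (hall A hAP).1
  obtain ⟨eC, heC, htC, hdC⟩ := hM C (hall C hCP).1
  have hcover : P ⊆ ({A, C} : Set (Set V)) ∪ (partners G P A ∪ partners G P C) := by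
    intro X hX
    by_cases hXA : X = A
    · left; left; exact hXA
    by_cases hXC : X = C
    · left; right; exact hXC
    right
    obtain ⟨_, Y, hY, hYX, hco⟩ := hall X hX
    obtain ⟨w, hw, hwe⟩ := trans_cN (G := G) l _ hco.2.2.2
    rw [hbl] at hwe
    have hsymm : IsLDCoalition G Y X :=
      ⟨hco.1.symm, hco.2.2.1, hco.2.1, by rw [Set.union_comm]; exact hco.2.2.2⟩
    rcases hwe with rfl | hwe
    · rcases hw with hw | hw
      · exact absurd (part_eq hpart hX hCP hw hlC) hXC
      · right
        have := part_eq hpart hY hCP hw hlC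
        subst this
        exact ⟨hX, hsymm⟩
    · have hwe' : w = b := hwe
      subst hwe'
      rcases hw with hw | hw
      · exact absurd (part_eq hpart hX hAP hw hbA) hXA
      · left
        have := part_eq hpart hY hAP hw hbA
        subst this
        exact ⟨hX, hsymm⟩
  have hbound : ∀ e e' : Set V, Trans G e → Disjoint A e → Trans G e' → Disjoint C e' →
      P.ncard ≤ 2 + (e.ncard + e'.ncard) := by
    intro e e' he hde he' hde'
    calc P.ncard ≤ (({A, C} : Set (Set V)) ∪ (partners G P A ∪ partners G P C)).ncard :=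
          Set.ncard_le_ncard hcover (Set.toFinite _)
      _ ≤ ({A, C} : Set (Set V)).ncard + (partners G P A ∪ partners G P C).ncard :=
          Set.ncard_union_le _ _
      _ ≤ 2 + ((partners G P A).ncard + (partners G P C).ncard) := by
          have h1 : ({A, C} : Set (Set V)).ncard ≤ 2 := Set.ncard_insert_le _ _ |>.trans (by simp)
          have h2 := Set.ncard_union_le (partners G P A) (partners G P C)
          omega
      _ ≤ 2 + (e.ncard + e'.ncard) := by
          have h1 := partners_ncard hpart he hde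
          have h2 := partners_ncard hpart he' hde'
          omega
  have hAC : A ≠ C := by
    intro h
    have hcover' : P ⊆ ({A} : Set (Set V)) ∪ partners G P A := by
      intro X hX
      rcases hcover hX with (h1 | h1) | (h1 | h1)
      · left; exact h1
      · left; rw [h]; exact h1
      · right; exact h1
      · right; rw [h]; exact h1
    have h1 : P.ncard ≤ 1 + M := by
      calc P.ncard ≤ (({A} : Set (Set V)) ∪ partners G P A).ncard :=
            Set.ncard_le_ncard hcover' (Set.toFinite _)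
        _ ≤ ({A} : Set (Set V)).ncard + (partners G P A).ncard := Set.ncard_union_le _ _
        _ ≤ 1 + M := by
            have h1 : ({A} : Set (Set V)).ncard = 1 := Set.ncard_singleton _
            have h2 := partners_ncard hpart htA hdA
            omega
    omega
  have hdisj : Disjoint A C := by
    rw [Set.disjoint_left]
    intro w h1 h2
    exact hAC (part_eq hpart hAP hCP h1 h2)
  refine ⟨A, C, hdisj, hbA, hlC, ?_⟩
  intro e he hes
  constructor
  · by_contra hc
    have hd : Disjoint A e := by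
      rw [Set.disjoint_iff_inter_eq_empty]
      exact Set.not_nonempty_iff_eq_empty.1 hc
    have := hbound e eC he hd htC hdC
    omega
  · by_contra hc
    have hd : Disjoint C e := by
      rw [Set.disjoint_iff_inter_eq_empty]
      exact Set.not_nonempty_iff_eq_empty.1 hc
    have := hbound eA e htA hdA he hd
    omega

end hyper

end Pool.Agent.Lib57
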