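import Mathlib
import Pool.Agent.Lib_helper57.LDCCore

/-! The gadget graph: rows `R`, columns `J`. -/

namespace Pool.Agent.Lib57

/-- vertices of the gadget graph -/
inductive Vx (R J : Type) : Type
  | base (r : R) (j : J)
  | leaf (r : R) (j : J)
  | con (r : R) (j : J)
  | chk (s : Bool) (j : J)
  | hub (s : Bool)
  deriving DecidableEq

/-- the data of the gadget graph: `nxt` is the successor of a column, `vert` the adjacency of
rows, `W s j` the set of rows seen by the checker `(s, j)`, and `hubc` the hub columns. -/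
structure GData (R J : Type) where
  nxt : J → J
  vert : R → R → Prop
  W : Bool → J → R → Prop
  hubc : J → Prop

namespace GData

variable {R J : Type} (X : GData R J)

/-- directed version of adjacency -/
def dAdj : Vx R J → Vx R J → Prop
  | .base r j, .base r' j' => j = j' ∧ r ≠ r' ∧ X.vert r r'
  | .base r j, .leaf r' j' => r = r' ∧ j = j'
  | .base r j, .con r' j' => r = r' ∧ (j = j' ∨ j = X.nxt j')
  | .base r j, .chk s j' => j = j' ∧ X.W s j' r
  | .chk s j, .hub s' => s = s' ∧ X.hubc j
  | _, _ => False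

/-- the gadget graph -/
def G : SimpleGraph (Vx R J) where
  Adj a b := X.dAdj a b ∨ X.dAdj b a
  symm := ⟨fun a b h => h.symm⟩
  loopless := ⟨by
    intro a h
    cases a <;> simp [dAdj] at h⟩

variable {X}

@[simp] theorem adj_base_leaf (r r' : R) (j j' : J) :
    X.G.Adj (.base r j) (.leaf r' j') ↔ r = r' ∧ j = j' := by simp [G, dAdj]
@[simp] theorem adj_leaf_base (r r' : R) (j j' : J) :
    X.G.Adj (.leaf r j) (.base r' j') ↔ r' = r ∧ j' = j := by simp [G, dAdj]
@[simp] theorem adj_base_con (r r' : R) (j j' : J) :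
    X.G.Adj (.base r j) (.con r' j') ↔ r = r' ∧ (j = j' ∨ j = X.nxt j') := by simp [G, dAdj]
@[simp] theorem adj_con_base (r r' : R) (j j' : J) :
    X.G.Adj (.con r j) (.base r' j') ↔ r' = r ∧ (j' = j ∨ j' = X.nxt j) := by simp [G, dAdj]
@[simp] theorem adj_base_chk (r : R) (s : Bool) (j j' : J) :
    X.G.Adj (.base r j) (.chk s j') ↔ j = j' ∧ X.W s j' r := by simp [G, dAdj]
@[simp] theorem adj_chk_base (r : R) (s : Bool) (j j' : J) :
    X.G.Adj (.chk s j) (.base r j') ↔ j' = j ∧ X.W s j r := by simp [G, dAdj]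
@[simp] theorem adj_chk_hub (s s' : Bool) (j : J) :
    X.G.Adj (.chk s j) (.hub s') ↔ s = s' ∧ X.hubc j := by simp [G, dAdj]
@[simp] theorem adj_hub_chk (s s' : Bool) (j : J) :
    X.G.Adj (.hub s) (.chk s' j) ↔ s' = s ∧ X.hubc j := by simp [G, dAdj]
@[simp] theorem adj_base_hub (r : R) (j : J) (s : Bool) :
    ¬ X.G.Adj (.base r j) (.hub s) := by simp [G, dAdj]
@[simp] theorem adj_hub_base (r : R) (j : J) (s : Bool) :
    ¬ X.G.Adj (.hub s) (.base r j) := by simp [G, dAdj]
@[simp] theorem adj_leaf_leaf (r r' : R) (j j' : J) :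
    ¬ X.G.Adj (.leaf r j) (.leaf r' j') := by simp [G, dAdj]
@[simp] theorem adj_leaf_con (r r' : R) (j j' : J) :
    ¬ X.G.Adj (.leaf r j) (.con r' j') := by simp [G, dAdj]
@[simp] theorem adj_con_leaf (r r' : R) (j j' : J) :
    ¬ X.G.Adj (.con r j) (.leaf r' j') := by simp [G, dAdj]
@[simp] theorem adj_leaf_chk (r : R) (s : Bool) (j j' : J) :
    ¬ X.G.Adj (.leaf r j) (.chk s j') := by simp [G, dAdj]
@[simp] theorem adj_chk_leaf (r : R) (s : Bool) (j j' : J) :
    ¬ X.G.Adj (.chk s j) (.leaf r j') := by simp [G, dAdj]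
@[simp] theorem adj_leaf_hub (r : R) (j : J) (s : Bool) :
    ¬ X.G.Adj (.leaf r j) (.hub s) := by simp [G, dAdj]
@[simp] theorem adj_hub_leaf (r : R) (j : J) (s : Bool) :
    ¬ X.G.Adj (.hub s) (.leaf r j) := by simp [G, dAdj]
@[simp] theorem adj_con_con (r r' : R) (j j' : J) :
    ¬ X.G.Adj (.con r j) (.con r' j') := by simp [G, dAdj]
@[simp] theorem adj_con_chk (r : R) (s : Bool) (j j' : J) :
    ¬ X.G.Adj (.con r j) (.chk s j') := by simp [G, dAdj]
@[simp] theorem adj_chk_con (r : R) (s : Bool) (j j' : J) :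
    ¬ X.G.Adj (.chk s j) (.con r j') := by simp [G, dAdj]
@[simp] theorem adj_con_hub (r : R) (j : J) (s : Bool) :
    ¬ X.G.Adj (.con r j) (.hub s) := by simp [G, dAdj]
@[simp] theorem adj_hub_con (r : R) (j : J) (s : Bool) :
    ¬ X.G.Adj (.hub s) (.con r j) := by simp [G, dAdj]
@[simp] theorem adj_chk_chk (s s' : Bool) (j j' : J) :
    ¬ X.G.Adj (.chk s j) (.chk s' j') := by simp [G, dAdj]
@[simp] theorem adj_hub_hub (s s' : Bool) :
    ¬ X.G.Adj (.hub s) (.hub s') := by simp [G, dAdj]

/-! ### from a splitting to a partition -/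

variable (X)

open Classical in
/-- the part of a vertex; `none` for the checkers of the hub columns -/
noncomputable def col (h : R → Bool) : Vx R J → Option Bool
  | .base r _ => some (h r)
  | .leaf r _ => some (!h r)
  | .con r _ => some (!h r)
  | .chk s j => if X.hubc j then none else some s
  | .hub s => some (!s)

/-- the big part `s` -/
def big (h : R → Bool) (s : Bool) : Set (Vx R J) := {v | X.col h v = some s}

/-- conditions on the row colouring -/
structure Fwd (h : R → Bool) : Prop where
  h1 : ∀ j, ¬ X.hubc j → ∀ s, ∃ r r', r ≠ r' ∧ X.W s j r ∧ X.W s j r' ∧ h r = !s ∧ h r' = !s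
  h2 : ∀ j, X.hubc j → ∀ s, ∃ r r', r ≠ r' ∧ X.W s j r ∧ X.W s j r' ∧ h r = s ∧ h r' = s
  h3 : ∀ j, X.hubc j → ∀ s, ∃ r, X.W s j r ∧ h r = !s

variable {X}

theorem bool_ne {a b : Bool} (h : a ≠ b) : a = !b := by
  cases a <;> cases b <;> simp_all

theorem base_mem {h : R → Bool} {s : Bool} {r : R} {j : J} (hr : h r = s) :
    (Vx.base r j) ∈ X.big h s := by simp [big, col, hr]

/-- every checker outside has a base neighbour inside -/
theorem chk_nbr {h : R → Bool} (hF : X.Fwd h) {s s' : Bool} {i j : J}
    (hs : (Vx.chk s' j) ∉ X.big h s ∪ {.chk s i}) :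
    ∃ r, X.W s' j r ∧ h r = s := by
  by_cases hj : X.hubc j
  · by_cases hss : s' = s
    · subst hss
      obtain ⟨r, r', _, h1, _, h2, _⟩ := hF.h2 j hj s'
      exact ⟨r, h1, h2⟩
    · have := bool_ne hss
      subst this
      obtain ⟨r, h1, h2⟩ := hF.h3 j hj (!s)
      exact ⟨r, h1, by simpa using h2⟩
  · have hss : s' ≠ s := by
      rintro rfl
      apply hs
      left
      simp [big, col, hj]
    have := bool_ne hss
    subst this
    obtain ⟨r, r', _, h1, _, h2, _⟩ := hF.h1 j hj (!s)
    exact ⟨r, h1, by simpa using h2⟩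

/-- every checker outside has a neighbour inside avoiding a given base vertex -/
theorem chk_nbr' {h : R → Bool} (hF : X.Fwd h) {s s' : Bool} {i j : J}
    (hs : (Vx.chk s' j) ∉ X.big h s ∪ {.chk s i}) (b : Vx R J) (hb : ∃ r j, b = .base r j) :
    ∃ d ∈ X.big h s, X.G.Adj (.chk s' j) d ∧ d ≠ b ∧ ∀ r j, ¬ X.G.Adj (.leaf r j) d ∨
      d = .base r j := by
  obtain ⟨rb, jb, rfl⟩ := hb
  have key : ∀ r r' : R, r ≠ r' → X.W s' j r → X.W s' j r' → h r = s → h r' = s →
      ∃ d ∈ X.big h s, X.G.Adj (.chk s' j) d ∧ d ≠ .base rb jb ∧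
        ∀ r j, ¬ X.G.Adj (.leaf r j) d ∨ d = .base r j := by
    intro r r' hrr h1 h2 h3 h4
    by_cases hr : r = rb
    · refine ⟨.base r' j, base_mem h4, by simp [h2], ?_, ?_⟩
      · intro he
        simp only [Vx.base.injEq] at he
        exact hrr (hr.trans he.1.symm)
      · intro r'' j''
        by_cases h5 : r' = r'' ∧ j = j''
        · right; simp [h5]
        · left; simpa using h5
    · refine ⟨.base r j, base_mem h3, by simp [h1], ?_, ?_⟩
      · intro he
        simp only [Vx.base.injEq] at he
        exact hr he.1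
      · intro r'' j''
        by_cases h5 : r = r'' ∧ j = j''
        · right; simp [h5]
        · left; simpa using h5
  by_cases hj : X.hubc j
  · by_cases hss : s' = s
    · subst hss
      obtain ⟨r, r', h0, h1, h2, h3, h4⟩ := hF.h2 j hj s'
      exact key r r' h0 h1 h2 h3 h4
    · have := bool_ne hss
      subst this
      refine ⟨.hub (!s), by simp [big, col], by simp [hj], by simp, ?_⟩
      intro r j
      left
      simp
  · have hss : s' ≠ s := by
      rintro rfl
      apply hs
      left
      simp [big, col, hj]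
    have := bool_ne hss
    subst this
    obtain ⟨r, r', h0, h1, h2, h3, h4⟩ := hF.h1 j hj (!s)
    exact key r r' h0 h1 h2 (by simpa using h3) (by simpa using h4)

/-- the big part together with one checker is an LD-set -/
theorem big_LD (hn1 : ∀ j, X.nxt j ≠ j) (hn2 : ∀ j, X.nxt (X.nxt j) ≠ j)
    (hn3 : Function.Injective X.nxt) {h : R → Bool} (hF : X.Fwd h) (s : Bool) (i : J)
    (hi : X.hubc i) : IsLDSet X.G (X.big h s ∪ {.chk s i}) := by
  have hbase : ∀ r j, (Vx.base r j) ∉ X.big h s ∪ {.chk s i} → h r = !s := by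
    intro r j hr
    apply bool_ne
    rintro rfl
    exact hr (Or.inl (base_mem rfl))
  have hleaf : ∀ r j, (Vx.leaf r j) ∉ X.big h s ∪ {.chk s i} → h r = s := by
    intro r j hr
    by_contra hc
    have := bool_ne hc
    apply hr
    left
    simp [big, col, this]
  have hcon : ∀ r j, (Vx.con r j) ∉ X.big h s ∪ {.chk s i} → h r = s := by
    intro r j hr
    by_contra hc
    have := bool_ne hc
    apply hr
    left
    simp [big, col, this]
  have hhub : ∀ s', (Vx.hub s') ∉ X.big h s ∪ {.chk s i} → s' = s := by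
    intro s' hr
    by_contra hc
    have := bool_ne hc
    apply hr
    left
    simp [big, col, this]
  apply LD_of
  · intro v hv
    cases v with
    | base r j =>
      have := hbase r j hv
      exact ⟨.leaf r j, Or.inl (by simp [big, col, this]), by simp⟩
    | leaf r j => exact ⟨.base r j, Or.inl (base_mem (hleaf r j hv)), by simp⟩
    | con r j => exact ⟨.base r j, Or.inl (base_mem (hcon r j hv)), by simp⟩
    | chk s' j =>
      obtain ⟨r, h1, h2⟩ := chk_nbr hF hv
      exact ⟨.base r j, Or.inl (base_mem h2), by simp [h1]⟩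
    | hub s' =>
      have := hhub s' hv
      subst this
      exact ⟨.chk s' i, Or.inr rfl, by simp [hi]⟩
  · -- separation
    have hsep_base : ∀ r j v, (Vx.base r j) ∉ X.big h s ∪ {.chk s i} → v ≠ .base r j →
        ∃ w ∈ X.big h s ∪ {.chk s i}, ¬ (X.G.Adj (.base r j) w ↔ X.G.Adj v w) := by
      intro r j v hr hv
      refine ⟨.leaf r j, Or.inl (by simp [big, col, hbase r j hr]), ?_⟩
      have h1 : X.G.Adj (.base r j) (.leaf r j) := by simp
      have h2 : ¬ X.G.Adj v (.leaf r j) := by
        cases v with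
        | base r' j' =>
          simp only [adj_base_leaf]
          rintro ⟨rfl, rfl⟩
          exact hv rfl
        | leaf r' j' => simp
        | con r' j' => simp
        | chk s' j' => simp
        | hub s' => simp
      tauto
    have hsep_leaf : ∀ r j v, (Vx.leaf r j) ∉ X.big h s ∪ {.chk s i} →
        v ∉ X.big h s ∪ {.chk s i} → v ≠ .leaf r j → (∀ r' j', v ≠ .base r' j') →
        ∃ w ∈ X.big h s ∪ {.chk s i}, ¬ (X.G.Adj (.leaf r j) w ↔ X.G.Adj v w) := by
      intro r j v hr hvD hv hnb
      cases v with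
      | base r' j' => exact absurd rfl (hnb r' j')
      | leaf r' j' =>
        refine ⟨.base r j, Or.inl (base_mem (hleaf r j hr)), ?_⟩
        simp only [adj_leaf_base, true_and, true_iff]
        rintro ⟨rfl, rfl⟩
        exact hv rfl
      | con r' j' =>
        have hc := hcon r' j' hvD
        by_cases he : r' = r ∧ j' = j
        · obtain ⟨rfl, rfl⟩ := he
          refine ⟨.base r' (X.nxt j'), Or.inl (base_mem hc), ?_⟩
          simp [hn1 j']
        · refine ⟨.base r' j', Or.inl (base_mem hc), ?_⟩
          simpa using he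
      | chk s' j' =>
        obtain ⟨d, hd, hadj, hne, hl⟩ := chk_nbr' hF hvD (.base r j) ⟨r, j, rfl⟩
        refine ⟨d, Or.inl hd, ?_⟩
        rcases hl r j with h1 | h1
        · tauto
        · exact absurd h1 hne
      | hub s' =>
        refine ⟨.base r j, Or.inl (base_mem (hleaf r j hr)), ?_⟩
        simp
    have hsep_con : ∀ r j v, (Vx.con r j) ∉ X.big h s ∪ {.chk s i} →
        v ∉ X.big h s ∪ {.chk s i} → v ≠ .con r j → (∀ r' j', v ≠ .base r' j') →
        (∀ r' j', v ≠ .leaf r' j') →
        ∃ w ∈ X.big h s ∪ {.chk s i}, ¬ (X.G.Adj (.con r j) w ↔ X.G.Adj v w) := by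
      intro r j v hr hvD hv hnb hnl
      have hc := hcon r j hr
      cases v with
      | base r' j' => exact absurd rfl (hnb r' j')
      | leaf r' j' => exact absurd rfl (hnl r' j')
      | con r' j' =>
        by_cases hrr : r = r'
        · subst hrr
          have hjj : j' ≠ j := by
            rintro rfl
            exact hv rfl
          by_cases hjn : j = X.nxt j'
          · refine ⟨.base r (X.nxt j), Or.inl (base_mem hc), ?_⟩
            simp only [adj_con_base, true_and, or_true, true_iff]
            rintro (h1 | h1)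
            · rw [hjn] at h1
              exact hn2 j' h1
            · exact hjj (hn3 h1).symm
          · refine ⟨.base r j, Or.inl (base_mem hc), ?_⟩
            simp only [adj_con_base, true_and, true_or, true_iff]
            rintro (h1 | h1)
            · exact hjj h1.symm
            · exact hjn h1
        · refine ⟨.base r j, Or.inl (base_mem hc), ?_⟩
          simp [hrr]
      | chk s' j' =>
        by_cases hjj : j = j'
        · subst hjj
          refine ⟨.base r (X.nxt j), Or.inl (base_mem hc), ?_⟩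
          simp [hn1 j]
        · refine ⟨.base r j, Or.inl (base_mem hc), ?_⟩
          simp [hjj]
      | hub s' =>
        refine ⟨.base r j, Or.inl (base_mem hc), ?_⟩
        simp
    have hsep_chk : ∀ s₁ j v, (Vx.chk s₁ j) ∉ X.big h s ∪ {.chk s i} →
        v ∉ X.big h s ∪ {.chk s i} → v ≠ .chk s₁ j → (∀ r' j', v ≠ .base r' j') →
        (∀ r' j', v ≠ .leaf r' j') → (∀ r' j', v ≠ .con r' j') →
        ∃ w ∈ X.big h s ∪ {.chk s i}, ¬ (X.G.Adj (.chk s₁ j) w ↔ X.G.Adj v w) := by
      intro s₁ j v hr hvD hv hnb hnl hnc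
      obtain ⟨r, h1, h2⟩ := chk_nbr hF hr
      cases v with
      | base r' j' => exact absurd rfl (hnb r' j')
      | leaf r' j' => exact absurd rfl (hnl r' j')
      | con r' j' => exact absurd rfl (hnc r' j')
      | chk s₂ j' =>
        by_cases hjj : j = j'
        · subst hjj
          have hss : s₂ ≠ s₁ := by
            rintro rfl
            exact hv rfl
          have hj : X.hubc j := by
            by_contra hj
            have h3 : s₁ ≠ s := by
              rintro rfl
              exact hr (Or.inl (by simp [big, col, hj]))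
            have h4 : s₂ ≠ s := by
              rintro rfl
              exact hvD (Or.inl (by simp [big, col, hj]))
            exact hss ((bool_ne h4).trans (bool_ne h3).symm)
          refine ⟨.hub (!s), Or.inl (by simp [big, col]), ?_⟩
          simp only [adj_chk_hub, hj, and_true]
          rw [bool_ne hss]
          cases s₁ <;> cases s <;> simp
        · refine ⟨.base r j, Or.inl (base_mem h2), ?_⟩
          simp [h1, hjj]
      | hub s' =>
        refine ⟨.base r j, Or.inl (base_mem h2), ?_⟩
        simp [h1]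
    have hflip : ∀ u v, (∃ w ∈ X.big h s ∪ {.chk s i}, ¬ (X.G.Adj v w ↔ X.G.Adj u w)) →
        ∃ w ∈ X.big h s ∪ {.chk s i}, ¬ (X.G.Adj u w ↔ X.G.Adj v w) := by
      rintro u v ⟨w, hw, h1⟩
      exact ⟨w, hw, fun h2 => h1 h2.symm⟩
    intro u v hu hv huv
    cases u with
    | base r j => exact hsep_base r j v hu huv.symm
    | leaf r j =>
      cases v with
      | base r' j' => exact hflip _ _ (hsep_base r' j' _ hv huv)
      | _ => exact hsep_leaf r j _ hu hv huv.symm (by simp)
    | con r j =>
      cases v with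
      | base r' j' => exact hflip _ _ (hsep_base r' j' _ hv huv)
      | leaf r' j' => exact hflip _ _ (hsep_leaf r' j' _ hv hu huv (by simp))
      | _ => exact hsep_con r j _ hu hv huv.symm (by simp) (by simp)
    | chk s' j =>
      cases v with
      | base r' j' => exact hflip _ _ (hsep_base r' j' _ hv huv)
      | leaf r' j' => exact hflip _ _ (hsep_leaf r' j' _ hv hu huv (by simp))
      | con r' j' => exact hflip _ _ (hsep_con r' j' _ hv hu huv (by simp) (by simp))
      | _ => exact hsep_chk s' j _ hu hv huv.symm (by simp) (by simp) (by simp)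
    | hub s' =>
      cases v with
      | base r' j' => exact hflip _ _ (hsep_base r' j' _ hv huv)
      | leaf r' j' => exact hflip _ _ (hsep_leaf r' j' _ hv hu huv (by simp))
      | con r' j' => exact hflip _ _ (hsep_con r' j' _ hv hu huv (by simp) (by simp))
      | chk s'' j' => exact hflip _ _ (hsep_chk s'' j' _ hv hu huv (by simp) (by simp) (by simp))
      | hub s'' =>
        exfalso
        apply huv
        rw [hhub s' hu, hhub s'' hv]

theorem big_not_LD {h : R → Bool} (s : Bool) : ¬ IsLDSet X.G (X.big h s) := by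
  intro hLD
  obtain ⟨u, hu, hadj⟩ := hLD.1 (.hub s) (by simp [big, col])
  cases u with
  | base r j => simp at hadj
  | leaf r j => simp at hadj
  | con r j => simp at hadj
  | chk s' j =>
    simp only [adj_hub_chk] at hadj
    simp [big, col, hadj.2] at hu
  | hub s' => simp at hadj

theorem single_not_LD (r : R) (s : Bool) (i : J) : ¬ IsLDSet X.G ({.chk s i} : Set (Vx R J)) := by
  intro hLD
  obtain ⟨u, hu, hadj⟩ := hLD.1 (.leaf r i) (by simp)
  have : u = .chk s i := hu
  subst this
  simp at hadj

/-- the partition of a splitting -/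
def parts (X : GData R J) (h : R → Bool) : Set (Set (Vx R J)) :=
  Set.range (X.big h) ∪ (fun p : Bool × J => ({.chk p.1 p.2} : Set (Vx R J))) '' {p | X.hubc p.2}

theorem parts_partition (h : R → Bool) (hR : Nonempty R) (hJ : Nonempty J) :
    Setoid.IsPartition (X.parts h) := by
  obtain ⟨r₀⟩ := hR
  obtain ⟨j₀⟩ := hJ
  constructor
  · rintro (⟨s, hs⟩ | ⟨p, _, hp⟩)
    · have : (Vx.hub (!s)) ∈ X.big h s := by simp [big, col]
      rw [hs] at this
      exact this
    · have : (Vx.chk p.1 p.2) ∈ ({.chk p.1 p.2} : Set (Vx R J)) := rfl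
      have hp' : ({.chk p.1 p.2} : Set (Vx R J)) = ∅ := hp
      rw [hp'] at this
      exact this
  · intro a
    cases hc : X.col h a with
    | none =>
      have hchk : ∃ s j, a = .chk s j ∧ X.hubc j := by
        cases a with
        | chk s j =>
          refine ⟨s, j, rfl, ?_⟩
          by_contra hj
          simp [col, hj] at hc
        | base r j => simp [col] at hc
        | leaf r j => simp [col] at hc
        | con r j => simp [col] at hc
        | hub s => simp [col] at hc
      obtain ⟨s, j, rfl, hj⟩ := hchk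
      refine ⟨{.chk s j}, ⟨Or.inr ⟨(s, j), hj, rfl⟩, rfl⟩, ?_⟩
      rintro Y ⟨(⟨s', rfl⟩ | ⟨p, hp, rfl⟩), hY⟩
      · simp only [big, Set.mem_ofPred_eq] at hY
        rw [hc] at hY
        cases hY
      · have : Vx.chk s j = .chk p.1 p.2 := hY
        simp only [this]
    | some s =>
      refine ⟨X.big h s, ⟨Or.inl ⟨s, rfl⟩, hc⟩, ?_⟩
      rintro Y ⟨(⟨s', rfl⟩ | ⟨p, hp, rfl⟩), hY⟩
      · simp only [big, Set.mem_ofPred_eq] at hY
        rw [hc] at hY
        have : s = s' := Option.some.inj hY
        rw [this]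
      · have h1 : a = .chk p.1 p.2 := hY
        rw [h1] at hc
        have h2 : X.hubc p.2 := hp
        simp [col, h2] at hc

theorem parts_LDC (hn1 : ∀ j, X.nxt j ≠ j) (hn2 : ∀ j, X.nxt (X.nxt j) ≠ j)
    (hn3 : Function.Injective X.nxt) {h : R → Bool} (hF : X.Fwd h) (r₀ : R) (i₀ : J)
    (hi₀ : X.hubc i₀) : IsLDCPartition X.G (X.parts h) := by
  refine ⟨parts_partition h ⟨r₀⟩ ⟨i₀⟩, ?_⟩
  have hco : ∀ s i, X.hubc i → IsLDCoalition X.G (X.big h s) {.chk s i} := by
    intro s i hi
    refine ⟨?_, big_not_LD s, single_not_LD r₀ s i, big_LD hn1 hn2 hn3 hF s i hi⟩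
    rw [Set.disjoint_singleton_right]
    simp [big, col, hi]
  have hne : ∀ s i, X.hubc i → ({.chk s i} : Set (Vx R J)) ≠ X.big h s := by
    intro s i hi he
    have : (Vx.chk s i) ∈ X.big h s := by rw [← he]; rfl
    simp [big, col, hi] at this
  rintro Y (⟨s, rfl⟩ | ⟨p, hp, rfl⟩)
  · exact ⟨big_not_LD s, {.chk s i₀}, Or.inr ⟨(s, i₀), hi₀, rfl⟩, hne s i₀ hi₀, hco s i₀ hi₀⟩
  · have hc := hco p.1 p.2 hp
    exact ⟨single_not_LD r₀ p.1 p.2, X.big h p.1, Or.inl ⟨p.1, rfl⟩, (hne p.1 p.2 hp).symm,
      hc.1.symm, hc.2.2.1, hc.2.1, by rw [Set.union_comm]; exact hc.2.2.2⟩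

theorem parts_ncard [Finite R] [Finite J] (h : R → Bool) (hR : Nonempty R) (hJ : Nonempty J)
    (m : ℕ) (hm : m ≤ {j | X.hubc j}.ncard) : 2 * m + 2 ≤ (X.parts h).ncard := by
  classical
  obtain ⟨r₀⟩ := hR
  obtain ⟨j₀⟩ := hJ
  have hfV : Finite (Vx R J) := by
    let f : Vx R J → (R × J) ⊕ (R × J) ⊕ (R × J) ⊕ (Bool × J) ⊕ Bool := fun v => match v with
      | .base r j => .inl (r, j)
      | .leaf r j => .inr (.inl (r, j))
      | .con r j => .inr (.inr (.inl (r, j)))
      | .chk s j => .inr (.inr (.inr (.inl (s, j))))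
      | .hub s => .inr (.inr (.inr (.inr s)))
    apply Finite.of_injective f
    intro a b hab
    cases a <;> cases b <;> simp_all [f]
  have h1 : (Set.range (X.big h)).ncard = 2 := by
    rw [Set.ncard_range_of_injective]
    · simp
    · intro s s' hs
      have : (Vx.hub (!s)) ∈ X.big h s := by simp [big, col]
      rw [hs] at this
      simp only [big, col, Set.mem_ofPred_eq, Bool.not_not, Option.some.injEq] at this
      exact this
  have h2 : ((fun p : Bool × J => ({.chk p.1 p.2} : Set (Vx R J))) '' {p | X.hubc p.2}).ncard =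
      {p : Bool × J | X.hubc p.2}.ncard := by
    apply Set.ncard_image_of_injective
    intro p p' hp
    simp only [Set.singleton_eq_singleton_iff, Vx.chk.injEq] at hp
    exact Prod.ext hp.1 hp.2
  have h3 : {p : Bool × J | X.hubc p.2} = Set.univ ×ˢ {j | X.hubc j} := by
    ext p
    simp
  have h4 : {p : Bool × J | X.hubc p.2}.ncard = 2 * {j | X.hubc j}.ncard := by
    rw [h3, Set.ncard_prod, Set.ncard_univ]
    simp
  have h5 : Disjoint (Set.range (X.big h))
      ((fun p : Bool × J => ({.chk p.1 p.2} : Set (Vx R J))) '' {p | X.hubc p.2}) := by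
    rw [Set.disjoint_left]
    rintro Y ⟨s, rfl⟩ ⟨p, hp, he⟩
    have : (Vx.chk p.1 p.2) ∈ X.big h s := by
      rw [← he]
      rfl
    have h6 : X.hubc p.2 := hp
    simp [big, col, h6] at this
  unfold parts
  rw [Set.ncard_union_eq h5 (Set.toFinite _) (Set.toFinite _), h1, h2, h4]
  omega

end GData

end Pool.Agent.Lib57
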