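import Mathlib
import Pool.Agent.Lib_helper57.LDCGadget

/-! From a large LDC-partition of the gadget graph to a splitting of the rows. -/

namespace Pool.Agent.Lib57

namespace GData

variable {R J : Type} {X : GData R J}

theorem finite_Vx [Finite R] [Finite J] : Finite (Vx R J) := by
  let f : Vx R J → (R × J) ⊕ (R × J) ⊕ (R × J) ⊕ (Bool × J) ⊕ Bool := fun v => match v with
    | .base r j => .inl (r, j)
    | .leaf r j => .inr (.inl (r, j))
    | .con r j => .inr (.inr (.inl (r, j)))
    | .chk s j => .inr (.inr (.inr (.inl (s, j))))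
    | .hub s => .inr (.inr (.inr (.inr s)))
  apply Finite.of_injective f
  intro a b hab
  cases a <;> cases b <;> simp_all [f]

/-- the degree conditions -/
structure Deg (X : GData R J) : Prop where
  inj : Function.Injective X.nxt
  vert : ∀ r, {r' | X.vert r r' ∨ X.vert r' r}.ncard ≤ 2
  W8 : ∀ s j, {r | X.W s j r}.ncard ≤ 8
  W7 : ∀ s j, X.hubc j → {r | X.W s j r}.ncard ≤ 7

theorem nb_base [Finite R] [Finite J] (hD : X.Deg) (r : R) (j : J) :
    (X.G.neighborSet (.base r j)).ncard ≤ 8 := by
  have hfV : Finite (Vx R J) := finite_Vx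
  have hsub : X.G.neighborSet (.base r j) ⊆
      ((fun r' => Vx.base r' j) '' {r' | X.vert r r' ∨ X.vert r' r}) ∪
      (({.leaf r j, .con r j} : Set (Vx R J)) ∪
      (((fun j' => Vx.con r j') '' {j' | X.nxt j' = j}) ∪ {.chk true j, .chk false j})) := by
    intro v hv
    rw [SimpleGraph.mem_neighborSet] at hv
    cases v with
    | base r' j' =>
      left
      simp only [G, dAdj] at hv
      rcases hv with ⟨h1, h2, h3⟩ | ⟨h1, h2, h3⟩
      · exact ⟨r', Or.inl h3, by rw [h1]⟩
      · exact ⟨r', Or.inr h3, by rw [h1]⟩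
    | leaf r' j' =>
      rw [adj_base_leaf] at hv
      obtain ⟨rfl, rfl⟩ := hv
      right; left; left; rfl
    | con r' j' =>
      rw [adj_base_con] at hv
      obtain ⟨rfl, rfl | h⟩ := hv
      · right; left; right; rfl
      · right; right; left
        exact ⟨j', h.symm, rfl⟩
    | chk s j' =>
      rw [adj_base_chk] at hv
      obtain ⟨rfl, _⟩ := hv
      right; right; right
      cases s
      · right; rfl
      · left; rfl
    | hub s => simp at hv
  have h1 : ((fun r' => (Vx.base r' j : Vx R J)) '' {r' | X.vert r r' ∨ X.vert r' r}).ncard ≤ 2 :=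
    (Set.ncard_image_le (Set.toFinite _)).trans (hD.vert r)
  have h2 : ({.leaf r j, .con r j} : Set (Vx R J)).ncard ≤ 2 :=
    (Set.ncard_insert_le _ _).trans (by simp)
  have h3 : ((fun j' => (Vx.con r j' : Vx R J)) '' {j' | X.nxt j' = j}).ncard ≤ 1 := by
    refine (Set.ncard_image_le (Set.toFinite _)).trans ?_
    rw [Set.ncard_le_one (Set.toFinite _)]
    intro a ha b hb
    exact hD.inj ((show X.nxt a = j from ha).trans (show X.nxt b = j from hb).symm)
  have h4 : ({.chk true j, .chk false j} : Set (Vx R J)).ncard ≤ 2 :=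
    (Set.ncard_insert_le _ _).trans (by simp)
  have h5 := Set.ncard_le_ncard hsub (Set.toFinite _)
  have h6 := Set.ncard_union_le ((fun r' => Vx.base r' j) '' {r' | X.vert r r' ∨ X.vert r' r})
      (({.leaf r j, .con r j} : Set (Vx R J)) ∪
      (((fun j' => Vx.con r j') '' {j' | X.nxt j' = j}) ∪ {.chk true j, .chk false j}))
  have h7 := Set.ncard_union_le ({.leaf r j, .con r j} : Set (Vx R J))
      (((fun j' => Vx.con r j') '' {j' | X.nxt j' = j}) ∪ {.chk true j, .chk false j})
  have h8 := Set.ncard_union_le ((fun j' => (Vx.con r j' : Vx R J)) '' {j' | X.nxt j' = j})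
    {.chk true j, .chk false j}
  omega

theorem nb_leaf (r : R) (j : J) : X.G.neighborSet (.leaf r j) = {.base r j} := by
  ext v
  rw [SimpleGraph.mem_neighborSet]
  cases v <;> simp

theorem nb_con [Finite R] [Finite J] (r : R) (j : J) :
    (X.G.neighborSet (.con r j)).ncard ≤ 8 := by
  have hfV : Finite (Vx R J) := finite_Vx
  have hsub : X.G.neighborSet (.con r j) ⊆ {.base r j, .base r (X.nxt j)} := by
    intro v hv
    rw [SimpleGraph.mem_neighborSet] at hv
    cases v with
    | base r' j' =>
      rw [adj_con_base] at hv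
      obtain ⟨rfl, rfl | rfl⟩ := hv
      · left; rfl
      · right; rfl
    | _ => simp at hv
  have h1 := Set.ncard_le_ncard hsub (Set.toFinite _)
  have h2 : ({.base r j, .base r (X.nxt j)} : Set (Vx R J)).ncard ≤ 2 :=
    (Set.ncard_insert_le _ _).trans (by simp)
  omega

theorem nb_chk_sub (s : Bool) (j : J) : X.G.neighborSet (.chk s j) ⊆
    ((fun r => Vx.base r j) '' {r | X.W s j r}) ∪ {v | v = .hub s ∧ X.hubc j} := by
  intro v hv
  rw [SimpleGraph.mem_neighborSet] at hv
  cases v with
  | base r' j' =>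
    rw [adj_chk_base] at hv
    obtain ⟨rfl, h⟩ := hv
    left
    exact ⟨r', h, rfl⟩
  | hub s' =>
    rw [adj_chk_hub] at hv
    obtain ⟨rfl, h⟩ := hv
    right
    exact ⟨rfl, h⟩
  | _ => simp at hv

theorem nb_chk [Finite R] [Finite J] (hD : X.Deg) (s : Bool) (j : J) :
    (X.G.neighborSet (.chk s j)).ncard ≤ 8 := by
  have hfV : Finite (Vx R J) := finite_Vx
  have h1 := Set.ncard_le_ncard (nb_chk_sub (X := X) s j) (Set.toFinite _)
  have h2 := Set.ncard_union_le ((fun r => (Vx.base r j : Vx R J)) '' {r | X.W s j r})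
    {v | v = .hub s ∧ X.hubc j}
  have h3 : ((fun r => (Vx.base r j : Vx R J)) '' {r | X.W s j r}).ncard ≤
      {r | X.W s j r}.ncard := Set.ncard_image_le (Set.toFinite _)
  by_cases hj : X.hubc j
  · have h4 := hD.W7 s j hj
    have h5 : {v : Vx R J | v = .hub s ∧ X.hubc j}.ncard ≤ 1 := by
      rw [Set.ncard_le_one (Set.toFinite _)]
      intro a ha b hb
      exact ha.1.trans hb.1.symm
    omega
  · have h4 := hD.W8 s j
    have h5 : {v : Vx R J | v = .hub s ∧ X.hubc j} = ∅ := by
      ext v
      simp [hj]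
    rw [h5, Set.ncard_empty] at h2
    rw [h5] at h1
    omega

theorem nb_hub [Finite R] [Finite J] (s : Bool) :
    (X.G.neighborSet (.hub s)).ncard ≤ {j | X.hubc j}.ncard := by
  have hfV : Finite (Vx R J) := finite_Vx
  have hsub : X.G.neighborSet (.hub s) ⊆ (fun j => Vx.chk s j) '' {j | X.hubc j} := by
    intro v hv
    rw [SimpleGraph.mem_neighborSet] at hv
    cases v with
    | chk s' j' =>
      rw [adj_hub_chk] at hv
      obtain ⟨rfl, h⟩ := hv
      exact ⟨j', h, rfl⟩
    | _ => simp at hv
  exact (Set.ncard_le_ncard hsub (Set.toFinite _)).trans (Set.ncard_image_le (Set.toFinite _))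

theorem nb_or [Finite R] [Finite J] (hD : X.Deg) (v : Vx R J) :
    (X.G.neighborSet v).ncard ≤ 8 ∨ ∃ s, v = .hub s := by
  cases v with
  | base r j => exact Or.inl (nb_base hD r j)
  | leaf r j => left; rw [nb_leaf]; simp
  | con r j => exact Or.inl (nb_con r j)
  | chk s j => exact Or.inl (nb_chk hD s j)
  | hub s => exact Or.inr ⟨s, rfl⟩

theorem cN_ncard {V : Type} [Finite V] (G : SimpleGraph V) (u : V) :
    (cN G u).ncard ≤ 1 + (G.neighborSet u).ncard := by
  have hsub : cN G u ⊆ {u} ∪ G.neighborSet u := by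
    rintro w (rfl | h)
    · left; rfl
    · right; exact h
  have h1 := Set.ncard_le_ncard hsub (Set.toFinite _)
  have h2 := Set.ncard_union_le {u} (G.neighborSet u)
  have h3 : ({u} : Set V).ncard = 1 := Set.ncard_singleton _
  omega

theorem sp_ncard {V : Type} [Finite V] (G : SimpleGraph V) (u v : V) :
    (sp G u v).ncard ≤ 2 + (G.neighborSet u).ncard + (G.neighborSet v).ncard := by
  have hsub : sp G u v ⊆ {u, v} ∪ (G.neighborSet u ∪ G.neighborSet v) := by
    rintro w (rfl | rfl | h)
    · left; left; rfl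
    · left; right; rfl
    · right
      simp only [Set.mem_union, SimpleGraph.mem_neighborSet]
      tauto
  have h1 := Set.ncard_le_ncard hsub (Set.toFinite _)
  have h2 := Set.ncard_union_le {u, v} (G.neighborSet u ∪ G.neighborSet v)
  have h3 := Set.ncard_union_le (G.neighborSet u) (G.neighborSet v)
  have h4 : ({u, v} : Set V).ncard ≤ 2 := (Set.ncard_insert_le _ _).trans (by simp)
  omega

theorem notLD_bound [Finite R] [Finite J] (hD : X.Deg) (m : ℕ)
    (hm : {j | X.hubc j}.ncard = m) (hm8 : 8 ≤ m) (D : Set (Vx R J)) (h : ¬ IsLDSet X.G D) :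
    ∃ e, e.ncard ≤ m + 10 ∧ Trans X.G e ∧ Disjoint D e := by
  have hfV : Finite (Vx R J) := finite_Vx
  have hhub : ∀ s, (X.G.neighborSet (.hub s)).ncard ≤ m := fun s => (nb_hub s).trans hm.le
  rcases not_LD h with ⟨u, hu⟩ | ⟨u, v, huv, hd⟩
  · refine ⟨cN X.G u, ?_, trans_cN u, hu⟩
    have h1 := cN_ncard X.G u
    rcases nb_or hD u with h2 | ⟨s, rfl⟩
    · omega
    · have := hhub s
      omega
  · rcases nb_or hD u with h2 | ⟨s, rfl⟩
    · rcases nb_or hD v with h3 | ⟨s', rfl⟩
      · refine ⟨sp X.G u v, ?_, trans_sp huv, hd⟩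
        have := sp_ncard X.G u v
        omega
      · refine ⟨sp X.G u (.hub s'), ?_, trans_sp huv, hd⟩
        have := sp_ncard X.G u (.hub s')
        have := hhub s'
        omega
    · rcases nb_or hD v with h3 | ⟨s', rfl⟩
      · refine ⟨sp X.G (.hub s) v, ?_, trans_sp huv, hd⟩
        have := sp_ncard X.G (.hub s) v
        have := hhub s
        omega
      · refine ⟨cN X.G (.hub s), ?_, trans_cN _, ?_⟩
        · have := cN_ncard X.G (.hub s)
          have := hhub s
          omega
        · apply Set.disjoint_of_subset_right _ hd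
          rintro w (rfl | hw)
          · left; rfl
          · right; right
            cases w with
            | chk s'' j =>
              rw [adj_hub_chk] at hw ⊢
              rw [adj_hub_chk]
              obtain ⟨rfl, hj⟩ := hw
              intro hc
              have := (hc.1 ⟨rfl, hj⟩).1
              subst this
              exact huv rfl
            | _ => simp at hw

/-- The backward direction. -/
theorem splitting_of_partition [Finite R] [Finite J] (hD : X.Deg) (m : ℕ)
    (hm : {j | X.hubc j}.ncard = m) (hm20 : 20 ≤ m) (r₀ : R) (j₀ : J)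
    (hconn : ∀ j, ∃ n, X.nxt^[n] j₀ = j)
    (hW : ∀ j, ¬ X.hubc j → ∀ r, X.W true j r ↔ X.W false j r)
    (hL : LDCNumGE X.G (2 * m + 2)) :
    ∃ h : R → Bool, ∀ j, ¬ X.hubc j → ∀ s, ∃ r r', r ≠ r' ∧ X.W true j r ∧ X.W true j r' ∧
      h r = s ∧ h r' = s := by
  classical
  have hfV : Finite (Vx R J) := finite_Vx
  obtain ⟨P, hP, hPk⟩ := hL
  have hcl : ∀ r j, cN X.G (.leaf r j) = {.leaf r j, .base r j} := by
    intro r j
    ext w
    constructor
    · rintro (rfl | h)
      · left; rfl
      · right
        have : w ∈ X.G.neighborSet (.leaf r j) := h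
        rw [nb_leaf] at this
        exact this
    · rintro (rfl | h)
      · left; rfl
      · right
        have h' : w = .base r j := h
        subst h'
        simp
  obtain ⟨A, C, hAC, hbA, hlC, hmeet⟩ := large_partition hP (m + 10) 9 (2 * m + 2)
    (notLD_bound hD m hm (by omega)) (.base r₀ j₀) (.leaf r₀ j₀) (hcl r₀ j₀) (by omega) hPk
  have hdis : ∀ v, v ∈ A → v ∈ C → False := fun v h1 h2 => Set.disjoint_left.1 hAC h1 h2
  -- base and leaf
  have hbl : ∀ r j, (Vx.base r j ∈ A ∧ Vx.leaf r j ∈ C) ∨
      (Vx.base r j ∈ C ∧ Vx.leaf r j ∈ A) := by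
    intro r j
    obtain ⟨⟨a, ha, hae⟩, ⟨c, hc, hce⟩⟩ := hmeet _ (trans_cN (.leaf r j)) (by
      rw [hcl]
      have : ({.leaf r j, .base r j} : Set (Vx R J)).ncard ≤ 2 :=
        (Set.ncard_insert_le _ _).trans (by simp)
      omega)
    rw [hcl] at hae hce
    rcases hae with rfl | hae
    · rcases hce with rfl | hce
      · exact absurd hc (fun h => hdis _ ha h)
      · have hce' : c = .base r j := hce
        subst hce'
        exact Or.inr ⟨hc, ha⟩
    · have hae' : a = .base r j := hae
      subst hae'
      rcases hce with rfl | hce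
      · exact Or.inl ⟨ha, hc⟩
      · have hce' : c = .base r j := hce
        subst hce'
        exact absurd hc (fun h => hdis _ ha h)
  have hbC : ∀ r j, Vx.base r j ∉ A ↔ Vx.base r j ∈ C := by
    intro r j
    rcases hbl r j with h | h
    · constructor
      · intro h'; exact absurd h.1 h'
      · intro h'; exact absurd h' (fun h'' => hdis _ h.1 h'')
    · constructor
      · intro _; exact h.1
      · intro _ h''; exact hdis _ h'' h.1
  -- separating leaf and connector
  have hspc : ∀ r j j' : _, X.G.Adj (.con r j) (.base r j') →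
      ∀ w ∈ sp X.G (.leaf r j') (.con r j), w = .leaf r j' ∨ w = .con r j ∨
        (X.G.Adj (.con r j) w ∧ w ≠ .base r j') := by
    rintro r j j' hadj w (rfl | rfl | hw)
    · left; rfl
    · right; left; rfl
    · right; right
      have h1 : X.G.Adj (.leaf r j') w ↔ w = .base r j' := by
        have : w ∈ X.G.neighborSet (.leaf r j') ↔ w ∈ ({.base r j'} : Set (Vx R J)) := by
          rw [nb_leaf]
        simpa using this
      rw [h1] at hw
      by_cases h2 : w = .base r j'
      · subst h2
        exact absurd (iff_of_true rfl hadj) hw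
      · refine ⟨?_, h2⟩
        by_contra h3
        exact hw (iff_of_false h2 h3)
  have hconcard : ∀ r j j' : _, (sp X.G (.leaf r j') (.con r j)).ncard ≤ 9 := by
    intro r j j'
    have h1 := sp_ncard X.G (.leaf r j') (.con r j)
    rw [nb_leaf] at h1
    have h2 : ({.base r j'} : Set (Vx R J)).ncard = 1 := Set.ncard_singleton _
    have h3 : (X.G.neighborSet (.con r j)).ncard ≤ 2 := by
      have hsub : X.G.neighborSet (.con r j) ⊆ {.base r j, .base r (X.nxt j)} := by
        intro v hv
        rw [SimpleGraph.mem_neighborSet] at hv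
        cases v with
        | base r' j' =>
          rw [adj_con_base] at hv
          obtain ⟨rfl, rfl | rfl⟩ := hv
          · left; rfl
          · right; rfl
        | _ => simp at hv
      exact (Set.ncard_le_ncard hsub (Set.toFinite _)).trans
        ((Set.ncard_insert_le _ _).trans (by simp))
    omega
  have hnxt : ∀ r j, Vx.base r j ∈ A ↔ Vx.base r (X.nxt j) ∈ A := by
    intro r j
    have hadj1 : X.G.Adj (.con r j) (.base r j) := by simp
    have hadj2 : X.G.Adj (.con r j) (.base r (X.nxt j)) := by simp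
    have hne1 : (Vx.leaf r j : Vx R J) ≠ .con r j := by simp
    have hne2 : (Vx.leaf r (X.nxt j) : Vx R J) ≠ .con r j := by simp
    obtain ⟨⟨a1, ha1, hae1⟩, ⟨c1, hc1, hce1⟩⟩ := hmeet _ (trans_sp hne1) (hconcard r j j)
    obtain ⟨⟨a2, ha2, hae2⟩, ⟨c2, hc2, hce2⟩⟩ := hmeet _ (trans_sp hne2)
      (hconcard r j (X.nxt j))
    have hb : ∀ w, X.G.Adj (.con r j) w → w ≠ .base r j → w = .base r (X.nxt j) := by
      intro w hw hw'
      cases w with
      | base r' j' =>
        rw [adj_con_base] at hw
        obtain ⟨rfl, rfl | rfl⟩ := hw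
        · exact absurd rfl hw'
        · rfl
      | _ => simp at hw
    have hb' : ∀ w, X.G.Adj (.con r j) w → w ≠ .base r (X.nxt j) → w = .base r j := by
      intro w hw hw'
      cases w with
      | base r' j' =>
        rw [adj_con_base] at hw
        obtain ⟨rfl, rfl | rfl⟩ := hw
        · rfl
        · exact absurd rfl hw'
      | _ => simp at hw
    constructor
    · intro h1
      by_contra h2
      have h2C := (hbC r (X.nxt j)).1 h2
      -- the connector lies in `A` and in `C`
      have hl1 : Vx.leaf r j ∈ C := by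
        rcases hbl r j with h | h
        · exact h.2
        · exact absurd h.1 (fun h' => hdis _ h1 h')
      have hl2 : Vx.leaf r (X.nxt j) ∈ A := by
        rcases hbl r (X.nxt j) with h | h
        · exact absurd h.1 h2
        · exact h.2
      have hcA : Vx.con r j ∈ A := by
        rcases hspc r j j hadj1 a1 hae1 with rfl | rfl | ⟨h3, h4⟩
        · exact absurd hl1 (fun h' => hdis _ ha1 h')
        · exact ha1
        · rw [hb a1 h3 h4] at ha1
          exact absurd ha1 h2
      have hcC : Vx.con r j ∈ C := by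
        rcases hspc r j (X.nxt j) hadj2 c2 hce2 with rfl | rfl | ⟨h3, h4⟩
        · exact absurd hc2 (fun h' => hdis _ hl2 h')
        · exact hc2
        · rw [hb' c2 h3 h4] at hc2
          exact absurd hc2 (fun h' => hdis _ h1 h')
      exact hdis _ hcA hcC
    · intro h2
      by_contra h1
      have h1C := (hbC r j).1 h1
      have hl1 : Vx.leaf r j ∈ A := by
        rcases hbl r j with h | h
        · exact absurd h.1 h1
        · exact h.2
      have hl2 : Vx.leaf r (X.nxt j) ∈ C := by
        rcases hbl r (X.nxt j) with h | h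
        · exact h.2
        · exact absurd h.1 (fun h' => hdis _ h2 h')
      have hcC : Vx.con r j ∈ C := by
        rcases hspc r j j hadj1 c1 hce1 with rfl | rfl | ⟨h3, h4⟩
        · exact absurd hc1 (fun h' => hdis _ hl1 h')
        · exact hc1
        · rw [hb c1 h3 h4] at hc1
          exact absurd hc1 (fun h' => hdis _ h2 h')
      have hcA : Vx.con r j ∈ A := by
        rcases hspc r j (X.nxt j) hadj2 a2 hae2 with rfl | rfl | ⟨h3, h4⟩
        · exact absurd hl2 (fun h' => hdis _ ha2 h')
        · exact ha2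
        · rw [hb' a2 h3 h4] at ha2
          exact absurd ha2 h1
      exact hdis _ hcA hcC
  have hall : ∀ r j, Vx.base r j ∈ A ↔ Vx.base r j₀ ∈ A := by
    intro r j
    obtain ⟨n, rfl⟩ := hconn j
    induction n with
    | zero => rfl
    | succ n ih => rw [Function.iterate_succ_apply', ← hnxt, ih]
  -- checkers
  have hchk : ∀ (S : Set (Vx R J)), (∀ e, Trans X.G e → e.ncard ≤ 9 → (S ∩ e).Nonempty) →
      (∀ r j, Vx.base r j ∈ S → Vx.leaf r j ∉ S) → ∀ s j, ¬ X.hubc j → Vx.chk s j ∉ S →
      ∃ r r', r ≠ r' ∧ X.W s j r ∧ X.W s j r' ∧ Vx.base r j ∈ S ∧ Vx.base r' j ∈ S := by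
    intro S hS hSl s j hj hns
    have hnb : ∀ w, X.G.Adj (.chk s j) w → ∃ r, X.W s j r ∧ w = .base r j := by
      intro w hw
      rcases nb_chk_sub s j (show w ∈ X.G.neighborSet (.chk s j) from hw) with ⟨r, h1, h2⟩ | h
      · exact ⟨r, h1, h2.symm⟩
      · exact absurd h.2 hj
    obtain ⟨w, hwS, hw⟩ := hS _ (trans_cN (.chk s j)) (by
      have h1 := cN_ncard X.G (.chk s j)
      have h2 := nb_chk hD s j
      omega)
    rcases hw with rfl | hw
    · exact absurd hwS hns
    obtain ⟨r, hr, rfl⟩ := hnb w hw
    have hne : (Vx.leaf r j : Vx R J) ≠ .chk s j := by simp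
    have hsub : sp X.G (.leaf r j) (.chk s j) ⊆ {.leaf r j, .chk s j} ∪
        ((fun r' => Vx.base r' j) '' ({r' | X.W s j r'} \ {r})) := by
      rintro w (rfl | rfl | hw')
      · left; left; rfl
      · left; right; rfl
      · right
        have h1 : X.G.Adj (.leaf r j) w ↔ w = .base r j := by
          have : w ∈ X.G.neighborSet (.leaf r j) ↔ w ∈ ({.base r j} : Set (Vx R J)) := by
            rw [nb_leaf]
          simpa using this
        rw [h1] at hw'
        by_cases h2 : w = .base r j
        · subst h2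
          exact absurd (iff_of_true rfl hw) hw'
        · have h3 : X.G.Adj (.chk s j) w := by
            by_contra h3
            exact hw' (iff_of_false h2 h3)
          obtain ⟨r', hr', rfl⟩ := hnb w h3
          refine ⟨r', ⟨hr', ?_⟩, rfl⟩
          rintro rfl
          exact h2 rfl
    obtain ⟨w2, hw2S, hw2⟩ := hS _ (trans_sp hne) (by
      have h1 := Set.ncard_le_ncard hsub (Set.toFinite _)
      have h2 := Set.ncard_union_le ({.leaf r j, .chk s j} : Set (Vx R J))
        ((fun r' => Vx.base r' j) '' ({r' | X.W s j r'} \ {r}))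
      have h3 : ({.leaf r j, .chk s j} : Set (Vx R J)).ncard ≤ 2 :=
        (Set.ncard_insert_le _ _).trans (by simp)
      have h4 : ((fun r' => (Vx.base r' j : Vx R J)) '' ({r' | X.W s j r'} \ {r})).ncard ≤
          ({r' | X.W s j r'} \ {r}).ncard := Set.ncard_image_le (Set.toFinite _)
      have h5 : ({r' | X.W s j r'} \ {r}).ncard + 1 = {r' | X.W s j r'}.ncard :=
        Set.ncard_sdiff_singleton_add_one hr (Set.toFinite _)
      have h6 := hD.W8 s j
      omega)
    rcases hsub hw2 with (rfl | h) | ⟨r', ⟨hr', hrr⟩, rfl⟩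
    · exact absurd hw2S (hSl r j hwS)
    · have h' : w2 = .chk s j := h
      subst h'
      exact absurd hw2S hns
    · exact ⟨r, r', fun h => hrr h.symm, hr, hr', hwS, hw2S⟩
  have hA := hchk A (fun e he hes => (hmeet e he hes).1) (fun r j h1 h2 => by
    rcases hbl r j with h | h
    · exact hdis _ h2 h.2
    · exact hdis _ h1 h.1)
  have hC := hchk C (fun e he hes => (hmeet e he hes).2) (fun r j h1 h2 => by
    rcases hbl r j with h | h
    · exact hdis _ h.1 h1
    · exact hdis _ h.2 h2)
  refine ⟨fun r => decide (Vx.base r j₀ ∈ A), ?_⟩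
  intro j hj s
  -- the twins are split
  have htw : sp X.G (.chk true j) (.chk false j) ⊆ {.chk true j, .chk false j} := by
    rintro w (rfl | rfl | hw)
    · left; rfl
    · right; rfl
    · exfalso
      apply hw
      cases w with
      | base r j' =>
        simp only [adj_chk_base]
        rw [hW j hj r]
      | hub s' => simp [hj]
      | _ => simp
  have htne : (Vx.chk true j : Vx R J) ≠ .chk false j := by simp
  obtain ⟨⟨a, ha, hae⟩, ⟨c, hc, hce⟩⟩ := hmeet _ (trans_sp htne) (by
    have h1 := Set.ncard_le_ncard htw (Set.toFinite _)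
    have h2 : ({.chk true j, .chk false j} : Set (Vx R J)).ncard ≤ 2 :=
      (Set.ncard_insert_le _ _).trans (by simp)
    omega)
  have hWW : ∀ s' r, X.W s' j r ↔ X.W true j r := by
    intro s' r
    cases s'
    · exact (hW j hj r).symm
    · rfl
  have hsplit : ∃ sA sC, Vx.chk sA j ∈ A ∧ Vx.chk sC j ∈ C := by
    have h1 : ∀ w ∈ ({.chk true j, .chk false j} : Set (Vx R J)), ∃ s', w = .chk s' j := by
      rintro w (rfl | h)
      · exact ⟨true, rfl⟩
      · exact ⟨false, h⟩
    obtain ⟨sA, rfl⟩ := h1 a (htw hae)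
    obtain ⟨sC, rfl⟩ := h1 c (htw hce)
    exact ⟨sA, sC, ha, hc⟩
  obtain ⟨sA, sC, hsA, hsC⟩ := hsplit
  cases s with
  | true =>
    obtain ⟨r, r', h0, h1, h2, h3, h4⟩ := hA sC j hj (fun h => hdis _ h hsC)
    refine ⟨r, r', h0, (hWW _ _).1 h1, (hWW _ _).1 h2, ?_, ?_⟩
    · simpa using (hall r j).1 h3
    · simpa using (hall r' j).1 h4
  | false =>
    obtain ⟨r, r', h0, h1, h2, h3, h4⟩ := hC sA j hj (fun h => hdis _ hsA h)
    refine ⟨r, r', h0, (hWW _ _).1 h1, (hWW _ _).1 h2, ?_, ?_⟩
    · have := (hbC r j).2 h3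
      rw [hall] at this
      simpa using this
    · have := (hbC r' j).2 h4
      rw [hall] at this
      simpa using this

end GData

end Pool.Agent.Lib57
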