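import Mathlib
import Pool.Agent.Lib_helper57.LDCBack

/-! The gadget graph of a family of row sets, with numbered rows and columns. -/

namespace Pool.Agent.Lib57

/-- number of rows -/
def nrows (Φ : ℕ) : ℕ := 6 + 2 * Φ

/-- number of normal columns -/
def ncols (Φ Γ : ℕ) : ℕ := 4 + Φ + Γ

/-- the rows of a column; `cl c` are the rows of the clause column number `c` -/
def WN (Φ Γ : ℕ) (cl : ℕ → ℕ → Prop) (s : Bool) (j r : ℕ) : Prop :=
  (j = 0 ∧ (r = 0 ∨ r = 2 ∨ r = 4 ∨ r = 5)) ∨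
  (j = 1 ∧ (r = 1 ∨ r = 2 ∨ r = 4 ∨ r = 5)) ∨
  (j = 2 ∧ (r = 0 ∨ r = 3 ∨ r = 4 ∨ r = 5)) ∨
  (j = 3 ∧ (r = 0 ∨ r = 1 ∨ r = 2 ∨ r = 3)) ∨
  (∃ f < Φ, j = 4 + f ∧ (r = 0 ∨ r = 2 ∨ r = 6 + 2 * f ∨ r = 7 + 2 * f)) ∨
  (∃ c < Γ, j = 4 + Φ + c ∧ cl c r) ∨
  (4 + Φ + Γ ≤ j ∧ (r = 0 ∨ r = 2 ∨ (s = true ∧ r = 1) ∨ (s = false ∧ r = 3)))

/-- the row colouring splits every normal column -/
def RowOK (Φ Γ : ℕ) (cl : ℕ → ℕ → Prop) (h : ℕ → Bool) : Prop :=
  ∀ j < ncols Φ Γ, ∀ s, ∃ r < nrows Φ, ∃ r' < nrows Φ, r ≠ r' ∧ WN Φ Γ cl true j r ∧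
    WN Φ Γ cl true j r' ∧ h r = s ∧ h r' = s

/-- the gadget data; there are twenty hub columns -/
def gdat (Φ Γ : ℕ) (cl : ℕ → ℕ → Prop) : GData (Fin (nrows Φ)) (Fin (ncols Φ Γ + 20)) where
  nxt j := ⟨(j.val + 1) % (ncols Φ Γ + 20), Nat.mod_lt _ (by omega)⟩
  vert r r' := r'.val = r.val + 1
  W s j r := WN Φ Γ cl s j.val r.val
  hubc j := ncols Φ Γ ≤ j.val

/-- conditions on the clause columns -/
structure ClOK (Φ Γ : ℕ) (cl : ℕ → ℕ → Prop) : Prop where
  zero : ∀ c < Γ, cl c 0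
  list : ∀ c < Γ, ∃ l : List ℕ, l.length ≤ 8 ∧ ∀ r, cl c r → r ∈ l

section

variable {Φ Γ : ℕ} {cl : ℕ → ℕ → Prop}

theorem ncard_le_of_list {n : ℕ} (S : Set (Fin n)) (l : List ℕ) (h : ∀ r ∈ S, r.val ∈ l) :
    S.ncard ≤ l.length := by
  classical
  have h1 : S.ncard ≤ (l.toFinset : Set ℕ).ncard := by
    apply Set.ncard_le_ncard_of_injOn (fun r : Fin n => r.val)
    · intro r hr
      simpa using h r hr
    · intro a _ b _ hab
      exact Fin.ext hab
  rw [Set.ncard_coe_finset] at h1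
  exact h1.trans (List.toFinset_card_le l)

theorem WN_list (hcl : ClOK Φ Γ cl) (s : Bool) (j : ℕ) :
    ∃ l : List ℕ, l.length ≤ 8 ∧ ∀ r, WN Φ Γ cl s j r → r ∈ l := by
  by_cases h1 : j < 4
  · refine ⟨[0, 1, 2, 3, 4, 5], by simp, ?_⟩
    intro r hr
    rcases hr with h | h | h | h | ⟨f, hf, h, h'⟩ | ⟨c, hc, h, h'⟩ | h
    · obtain ⟨_, h | h | h | h⟩ := h <;> simp [h]
    · obtain ⟨_, h | h | h | h⟩ := h <;> simp [h]
    · obtain ⟨_, h | h | h | h⟩ := h <;> simp [h]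
    · obtain ⟨_, h | h | h | h⟩ := h <;> simp [h]
    · omega
    · omega
    · omega
  · by_cases h2 : j < 4 + Φ
    · refine ⟨[0, 2, 6 + 2 * (j - 4), 7 + 2 * (j - 4)], by simp, ?_⟩
      intro r hr
      rcases hr with h | h | h | h | ⟨f, hf, h, h'⟩ | ⟨c, hc, h, h'⟩ | h
      · omega
      · omega
      · omega
      · omega
      · have : f = j - 4 := by omega
        subst this
        rcases h' with h' | h' | h' | h' <;> simp [h']
      · omega
      · omega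
    · by_cases h3 : j < 4 + Φ + Γ
      · obtain ⟨l, hl, hl'⟩ := hcl.list (j - (4 + Φ)) (by omega)
        refine ⟨l, hl, ?_⟩
        intro r hr
        rcases hr with h | h | h | h | ⟨f, hf, h, h'⟩ | ⟨c, hc, h, h'⟩ | h
        · omega
        · omega
        · omega
        · omega
        · omega
        · have : c = j - (4 + Φ) := by omega
          subst this
          exact hl' r h'
        · omega
      · refine ⟨[0, 1, 2, 3], by simp, ?_⟩
        intro r hr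
        rcases hr with h | h | h | h | ⟨f, hf, h, h'⟩ | ⟨c, hc, h, h'⟩ | ⟨_, h⟩
        · omega
        · omega
        · omega
        · omega
        · omega
        · omega
        · rcases h with h | h | ⟨_, h⟩ | ⟨_, h⟩ <;> simp [h]

theorem WN_hub_list (s : Bool) (j : ℕ) (hj : ncols Φ Γ ≤ j) :
    ∀ r, WN Φ Γ cl s j r → r ∈ [0, 1, 2, 3] := by
  unfold ncols at hj
  intro r hr
  rcases hr with h | h | h | h | ⟨f, hf, h, h'⟩ | ⟨c, hc, h, h'⟩ | ⟨_, h⟩
  · omega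
  · omega
  · omega
  · omega
  · omega
  · omega
  · rcases h with h | h | ⟨_, h⟩ | ⟨_, h⟩ <;> simp [h]

theorem nxt_inj : Function.Injective (gdat Φ Γ cl).nxt := by
  intro a b hab
  have h1 : (a.val + 1) % (ncols Φ Γ + 20) = (b.val + 1) % (ncols Φ Γ + 20) :=
    congrArg Fin.val hab
  have ha := a.isLt
  have hb := b.isLt
  apply Fin.ext
  rcases Nat.lt_or_ge (a.val + 1) (ncols Φ Γ + 20) with h2 | h2
  · rw [Nat.mod_eq_of_lt h2] at h1
    rcases Nat.lt_or_ge (b.val + 1) (ncols Φ Γ + 20) with h3 | h3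
    · rw [Nat.mod_eq_of_lt h3] at h1
      omega
    · have : b.val + 1 = ncols Φ Γ + 20 := by omega
      rw [this, Nat.mod_self] at h1
      omega
  · have e : a.val + 1 = ncols Φ Γ + 20 := by omega
    rw [e, Nat.mod_self] at h1
    rcases Nat.lt_or_ge (b.val + 1) (ncols Φ Γ + 20) with h3 | h3
    · rw [Nat.mod_eq_of_lt h3] at h1
      omega
    · omega

theorem nxt_ne (j : Fin (ncols Φ Γ + 20)) : (gdat Φ Γ cl).nxt j ≠ j := by
  intro h
  have h1 : (j.val + 1) % (ncols Φ Γ + 20) = j.val := congrArg Fin.val h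
  have hj := j.isLt
  rcases Nat.lt_or_ge (j.val + 1) (ncols Φ Γ + 20) with h2 | h2
  · rw [Nat.mod_eq_of_lt h2] at h1
    omega
  · have e : j.val + 1 = ncols Φ Γ + 20 := by omega
    rw [e, Nat.mod_self] at h1
    omega

theorem nxt_nxt_ne (j : Fin (ncols Φ Γ + 20)) :
    (gdat Φ Γ cl).nxt ((gdat Φ Γ cl).nxt j) ≠ j := by
  intro h
  have h1 : ((j.val + 1) % (ncols Φ Γ + 20) + 1) % (ncols Φ Γ + 20) = j.val := congrArg Fin.val h
  have hj := j.isLt
  rcases Nat.lt_or_ge (j.val + 1) (ncols Φ Γ + 20) with h2 | h2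
  · rw [Nat.mod_eq_of_lt h2] at h1
    rcases Nat.lt_or_ge (j.val + 1 + 1) (ncols Φ Γ + 20) with h3 | h3
    · rw [Nat.mod_eq_of_lt h3] at h1
      omega
    · have e : j.val + 1 + 1 = ncols Φ Γ + 20 := by omega
      rw [e, Nat.mod_self] at h1
      omega
  · have e : j.val + 1 = ncols Φ Γ + 20 := by omega
    rw [e, Nat.mod_self, Nat.mod_eq_of_lt (by omega)] at h1
    omega

theorem nxt_iter (n : ℕ) (hn : n < ncols Φ Γ + 20) :
    (gdat Φ Γ cl).nxt^[n] ⟨0, by omega⟩ = ⟨n, hn⟩ := by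
  induction n with
  | zero => rfl
  | succ n ih =>
    rw [Function.iterate_succ_apply', ih (by omega)]
    apply Fin.ext
    exact Nat.mod_eq_of_lt hn

theorem deg (hcl : ClOK Φ Γ cl) : (gdat Φ Γ cl).Deg where
  inj := nxt_inj
  vert r := by
    have h1 : {r' | (gdat Φ Γ cl).vert r r' ∨ (gdat Φ Γ cl).vert r' r}.ncard ≤
        [r.val + 1, r.val - 1].length := by
      apply ncard_le_of_list
      rintro r' (h | h)
      · have h' : r'.val = r.val + 1 := h
        simp [h']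
      · have h' : r.val = r'.val + 1 := h
        simp [h']
    simpa using h1
  W8 s j := by
    obtain ⟨l, hl, hl'⟩ := WN_list hcl s j.val
    exact (ncard_le_of_list _ l fun r hr => hl' _ hr).trans hl
  W7 s j hj := by
    have := ncard_le_of_list {r | (gdat Φ Γ cl).W s j r} [0, 1, 2, 3]
      fun r hr => WN_hub_list s j.val hj _ hr
    simp only [List.length_cons, List.length_nil] at this
    omega

theorem hub_card : {j | (gdat Φ Γ cl).hubc j}.ncard = 20 := by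
  have h1 : {j | (gdat Φ Γ cl).hubc j} = Set.range (fun i : Fin 20 =>
      (⟨ncols Φ Γ + i.val, by have := i.isLt; omega⟩ : Fin (ncols Φ Γ + 20))) := by
    ext j
    constructor
    · intro hj
      have hj' : ncols Φ Γ ≤ j.val := hj
      have := j.isLt
      exact ⟨⟨j.val - ncols Φ Γ, by omega⟩, Fin.ext (by simp only; omega)⟩
    · rintro ⟨i, rfl⟩
      show ncols Φ Γ ≤ ncols Φ Γ + i.val
      omega
  rw [h1, Set.ncard_range_of_injective]
  · simp
  · intro a b hab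
    have := congrArg Fin.val hab
    simp only at this
    exact Fin.ext (by omega)

theorem WN_normal (s : Bool) (j r : ℕ) (hj : j < ncols Φ Γ) :
    WN Φ Γ cl s j r ↔ WN Φ Γ cl true j r := by
  unfold ncols at hj
  unfold WN
  constructor
  · rintro (h | h | h | h | h | h | ⟨h, _⟩)
    · exact Or.inl h
    · exact Or.inr (Or.inl h)
    · exact Or.inr (Or.inr (Or.inl h))
    · exact Or.inr (Or.inr (Or.inr (Or.inl h)))
    · exact Or.inr (Or.inr (Or.inr (Or.inr (Or.inl h))))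
    · exact Or.inr (Or.inr (Or.inr (Or.inr (Or.inr (Or.inl h)))))
    · omega
  · rintro (h | h | h | h | h | h | ⟨h, _⟩)
    · exact Or.inl h
    · exact Or.inr (Or.inl h)
    · exact Or.inr (Or.inr (Or.inl h))
    · exact Or.inr (Or.inr (Or.inr (Or.inl h)))
    · exact Or.inr (Or.inr (Or.inr (Or.inr (Or.inl h))))
    · exact Or.inr (Or.inr (Or.inr (Or.inr (Or.inr (Or.inl h)))))
    · omega

/-- a large partition gives a row colouring -/
theorem rows_of_LDC (hcl : ClOK Φ Γ cl) (hL : LDCNumGE (gdat Φ Γ cl).G 42) :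
    ∃ h, RowOK Φ Γ cl h := by
  have hr : 0 < nrows Φ := by unfold nrows; omega
  obtain ⟨h, hh⟩ := GData.splitting_of_partition (deg hcl) 20 hub_card le_rfl ⟨0, hr⟩
    ⟨0, by omega⟩ (fun j => ⟨j.val, nxt_iter j.val j.isLt⟩) (fun j hj r => by
      have hj' : j.val < ncols Φ Γ := not_le.1 hj
      show WN Φ Γ cl true j.val r.val ↔ WN Φ Γ cl false j.val r.val
      exact (WN_normal false j.val r.val hj').symm) hL
  refine ⟨fun n => if hn : n < nrows Φ then h ⟨n, hn⟩ else false, ?_⟩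
  intro j hj s
  have hj2 : j < ncols Φ Γ + 20 := by omega
  obtain ⟨r, r', h0, h1, h2, h3, h4⟩ := hh ⟨j, hj2⟩ (by
    show ¬ (ncols Φ Γ ≤ j)
    omega) s
  refine ⟨r.val, r.isLt, r'.val, r'.isLt, fun h => h0 (Fin.ext h), h1, h2, ?_, ?_⟩
  · show (if hn : r.val < nrows Φ then h ⟨r.val, hn⟩ else false) = s
    rw [dif_pos r.isLt]; exact h3
  · show (if hn : r'.val < nrows Φ then h ⟨r'.val, hn⟩ else false) = s
    rw [dif_pos r'.isLt]; exact h4

/-- a normalized row colouring gives a large partition -/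
theorem LDC_of_rows (h : ℕ → Bool) (hR : RowOK Φ Γ cl h) (h0 : h 0 = true)
    (h1 : h 1 = true) (h2 : h 2 = false) (h3 : h 3 = false) :
    LDCNumGE (gdat Φ Γ cl).G 42 := by
  have e0 : 0 < nrows Φ := by unfold nrows; omega
  have e1 : 1 < nrows Φ := by unfold nrows; omega
  have e2 : 2 < nrows Φ := by unfold nrows; omega
  have e3 : 3 < nrows Φ := by unfold nrows; omega
  have hF : (gdat Φ Γ cl).Fwd (fun r => h r.val) := by
    refine ⟨?_, ?_, ?_⟩
    · intro j hj s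
      have hj' : j.val < ncols Φ Γ := not_le.1 hj
      obtain ⟨r, hr, r', hr', g0, g1, g2, g3, g4⟩ := hR j.val hj' (!s)
      exact ⟨⟨r, hr⟩, ⟨r', hr'⟩, fun h => g0 (congrArg Fin.val h),
        (WN_normal s j.val r hj').2 g1, (WN_normal s j.val r' hj').2 g2, g3, g4⟩
    · intro j hj s
      have hj' : 4 + Φ + Γ ≤ j.val := hj
      cases s with
      | true =>
        refine ⟨⟨0, e0⟩, ⟨1, e1⟩, by simp, ?_, ?_, h0, h1⟩
        · show WN Φ Γ cl true j.val 0
          simp [WN, hj']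
        · show WN Φ Γ cl true j.val 1
          simp [WN, hj']
      | false =>
        refine ⟨⟨2, e2⟩, ⟨3, e3⟩, by simp, ?_, ?_, h2, h3⟩
        · show WN Φ Γ cl false j.val 2
          simp [WN, hj']
        · show WN Φ Γ cl false j.val 3
          simp [WN, hj']
    · intro j hj s
      have hj' : 4 + Φ + Γ ≤ j.val := hj
      cases s with
      | true =>
        refine ⟨⟨2, e2⟩, ?_, h2⟩
        show WN Φ Γ cl true j.val 2
        simp [WN, hj']
      | false =>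
        refine ⟨⟨0, e0⟩, ?_, h0⟩
        show WN Φ Γ cl false j.val 0
        simp [WN, hj']
  refine ⟨(gdat Φ Γ cl).parts _, GData.parts_LDC nxt_ne nxt_nxt_ne nxt_inj hF ⟨0, e0⟩
    ⟨ncols Φ Γ, by omega⟩ (show ncols Φ Γ ≤ ncols Φ Γ from le_rfl), ?_⟩
  have := GData.parts_ncard (X := gdat Φ Γ cl) (fun r => h r.val) ⟨⟨0, e0⟩⟩ ⟨⟨0, by omega⟩⟩ 20
    hub_card.ge
  omega

theorem two_two {h : ℕ → Bool} {n a b c d : ℕ}
    (hs : ∀ s, ∃ r < n, ∃ r' < n, r ≠ r' ∧ (r = a ∨ r = b ∨ r = c ∨ r = d) ∧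
      (r' = a ∨ r' = b ∨ r' = c ∨ r' = d) ∧ h r = s ∧ h r' = s) :
    (h a = (!h b) ∧ h c = (!h d)) ∨ (h a = h b ∧ h c = (!h a) ∧ h d = (!h a)) := by
  obtain ⟨r, _, r', _, h0, h1, h2, h3, h4⟩ := hs true
  obtain ⟨u, _, u', _, g0, g1, g2, g3, g4⟩ := hs false
  cases e1 : h a <;> cases e2 : h b <;> cases e3 : h c <;> cases e4 : h d <;>
    first
    | (simp; done)
    | (exfalso; rcases h1 with rfl | rfl | rfl | rfl <;> rcases h2 with rfl | rfl | rfl | rfl <;>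
        simp_all; done)
    | (exfalso; rcases g1 with rfl | rfl | rfl | rfl <;> rcases g2 with rfl | rfl | rfl | rfl <;>
        simp_all; done)

/-- the constants of a row colouring -/
theorem rowOK_const {h : ℕ → Bool} (hR : RowOK Φ Γ cl h) :
    h 0 = h 1 ∧ h 2 = h 3 ∧ h 2 = !h 0 := by
  have key : ∀ j < 4, j < ncols Φ Γ := fun j hj => by unfold ncols; omega
  have hW0 : ∀ r, WN Φ Γ cl true 0 r → (r = 0 ∨ r = 2 ∨ r = 4 ∨ r = 5) := by
    rintro r (h | h | h | h | ⟨f, hf, h, h'⟩ | ⟨c, hc, h, h'⟩ | ⟨h, _⟩)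
    · exact h.2
    · omega
    · omega
    · omega
    · omega
    · omega
    · omega
  have hW1 : ∀ r, WN Φ Γ cl true 1 r → (r = 1 ∨ r = 2 ∨ r = 4 ∨ r = 5) := by
    rintro r (h | h | h | h | ⟨f, hf, h, h'⟩ | ⟨c, hc, h, h'⟩ | ⟨h, _⟩)
    · omega
    · exact h.2
    · omega
    · omega
    · omega
    · omega
    · omega
  have hW2 : ∀ r, WN Φ Γ cl true 2 r → (r = 0 ∨ r = 3 ∨ r = 4 ∨ r = 5) := by
    rintro r (h | h | h | h | ⟨f, hf, h, h'⟩ | ⟨c, hc, h, h'⟩ | ⟨h, _⟩)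
    · omega
    · omega
    · exact h.2
    · omega
    · omega
    · omega
    · omega
  have hW3 : ∀ r, WN Φ Γ cl true 3 r → (r = 0 ∨ r = 1 ∨ r = 2 ∨ r = 3) := by
    rintro r (h | h | h | h | ⟨f, hf, h, h'⟩ | ⟨c, hc, h, h'⟩ | ⟨h, _⟩)
    · omega
    · omega
    · omega
    · exact h.2
    · omega
    · omega
    · omega
  have t0 := two_two (h := h) (n := nrows Φ) (a := 0) (b := 2) (c := 4) (d := 5) fun s => by
    obtain ⟨r, hr, r', hr', g0, g1, g2, g3⟩ := hR 0 (key 0 (by omega)) s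
    exact ⟨r, hr, r', hr', g0, hW0 r g1, hW0 r' g2, g3⟩
  have t1 := two_two (h := h) (n := nrows Φ) (a := 1) (b := 2) (c := 4) (d := 5) fun s => by
    obtain ⟨r, hr, r', hr', g0, g1, g2, g3⟩ := hR 1 (key 1 (by omega)) s
    exact ⟨r, hr, r', hr', g0, hW1 r g1, hW1 r' g2, g3⟩
  have t2 := two_two (h := h) (n := nrows Φ) (a := 0) (b := 3) (c := 4) (d := 5) fun s => by
    obtain ⟨r, hr, r', hr', g0, g1, g2, g3⟩ := hR 2 (key 2 (by omega)) s
    exact ⟨r, hr, r', hr', g0, hW2 r g1, hW2 r' g2, g3⟩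
  have t3 := two_two (h := h) (n := nrows Φ) (a := 0) (b := 1) (c := 2) (d := 3) fun s => by
    obtain ⟨r, hr, r', hr', g0, g1, g2, g3⟩ := hR 3 (key 3 (by omega)) s
    exact ⟨r, hr, r', hr', g0, hW3 r g1, hW3 r' g2, g3⟩
  cases e0 : h 0 <;> cases e1 : h 1 <;> cases e2 : h 2 <;> cases e3 : h 3 <;>
    cases e4 : h 4 <;> cases e5 : h 5 <;> simp_all

/-- complementing a row colouring -/
theorem RowOK.compl {h : ℕ → Bool} (hR : RowOK Φ Γ cl h) : RowOK Φ Γ cl (fun r => !h r) := by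
  intro j hj s
  obtain ⟨r, hr, r', hr', g0, g1, g2, g3, g4⟩ := hR j hj (!s)
  exact ⟨r, hr, r', hr', g0, g1, g2, by simp [g3], by simp [g4]⟩

theorem RowOK.normalize {h : ℕ → Bool} (hR : RowOK Φ Γ cl h) :
    ∃ h, RowOK Φ Γ cl h ∧ h 0 = true ∧ h 1 = true ∧ h 2 = false ∧ h 3 = false := by
  have hc := rowOK_const hR
  cases e0 : h 0 with
  | true =>
    refine ⟨h, hR, e0, ?_, ?_, ?_⟩
    · rw [← hc.1, e0]
    · rw [hc.2.2, e0]; rfl
    · rw [← hc.2.1, hc.2.2, e0]; rfl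
  | false =>
    refine ⟨_, hR.compl, ?_, ?_, ?_, ?_⟩
    · simp [e0]
    · simp only [← hc.1, e0]; rfl
    · simp only [hc.2.2, e0]; rfl
    · simp only [← hc.2.1, hc.2.2, e0]; rfl

theorem LDC_iff_rows (hcl : ClOK Φ Γ cl) :
    LDCNumGE (gdat Φ Γ cl).G 42 ↔ ∃ h, RowOK Φ Γ cl h := by
  constructor
  · exact rows_of_LDC hcl
  · rintro ⟨h, hR⟩
    obtain ⟨h', hR', h0, h1, h2, h3⟩ := hR.normalize
    exact LDC_of_rows h' hR' h0 h1 h2 h3

end

end Pool.Agent.Lib57
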