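import Mathlib
import Pool.Agent.Lib_helper57.LDCRows

/-! Connectivity of the gadget graph and transfer along bijections. -/

namespace Pool.Agent.Lib57

section

variable {Φ Γ : ℕ} {cl : ℕ → ℕ → Prop}

theorem WN_has (hcl : ClOK Φ Γ cl) (s : Bool) (j : ℕ) : ∃ r < 2, WN Φ Γ cl s j r := by
  by_cases h0 : j = 1
  · subst h0
    exact ⟨1, by omega, by simp [WN]⟩
  · refine ⟨0, by omega, ?_⟩
    by_cases h1 : j < 4
    · have : j = 0 ∨ j = 2 ∨ j = 3 := by omega
      rcases this with rfl | rfl | rfl <;> simp [WN]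
    · by_cases h2 : j < 4 + Φ
      · right; right; right; right; left
        exact ⟨j - 4, by omega, by omega, Or.inl rfl⟩
      · by_cases h3 : j < 4 + Φ + Γ
        · right; right; right; right; right; left
          exact ⟨j - (4 + Φ), by omega, by omega, hcl.zero _ (by omega)⟩
        · right; right; right; right; right; right
          exact ⟨by omega, Or.inl rfl⟩

theorem gdat_connected (hcl : ClOK Φ Γ cl) : (gdat Φ Γ cl).G.Connected := by
  have hr : 0 < nrows Φ := by unfold nrows; omega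
  have hc : 0 < ncols Φ Γ + 20 := by omega
  rw [SimpleGraph.connected_iff_exists_forall_reachable]
  refine ⟨.base ⟨0, hr⟩ ⟨0, hc⟩, ?_⟩
  -- first row
  have h0 : ∀ n (hn : n < ncols Φ Γ + 20),
      (gdat Φ Γ cl).G.Reachable (.base ⟨0, hr⟩ ⟨0, hc⟩) (.base ⟨0, hr⟩ ⟨n, hn⟩) := by
    intro n
    induction n with
    | zero => intro _; exact SimpleGraph.Reachable.refl _
    | succ n ih =>
      intro hn
      have hn' : n < ncols Φ Γ + 20 := by omega
      have e1 : (gdat Φ Γ cl).G.Adj (.base ⟨0, hr⟩ ⟨n, hn'⟩) (.con ⟨0, hr⟩ ⟨n, hn'⟩) := by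
        simp
      have e2 : (gdat Φ Γ cl).G.Adj (.con ⟨0, hr⟩ ⟨n, hn'⟩) (.base ⟨0, hr⟩ ⟨n + 1, hn⟩) := by
        rw [GData.adj_con_base]
        refine ⟨rfl, Or.inr ?_⟩
        apply Fin.ext
        exact (Nat.mod_eq_of_lt hn).symm
      exact ((ih hn').trans e1.reachable).trans e2.reachable
  have h1 : ∀ m (hm : m < nrows Φ) (j : Fin (ncols Φ Γ + 20)),
      (gdat Φ Γ cl).G.Reachable (.base ⟨0, hr⟩ ⟨0, hc⟩) (.base ⟨m, hm⟩ j) := by
    intro m
    induction m with
    | zero => intro _ j; exact h0 j.val j.isLt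
    | succ m ih =>
      intro hm j
      have hm' : m < nrows Φ := by omega
      have e1 : (gdat Φ Γ cl).G.Adj (.base ⟨m, hm'⟩ j) (.base ⟨m + 1, hm⟩ j) := by
        left
        refine ⟨rfl, ?_, rfl⟩
        intro h
        have := congrArg Fin.val h
        simp at this
      exact (ih hm' j).trans e1.reachable
  have h2 : ∀ s j, (gdat Φ Γ cl).G.Reachable (.base ⟨0, hr⟩ ⟨0, hc⟩) (.chk s j) := by
    intro s j
    obtain ⟨r, hr2, hW⟩ := WN_has hcl s j.val
    have hr3 : r < nrows Φ := by unfold nrows; omega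
    have e1 : (gdat Φ Γ cl).G.Adj (.base ⟨r, hr3⟩ j) (.chk s j) := by
      rw [GData.adj_base_chk]
      exact ⟨rfl, hW⟩
    exact (h1 r hr3 j).trans e1.reachable
  intro w
  cases w with
  | base r j => exact h1 r.val r.isLt j
  | leaf r j =>
    have e1 : (gdat Φ Γ cl).G.Adj (.base r j) (.leaf r j) := by simp
    exact (h1 r.val r.isLt j).trans e1.reachable
  | con r j =>
    have e1 : (gdat Φ Γ cl).G.Adj (.base r j) (.con r j) := by simp
    exact (h1 r.val r.isLt j).trans e1.reachable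
  | chk s j => exact h2 s j
  | hub s =>
    have e1 : (gdat Φ Γ cl).G.Adj (.chk s ⟨ncols Φ Γ, by omega⟩) (.hub s) := by
      rw [GData.adj_chk_hub]
      exact ⟨rfl, show ncols Φ Γ ≤ ncols Φ Γ from le_rfl⟩
    exact (h2 s _).trans e1.reachable

end

/-! ### transfer -/

section

variable {V V' : Type}

theorem isLDSet_comap (f : V' ≃ V) (G : SimpleGraph V) (D : Set V) :
    IsLDSet (G.comap f) (f ⁻¹' D) ↔ IsLDSet G D := by
  have key : ∀ u : V', (G.comap f).neighborSet u ∩ f ⁻¹' D = f ⁻¹' (G.neighborSet (f u) ∩ D) :=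
    fun u => rfl
  constructor
  · rintro ⟨h1, h2⟩
    refine ⟨fun v hv => ?_, fun u v hu hv huv heq => ?_⟩
    · obtain ⟨u, hu, huv⟩ := h1 (f.symm v) (by simpa using hv)
      refine ⟨f u, hu, ?_⟩
      have : G.Adj (f (f.symm v)) (f u) := huv
      simpa using this
    · apply h2 (f.symm u) (f.symm v) (by simpa using hu) (by simpa using hv) (by simpa using huv)
      rw [key, key]
      simp only [Equiv.apply_symm_apply]
      rw [heq]
  · rintro ⟨h1, h2⟩
    refine ⟨fun v hv => ?_, fun u v hu hv huv heq => ?_⟩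
    · obtain ⟨u, hu, huv⟩ := h1 (f v) hv
      refine ⟨f.symm u, by simpa using hu, ?_⟩
      show G.Adj (f v) (f (f.symm u))
      simpa using huv
    · apply h2 (f u) (f v) hu hv (by simpa using huv)
      rw [key, key] at heq
      exact f.surjective.preimage_injective heq

theorem isLDCoalition_comap (f : V' ≃ V) (G : SimpleGraph V) (X Y : Set V) :
    IsLDCoalition (G.comap f) (f ⁻¹' X) (f ⁻¹' Y) ↔ IsLDCoalition G X Y := by
  unfold IsLDCoalition
  rw [isLDSet_comap, isLDSet_comap, ← Set.preimage_union, isLDSet_comap,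
    Set.disjoint_preimage_iff f.surjective]

theorem isLDCPartition_comap (f : V' ≃ V) (G : SimpleGraph V) (P : Set (Set V))
    (hP : IsLDCPartition G P) : IsLDCPartition (G.comap f) ((f ⁻¹' ·) '' P) := by
  obtain ⟨⟨h1, h2⟩, h3⟩ := hP
  refine ⟨⟨?_, ?_⟩, ?_⟩
  · rintro ⟨X, hX, hX'⟩
    apply h1
    have : X = ∅ := by
      apply f.surjective.preimage_injective
      simpa using hX'
    exact this ▸ hX
  · intro a
    obtain ⟨B, ⟨hB, haB⟩, huniq⟩ := h2 (f a)
    refine ⟨f ⁻¹' B, ⟨⟨B, hB, rfl⟩, haB⟩, ?_⟩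
    rintro _ ⟨⟨C, hC, rfl⟩, haC⟩
    have := huniq C ⟨hC, haC⟩
    rw [this]
  · rintro _ ⟨X, hX, rfl⟩
    obtain ⟨hX1, Y, hY, hne, hco⟩ := h3 X hX
    refine ⟨?_, f ⁻¹' Y, ⟨Y, hY, rfl⟩, ?_, ?_⟩
    · show ¬ IsLDSet (G.comap f) (f ⁻¹' X)
      rw [isLDSet_comap]
      exact hX1
    · intro h
      exact hne (f.surjective.preimage_injective h)
    · exact (isLDCoalition_comap f G X Y).2 hco

theorem LDCNumGE_comap_of (f : V' ≃ V) (G : SimpleGraph V) (k : ℕ) (h : LDCNumGE G k) :
    LDCNumGE (G.comap f) k := by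
  obtain ⟨P, hP, hk⟩ := h
  refine ⟨_, isLDCPartition_comap f G P hP, ?_⟩
  rw [Set.ncard_image_of_injective _ f.surjective.preimage_injective]
  exact hk

theorem LDCNumGE_comap (f : V' ≃ V) (G : SimpleGraph V) (k : ℕ) :
    LDCNumGE (G.comap f) k ↔ LDCNumGE G k := by
  constructor
  · intro h
    have h1 := LDCNumGE_comap_of f.symm _ k h
    have h2 : (G.comap f).comap f.symm = G := by
      ext a b
      show G.Adj (f (f.symm a)) (f (f.symm b)) ↔ G.Adj a b
      simp
    rwa [h2] at h1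
  · exact LDCNumGE_comap_of f G k

end

end Pool.Agent.Lib57
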