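import Mathlib
import Pool.Agent.Lib_helper57.LDCRows
import Pool.Agent.Lib_helper57.Blocks

/-! Row colourings and satisfiability of the formulas of a definable CNF family. -/

namespace Pool.Agent.Lib57

/-- division with remainder, twice -/
theorem dm {q a b : ℕ} (hb : b < q) : (a * q + b) / q = a ∧ (a * q + b) % q = b := by
  have hq : 0 < q := by omega
  constructor
  · rw [Nat.add_comm, Nat.add_mul_div_right _ _ hq, Nat.div_eq_of_lt hb, Nat.zero_add]
  · rw [Nat.add_comm, Nat.add_mul_mod_self_right, Nat.mod_eq_of_lt hb]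

theorem mul_add_lt {p q a b : ℕ} (ha : a < p) (hb : b < q) : a * q + b < p * q := by
  have h1 : (a + 1) * q ≤ p * q := Nat.mul_le_mul_right _ ha
  have h2 : (a + 1) * q = a * q + q := by ring
  omega

theorem three_lt {p q s a b c : ℕ} (ha : a < p) (hb : b < q) (hc : c < s) :
    (a * q + b) * s + c < p * q * s := mul_add_lt (mul_add_lt ha hb) hc

theorem three_dm {q s a b c : ℕ} (hb : b < q) (hc : c < s) :
    ((a * q + b) * s + c) / s / q = a ∧ ((a * q + b) * s + c) / s % q = b ∧
      ((a * q + b) * s + c) % s = c := by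
  rw [(dm hc).1, (dm hc).2]
  exact ⟨(dm hb).1, (dm hb).2, rfl⟩

theorem three_ex {p q s n : ℕ} (h : n < p * q * s) :
    n / s / q < p ∧ n / s % q < q ∧ n % s < s ∧ (n / s / q * q + n / s % q) * s + n % s = n := by
  have hs : 0 < s := by
    rcases Nat.eq_zero_or_pos s with h0 | h0
    · subst h0; simp at h
    · exact h0
  have h1 : n / s < p * q := (Nat.div_lt_iff_lt_mul hs).2 h
  have hq : 0 < q := by
    rcases Nat.eq_zero_or_pos q with h0 | h0
    · subst h0; simp at h1
    · exact h0
  have h2 : n / s / q < p := (Nat.div_lt_iff_lt_mul hq).2 h1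
  refine ⟨h2, Nat.mod_lt _ hq, Nat.mod_lt _ hs, ?_⟩
  rw [Nat.div_add_mod' (n / s) q, Nat.div_add_mod' n s]

/-- the row of a literal -/
def litRow (H A : ℕ) (t i : ℕ) (l : Lit) : ℕ :=
  6 + 2 * (((t + l.dt) * H + l.pos i) * A + l.code) + (if l.sign then 0 else 1)

/-- the rows of the clause column of the pattern `π` at `(t, i)` -/
def patRow (D : DCNF) (x : List Bool) (π : Pat) (t i r : ℕ) : Prop :=
  (π.guard x t i ∧ (r = 0 ∨ r = 2 ∨ r = 3 ∨ ∃ l ∈ π.lits, r = litRow (D.H x) D.A t i l)) ∨
    (¬ π.guard x t i ∧ (r = 0 ∨ r = 1 ∨ r = 2 ∨ r = 3))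

/-- the rows of the clause columns -/
def clD (D : DCNF) (x : List Bool) (c r : ℕ) : Prop :=
  ∃ pk ∈ D.pats.zipIdx, ∃ t < D.T x, ∃ i < D.H x,
    c = (t * D.H x + i) * D.pats.length + pk.2 ∧ patRow D x pk.1 t i r

/-- number of variables -/
def DPhi (D : DCNF) (x : List Bool) : ℕ := D.T x * D.H x * D.A

/-- number of clause columns -/
def DGam (D : DCNF) (x : List Bool) : ℕ := D.T x * D.H x * D.pats.length

variable {D : DCNF} {x : List Bool}

theorem mem_zipIdx' {pk : Pat × ℕ} (h : pk ∈ D.pats.zipIdx) :
    pk.2 < D.pats.length ∧ pk.1 ∈ D.pats := by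
  rw [List.mem_zipIdx_iff_getElem?] at h
  obtain ⟨h1, h2⟩ := List.getElem?_eq_some_iff.1 h
  exact ⟨h1, h2 ▸ List.getElem_mem h1⟩

theorem zipIdx_unique {pk pk' : Pat × ℕ} (h : pk ∈ D.pats.zipIdx) (h' : pk' ∈ D.pats.zipIdx)
    (he : pk.2 = pk'.2) : pk = pk' := by
  rw [List.mem_zipIdx_iff_getElem?] at h h'
  rw [he, h'] at h
  exact (Prod.ext (Option.some.inj h) he.symm).symm

theorem clD_column {c : ℕ} (hc : c < DGam D x) :
    ∃ pk ∈ D.pats.zipIdx, ∃ t < D.T x, ∃ i < D.H x,
      c = (t * D.H x + i) * D.pats.length + pk.2 ∧ ∀ r, clD D x c r ↔ patRow D x pk.1 t i r := by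
  obtain ⟨h1, h2, h3, h4⟩ := three_ex hc
  have hm : (D.pats[c % D.pats.length], c % D.pats.length) ∈ D.pats.zipIdx := by
    rw [List.mem_zipIdx_iff_getElem?]
    simp [h3]
  refine ⟨_, hm, _, h1, _, h2, h4.symm, fun r => ⟨?_, fun h => ⟨_, hm, _, h1, _, h2, h4.symm, h⟩⟩⟩
  rintro ⟨pk, hpk, t, ht, i, hi, rfl, hr⟩
  obtain ⟨e1, e2, e3⟩ := three_dm (a := t) hi (mem_zipIdx' hpk).1
  have := zipIdx_unique hm hpk e3
  rw [this, e1, e2]
  exact hr

theorem clD_ok (hD : D.Good 5) : ClOK (DPhi D x) (DGam D x) (clD D x) where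
  zero c hc := by
    obtain ⟨pk, hpk, t, ht, i, hi, rfl, hr⟩ := clD_column hc
    rw [hr]
    by_cases hg : pk.1.guard x t i
    · exact Or.inl ⟨hg, Or.inl rfl⟩
    · exact Or.inr ⟨hg, Or.inl rfl⟩
  list c hc := by
    obtain ⟨pk, hpk, t, ht, i, hi, rfl, hr⟩ := clD_column hc
    by_cases hg : pk.1.guard x t i
    · refine ⟨0 :: 2 :: 3 :: pk.1.lits.map (litRow (D.H x) D.A t i), ?_, ?_⟩
      · have := hD.width pk.1 (mem_zipIdx' hpk).2
        simp only [List.length_cons, List.length_map]
        omega
      · intro r h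
        rw [hr] at h
        rcases h with ⟨_, rfl | rfl | rfl | ⟨l, hl, rfl⟩⟩ | ⟨h, _⟩
        · simp
        · simp
        · simp
        · simp only [List.mem_cons, List.mem_map]
          exact Or.inr (Or.inr (Or.inr ⟨l, hl, rfl⟩))
        · exact absurd hg h
    · refine ⟨[0, 1, 2, 3], by simp, ?_⟩
      intro r h
      rw [hr] at h
      rcases h with ⟨h, _⟩ | ⟨_, rfl | rfl | rfl | rfl⟩
      · exact absurd h hg
      · simp
      · simp
      · simp
      · simp

theorem litRow_lt (hD : D.Good 5) {π : Pat} (hπ : π ∈ D.pats) {t i : ℕ} (ht : t < D.T x)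
    (hi : i < D.H x) (hg : π.guard x t i) {l : Lit} (hl : l ∈ π.lits) :
    litRow (D.H x) D.A t i l < nrows (DPhi D x) := by
  obtain ⟨h1, h2, h3⟩ := hD.range π hπ x t i ht hi hg l hl
  have := three_lt h1 h2 h3
  unfold litRow nrows DPhi
  split_ifs <;> omega

/-- the rows of a variable column -/
theorem WN_var {Φ Γ : ℕ} {cl : ℕ → ℕ → Prop} {f : ℕ} (hf : f < Φ) {r : ℕ}
    (h : WN Φ Γ cl true (4 + f) r) : r = 0 ∨ r = 2 ∨ r = 6 + 2 * f ∨ r = 7 + 2 * f := by
  rcases h with h | h | h | h | ⟨f', hf', h, h'⟩ | ⟨c, hc, h, h'⟩ | ⟨h, _⟩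
  · omega
  · omega
  · omega
  · omega
  · have : f' = f := by omega
    subst this
    exact h'
  · omega
  · omega

/-- the rows of a clause column -/
theorem WN_cl {Φ Γ : ℕ} {cl : ℕ → ℕ → Prop} {c : ℕ} (hc : c < Γ) {r : ℕ}
    (h : WN Φ Γ cl true (4 + Φ + c) r) : cl c r := by
  rcases h with h | h | h | h | ⟨f', hf', h, h'⟩ | ⟨c', hc', h, h'⟩ | ⟨h, _⟩
  · omega
  · omega
  · omega
  · omega
  · omega
  · have : c' = c := by omega
    subst this
    exact h'
  · omega

theorem rows_iff_sat (hD : D.Good 5) :
    (∃ h, RowOK (DPhi D x) (DGam D x) (clD D x) h) ↔ D.Sat x := by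
  constructor
  · rintro ⟨h, hR⟩
    obtain ⟨c1, c2, c3⟩ := rowOK_const hR
    have hvar : ∀ f < DPhi D x, h (7 + 2 * f) = !h (6 + 2 * f) := by
      intro f hf
      have t := two_two (h := h) (n := nrows (DPhi D x)) (a := 0) (b := 2) (c := 6 + 2 * f)
        (d := 7 + 2 * f) fun s => by
          obtain ⟨r, hr, r', hr', g0, g1, g2, g3⟩ := hR (4 + f) (by unfold ncols; omega) s
          exact ⟨r, hr, r', hr', g0, WN_var hf g1, WN_var hf g2, g3⟩
      rcases t with ⟨_, t⟩ | ⟨t, _⟩
      · rw [t]; simp
      · rw [c3] at t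
        cases h 0 <;> simp at t
    refine ⟨fun t i a => decide (h (6 + 2 * ((t * D.H x + i) * D.A + a)) = h 0), ?_⟩
    intro t ht i hi π hπ hg
    obtain ⟨k, hk, hk'⟩ := List.getElem_of_mem hπ
    have hm : (π, k) ∈ D.pats.zipIdx := by
      rw [List.mem_zipIdx_iff_getElem?]
      simp [hk, hk']
    have hc : (t * D.H x + i) * D.pats.length + k < DGam D x := three_lt ht hi hk
    obtain ⟨r, hr, r', hr', g0, g1, g2, g3, g4⟩ := hR
      (4 + DPhi D x + ((t * D.H x + i) * D.pats.length + k)) (by unfold ncols; omega) (h 0)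
    have key : ∀ r, WN (DPhi D x) (DGam D x) (clD D x) true
        (4 + DPhi D x + ((t * D.H x + i) * D.pats.length + k)) r → h r = h 0 → r ≠ 0 →
        ∃ l ∈ π.lits, r = litRow (D.H x) D.A t i l := by
      intro r hr hh h0
      have h1 := WN_cl hc hr
      obtain ⟨pk, hpk, t', ht', i', hi', e, hcl⟩ := h1
      obtain ⟨a1, a2, a3⟩ := three_dm (a := t) hi hk
      obtain ⟨b1, b2, b3⟩ := three_dm (a := t') hi' (mem_zipIdx' hpk).1
      rw [← e] at b1 b2 b3
      have et : t' = t := by rw [← b1, a1]
      have ei : i' = i := by rw [← b2, a2]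
      have ek : pk.2 = k := by rw [← b3, a3]
      have ep : pk = (π, k) := zipIdx_unique hpk hm ek
      subst et ei ep
      rcases hcl with ⟨_, rfl | rfl | rfl | hl⟩ | ⟨h, _⟩
      · exact absurd rfl h0
      · rw [c3] at hh
        cases h 0 <;> simp at hh
      · rw [← c2, c3] at hh
        cases h 0 <;> simp at hh
      · exact hl
      · exact absurd hg h
    have key2 : ∃ r, h r = h 0 ∧ ∃ l ∈ π.lits, r = litRow (D.H x) D.A t i l := by
      by_cases hr0 : r = 0
      · exact ⟨r', g4, key r' g2 g4 (by omega)⟩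
      · exact ⟨r, g3, key r g1 g3 hr0⟩
    obtain ⟨r, hr, l, hl, rfl⟩ := key2
    refine ⟨l, hl, ?_⟩
    obtain ⟨q1, q2, q3⟩ := hD.range π hπ x t i ht hi hg l hl
    have hf : ((t + l.dt) * D.H x + l.pos i) * D.A + l.code < DPhi D x := three_lt q1 q2 q3
    unfold litRow at hr
    cases hs : l.sign with
    | true =>
      simp only [hs] at hr
      simp only [decide_eq_true_eq]
      simpa using hr
    | false =>
      simp only [hs] at hr
      have e : 6 + 2 * (((t + l.dt) * D.H x + l.pos i) * D.A + l.code) +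
          (if false = true then 0 else 1) =
          7 + 2 * (((t + l.dt) * D.H x + l.pos i) * D.A + l.code) := by
        simp only [Bool.false_eq_true, if_false]
        omega
      rw [e, hvar _ hf] at hr
      simp only [decide_eq_false_iff_not]
      intro h'
      rw [h'] at hr
      cases h 0 <;> simp at hr
  · rintro ⟨y, hy⟩
    let g : ℕ → Bool := fun f => y (f / D.A / D.H x) (f / D.A % D.H x) (f % D.A)
    let h : ℕ → Bool := fun r =>
      if r < 2 then true else if r < 4 then false else if r = 4 then true else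
        if r = 5 then false else if r % 2 = 0 then g ((r - 6) / 2) else !g ((r - 6) / 2)
    have h0 : h 0 = true := rfl
    have h1 : h 1 = true := rfl
    have h2 : h 2 = false := rfl
    have h3 : h 3 = false := rfl
    have h4 : h 4 = true := rfl
    have h5 : h 5 = false := rfl
    have h6 : ∀ f, h (6 + 2 * f) = g f := by
      intro f
      show (if 6 + 2 * f < 2 then true else if 6 + 2 * f < 4 then false else
        if 6 + 2 * f = 4 then true else if 6 + 2 * f = 5 then false else
        if (6 + 2 * f) % 2 = 0 then g ((6 + 2 * f - 6) / 2) else !g ((6 + 2 * f - 6) / 2)) = _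
      rw [if_neg (by omega), if_neg (by omega), if_neg (by omega), if_neg (by omega),
        if_pos (by omega)]
      congr 1
      omega
    have h7 : ∀ f, h (7 + 2 * f) = !g f := by
      intro f
      show (if 7 + 2 * f < 2 then true else if 7 + 2 * f < 4 then false else
        if 7 + 2 * f = 4 then true else if 7 + 2 * f = 5 then false else
        if (7 + 2 * f) % 2 = 0 then g ((7 + 2 * f - 6) / 2) else !g ((7 + 2 * f - 6) / 2)) = _
      rw [if_neg (by omega), if_neg (by omega), if_neg (by omega), if_neg (by omega),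
        if_neg (by omega)]
      congr 2
      omega
    have hn : 6 ≤ nrows (DPhi D x) := by unfold nrows; omega
    refine ⟨h, ?_⟩
    intro j hj s
    unfold ncols at hj
    by_cases hj4 : j < 4
    · have hjc : j = 0 ∨ j = 1 ∨ j = 2 ∨ j = 3 := by omega
      rcases hjc with rfl | rfl | rfl | rfl
      · cases s with
        | true => exact ⟨0, by omega, 4, by omega, by omega, by simp [WN], by simp [WN], h0, h4⟩
        | false => exact ⟨2, by omega, 5, by omega, by omega, by simp [WN], by simp [WN], h2, h5⟩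
      · cases s with
        | true => exact ⟨1, by omega, 4, by omega, by omega, by simp [WN], by simp [WN], h1, h4⟩
        | false => exact ⟨2, by omega, 5, by omega, by omega, by simp [WN], by simp [WN], h2, h5⟩
      · cases s with
        | true => exact ⟨0, by omega, 4, by omega, by omega, by simp [WN], by simp [WN], h0, h4⟩
        | false => exact ⟨3, by omega, 5, by omega, by omega, by simp [WN], by simp [WN], h3, h5⟩
      · cases s with
        | true => exact ⟨0, by omega, 1, by omega, by omega, by simp [WN], by simp [WN], h0, h1⟩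
        | false => exact ⟨2, by omega, 3, by omega, by omega, by simp [WN], by simp [WN], h2, h3⟩
    · by_cases hj5 : j < 4 + DPhi D x
      · obtain ⟨f, hf, rfl⟩ : ∃ f < DPhi D x, j = 4 + f := ⟨j - 4, by omega, by omega⟩
        have hW : ∀ r, (r = 0 ∨ r = 2 ∨ r = 6 + 2 * f ∨ r = 7 + 2 * f) →
            WN (DPhi D x) (DGam D x) (clD D x) true (4 + f) r := by
          intro r hr
          right; right; right; right; left
          exact ⟨f, hf, rfl, hr⟩
        have hn2 : 7 + 2 * f < nrows (DPhi D x) := by unfold nrows; omega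
        cases hg : g f with
        | true =>
          cases s with
          | true => exact ⟨0, by omega, 6 + 2 * f, by omega, by omega, hW _ (by omega),
              hW _ (by omega), h0, by rw [h6, hg]⟩
          | false => exact ⟨2, by omega, 7 + 2 * f, by omega, by omega, hW _ (by omega),
              hW _ (by omega), h2, by rw [h7, hg]; rfl⟩
        | false =>
          cases s with
          | true => exact ⟨0, by omega, 7 + 2 * f, by omega, by omega, hW _ (by omega),
              hW _ (by omega), h0, by rw [h7, hg]; rfl⟩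
          | false => exact ⟨2, by omega, 6 + 2 * f, by omega, by omega, hW _ (by omega),
              hW _ (by omega), h2, by rw [h6, hg]⟩
      · obtain ⟨c, hc, rfl⟩ : ∃ c < DGam D x, j = 4 + DPhi D x + c :=
          ⟨j - (4 + DPhi D x), by omega, by omega⟩
        have hW : ∀ r, clD D x c r →
            WN (DPhi D x) (DGam D x) (clD D x) true (4 + DPhi D x + c) r := by
          intro r hr
          right; right; right; right; right; left
          exact ⟨c, hc, rfl, hr⟩
        obtain ⟨pk, hpk, t, ht, i, hi, rfl, hcl⟩ := clD_column hc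
        have hπ := (mem_zipIdx' hpk).2
        by_cases hg : pk.1.guard x t i
        · have hW0 : clD D x _ 0 := (hcl 0).2 (Or.inl ⟨hg, Or.inl rfl⟩)
          have hW2 : clD D x _ 2 := (hcl 2).2 (Or.inl ⟨hg, Or.inr (Or.inl rfl)⟩)
          have hW3 : clD D x _ 3 := (hcl 3).2 (Or.inl ⟨hg, Or.inr (Or.inr (Or.inl rfl))⟩)
          cases s with
          | false => exact ⟨2, by omega, 3, by omega, by omega, hW _ hW2, hW _ hW3, h2, h3⟩
          | true =>
            obtain ⟨l, hl, hyl⟩ := hy t ht i hi pk.1 hπ hg
            obtain ⟨q1, q2, q3⟩ := hD.range pk.1 hπ x t i ht hi hg l hl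
            have hWl : clD D x _ (litRow (D.H x) D.A t i l) :=
              (hcl _).2 (Or.inl ⟨hg, Or.inr (Or.inr (Or.inr ⟨l, hl, rfl⟩))⟩)
            refine ⟨0, by omega, _, litRow_lt hD hπ ht hi hg hl, ?_, hW _ hW0, hW _ hWl, h0, ?_⟩
            · unfold litRow
              omega
            · obtain ⟨d1, d2, d3⟩ := three_dm (a := t + l.dt) q2 q3
              have hgf : g (((t + l.dt) * D.H x + l.pos i) * D.A + l.code) = l.sign := by
                show y _ _ _ = _
                rw [d1, d2, d3]
                exact hyl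
              unfold litRow
              cases hs : l.sign with
              | true =>
                simp only [if_true, Nat.add_zero]
                rw [h6, hgf, hs]
              | false =>
                have e : 6 + 2 * (((t + l.dt) * D.H x + l.pos i) * D.A + l.code) +
                    (if false = true then 0 else 1) =
                    7 + 2 * (((t + l.dt) * D.H x + l.pos i) * D.A + l.code) := by
                  simp only [Bool.false_eq_true, if_false]
                  omega
                rw [e, h7, hgf, hs]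
                rfl
        · have hWa : ∀ r, (r = 0 ∨ r = 1 ∨ r = 2 ∨ r = 3) → clD D x
              ((t * D.H x + i) * D.pats.length + pk.2) r := fun r hr =>
            (hcl r).2 (Or.inr ⟨hg, hr⟩)
          cases s with
          | true => exact ⟨0, by omega, 1, by omega, by omega, hW _ (hWa _ (by omega)),
              hW _ (hWa _ (by omega)), h0, h1⟩
          | false => exact ⟨2, by omega, 3, by omega, by omega, hW _ (hWa _ (by omega)),
              hW _ (hWa _ (by omega)), h2, h3⟩

end Pool.Agent.Lib57
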