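import Mathlib
import Pool.Agent.Lib_helper57.LDCSat
import Pool.Agent.Lib_helper57.LDCConn

/-! Numbering the vertices of the gadget graph, and definability of its adjacency relation. -/

namespace Pool.Agent.Lib57

open Function

/-- number of a vertex -/
def idx (ρ γ : ℕ) : Vx (Fin ρ) (Fin γ) → ℕ
  | .base r j => r.val * γ + j.val
  | .leaf r j => ρ * γ + (r.val * γ + j.val)
  | .con r j => 2 * (ρ * γ) + (r.val * γ + j.val)
  | .chk true j => 3 * (ρ * γ) + j.val
  | .chk false j => 3 * (ρ * γ) + γ + j.val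
  | .hub true => 3 * (ρ * γ) + 2 * γ
  | .hub false => 3 * (ρ * γ) + 2 * γ + 1

/-- number of vertices -/
def idxN (ρ γ : ℕ) : ℕ := 3 * (ρ * γ) + 2 * γ + 2

theorem idx_lt (ρ γ : ℕ) (a : Vx (Fin ρ) (Fin γ)) : idx ρ γ a < idxN ρ γ := by
  unfold idxN
  cases a with
  | base r j => have := mul_add_lt r.isLt j.isLt; simp only [idx]; omega
  | leaf r j => have := mul_add_lt r.isLt j.isLt; simp only [idx]; omega
  | con r j => have := mul_add_lt r.isLt j.isLt; simp only [idx]; omega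
  | chk s j => have := j.isLt; cases s <;> simp only [idx] <;> omega
  | hub s => cases s <;> simp only [idx] <;> omega

theorem pair_inj {ρ γ : ℕ} {r r' : Fin ρ} {j j' : Fin γ}
    (h : r.val * γ + j.val = r'.val * γ + j'.val) : r = r' ∧ j = j' := by
  have h1 := dm (a := r.val) j.isLt
  have h2 := dm (a := r'.val) j'.isLt
  rw [h] at h1
  exact ⟨Fin.ext (h1.1.symm.trans h2.1), Fin.ext (h1.2.symm.trans h2.2)⟩

theorem idx_inj (ρ γ : ℕ) : Injective (idx ρ γ) := by
  intro a b h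
  cases a with
  | base r j =>
    have ha := mul_add_lt r.isLt j.isLt
    cases b with
    | base r' j' =>
      obtain ⟨rfl, rfl⟩ := pair_inj (show r.val * γ + j.val = r'.val * γ + j'.val from h)
      rfl
    | leaf r' j' => simp only [idx] at h; omega
    | con r' j' => simp only [idx] at h; omega
    | chk s j' => cases s <;> simp only [idx] at h <;> omega
    | hub s => cases s <;> simp only [idx] at h <;> omega
  | leaf r j =>
    have ha := mul_add_lt r.isLt j.isLt
    cases b with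
    | base r' j' =>
      have hb := mul_add_lt r'.isLt j'.isLt
      simp only [idx] at h; omega
    | leaf r' j' =>
      simp only [idx] at h
      obtain ⟨rfl, rfl⟩ := pair_inj (show r.val * γ + j.val = r'.val * γ + j'.val by omega)
      rfl
    | con r' j' => simp only [idx] at h; omega
    | chk s j' => cases s <;> simp only [idx] at h <;> omega
    | hub s => cases s <;> simp only [idx] at h <;> omega
  | con r j =>
    have ha := mul_add_lt r.isLt j.isLt
    cases b with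
    | base r' j' =>
      have hb := mul_add_lt r'.isLt j'.isLt
      simp only [idx] at h; omega
    | leaf r' j' =>
      have hb := mul_add_lt r'.isLt j'.isLt
      simp only [idx] at h; omega
    | con r' j' =>
      simp only [idx] at h
      obtain ⟨rfl, rfl⟩ := pair_inj (show r.val * γ + j.val = r'.val * γ + j'.val by omega)
      rfl
    | chk s j' => cases s <;> simp only [idx] at h <;> omega
    | hub s => cases s <;> simp only [idx] at h <;> omega
  | chk s j =>
    have hj := j.isLt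
    cases b with
    | base r' j' =>
      have hb := mul_add_lt r'.isLt j'.isLt
      cases s <;> simp only [idx] at h <;> omega
    | leaf r' j' =>
      have hb := mul_add_lt r'.isLt j'.isLt
      cases s <;> simp only [idx] at h <;> omega
    | con r' j' =>
      have hb := mul_add_lt r'.isLt j'.isLt
      cases s <;> simp only [idx] at h <;> omega
    | chk s' j' =>
      have hj' := j'.isLt
      cases s <;> cases s' <;> simp only [idx] at h
      · rw [show j = j' from Fin.ext (by omega)]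
      · omega
      · omega
      · rw [show j = j' from Fin.ext (by omega)]
    | hub s' => cases s <;> cases s' <;> simp only [idx] at h <;> omega
  | hub s =>
    cases b with
    | base r' j' =>
      have hb := mul_add_lt r'.isLt j'.isLt
      cases s <;> simp only [idx] at h <;> omega
    | leaf r' j' =>
      have hb := mul_add_lt r'.isLt j'.isLt
      cases s <;> simp only [idx] at h <;> omega
    | con r' j' =>
      have hb := mul_add_lt r'.isLt j'.isLt
      cases s <;> simp only [idx] at h <;> omega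
    | chk s' j' =>
      have hj' := j'.isLt
      cases s <;> cases s' <;> simp only [idx] at h <;> omega
    | hub s' => cases s <;> cases s' <;> simp only [idx] at h <;> first | rfl | omega

theorem pair_surj {ρ γ n : ℕ} (h : n < ρ * γ) :
    ∃ (r : Fin ρ) (j : Fin γ), r.val * γ + j.val = n := by
  have hγ : 0 < γ := by
    rcases Nat.eq_zero_or_pos γ with h0 | h0
    · subst h0; simp at h
    · exact h0
  exact ⟨⟨n / γ, (Nat.div_lt_iff_lt_mul hγ).2 h⟩, ⟨n % γ, Nat.mod_lt _ hγ⟩, Nat.div_add_mod' n γ⟩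

theorem idx_surj (ρ γ n : ℕ) (h : n < idxN ρ γ) : ∃ a, idx ρ γ a = n := by
  unfold idxN at h
  by_cases h1 : n < ρ * γ
  · obtain ⟨r, j, hrj⟩ := pair_surj h1
    exact ⟨.base r j, hrj⟩
  by_cases h2 : n < 2 * (ρ * γ)
  · obtain ⟨r, j, hrj⟩ := pair_surj (show n - ρ * γ < ρ * γ by omega)
    exact ⟨.leaf r j, by simp only [idx]; omega⟩
  by_cases h3 : n < 3 * (ρ * γ)
  · obtain ⟨r, j, hrj⟩ := pair_surj (show n - 2 * (ρ * γ) < ρ * γ by omega)
    exact ⟨.con r j, by simp only [idx]; omega⟩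
  by_cases h4 : n < 3 * (ρ * γ) + γ
  · exact ⟨.chk true ⟨n - 3 * (ρ * γ), by omega⟩, by simp only [idx]; omega⟩
  by_cases h5 : n < 3 * (ρ * γ) + 2 * γ
  · exact ⟨.chk false ⟨n - (3 * (ρ * γ) + γ), by omega⟩, by simp only [idx]; omega⟩
  by_cases h6 : n = 3 * (ρ * γ) + 2 * γ
  · exact ⟨.hub true, by simp only [idx]; omega⟩
  · exact ⟨.hub false, by simp only [idx]; omega⟩

/-- the numbering as a bijection -/
noncomputable def idxE (ρ γ : ℕ) : Vx (Fin ρ) (Fin γ) ≃ Fin (idxN ρ γ) :=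
  Equiv.ofBijective (fun a => ⟨idx ρ γ a, idx_lt ρ γ a⟩)
    ⟨fun _ _ h => idx_inj ρ γ (congrArg Fin.val h), fun n => by
      obtain ⟨a, ha⟩ := idx_surj ρ γ n.val n.isLt
      exact ⟨a, Fin.ext ha⟩⟩

/-- the directed adjacency relation in terms of numbers -/
def DN (Φ Γ : ℕ) (cl : ℕ → ℕ → Prop) (ρ γ u v : ℕ) : Prop :=
  (∃ r < ρ, ∃ j < γ, u = r * γ + j ∧
    ((r + 1 < ρ ∧ v = (r + 1) * γ + j) ∨ v = ρ * γ + (r * γ + j) ∨
      v = 2 * (ρ * γ) + (r * γ + j) ∨
      (∃ j' < γ, (j = j' + 1 ∨ (j' + 1 = γ ∧ j = 0)) ∧ v = 2 * (ρ * γ) + (r * γ + j')) ∨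
      (v = 3 * (ρ * γ) + j ∧ WN Φ Γ cl true j r) ∨
      (v = 3 * (ρ * γ) + γ + j ∧ WN Φ Γ cl false j r))) ∨
  ∃ j < γ, 4 + Φ + Γ ≤ j ∧ ((u = 3 * (ρ * γ) + j ∧ v = 3 * (ρ * γ) + 2 * γ) ∨
    (u = 3 * (ρ * γ) + γ + j ∧ v = 3 * (ρ * γ) + 2 * γ + 1))

theorem DN_iff (Φ Γ : ℕ) (cl : ℕ → ℕ → Prop) (u v : ℕ) :
    DN Φ Γ cl (nrows Φ) (ncols Φ Γ + 20) u v ↔
      ∃ a b, idx (nrows Φ) (ncols Φ Γ + 20) a = u ∧ idx (nrows Φ) (ncols Φ Γ + 20) b = v ∧
        (gdat Φ Γ cl).dAdj a b := by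
  constructor
  · rintro (⟨r, hr, j, hj, hu, h⟩ | ⟨j, hj, hj', ⟨hu, hv⟩ | ⟨hu, hv⟩⟩)
    · refine ⟨.base ⟨r, hr⟩ ⟨j, hj⟩, ?_⟩
      rcases h with ⟨hr', hv⟩ | hv | hv | ⟨j', hj', hjj, hv⟩ | ⟨hv, hW⟩ | ⟨hv, hW⟩
      · refine ⟨.base ⟨r + 1, hr'⟩ ⟨j, hj⟩, hu.symm, hv.symm, rfl, ?_, rfl⟩
        intro h
        have := congrArg Fin.val h
        simp at this
      · exact ⟨.leaf ⟨r, hr⟩ ⟨j, hj⟩, hu.symm, hv.symm, rfl, rfl⟩
      · exact ⟨.con ⟨r, hr⟩ ⟨j, hj⟩, hu.symm, hv.symm, rfl, Or.inl rfl⟩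
      · refine ⟨.con ⟨r, hr⟩ ⟨j', hj'⟩, hu.symm, hv.symm, rfl, Or.inr ?_⟩
        apply Fin.ext
        show j = (j' + 1) % (ncols Φ Γ + 20)
        rcases hjj with hjj | ⟨hjj, hjj'⟩
        · rw [← hjj, Nat.mod_eq_of_lt hj]
        · rw [hjj, Nat.mod_self, hjj']
      · exact ⟨.chk true ⟨j, hj⟩, hu.symm, hv.symm, rfl, hW⟩
      · exact ⟨.chk false ⟨j, hj⟩, hu.symm, hv.symm, rfl, hW⟩
    · exact ⟨.chk true ⟨j, hj⟩, .hub true, hu.symm, hv.symm, rfl, hj'⟩
    · exact ⟨.chk false ⟨j, hj⟩, .hub false, hu.symm, hv.symm, rfl, hj'⟩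
  · rintro ⟨a, b, rfl, rfl, h⟩
    cases a with
    | base r j =>
      left
      refine ⟨r.val, r.isLt, j.val, j.isLt, rfl, ?_⟩
      cases b with
      | base r' j' =>
        obtain ⟨rfl, _, h3⟩ := h
        have h3' : r'.val = r.val + 1 := h3
        left
        exact ⟨h3' ▸ r'.isLt, by simp only [idx]; rw [h3']⟩
      | leaf r' j' =>
        obtain ⟨rfl, rfl⟩ := h
        exact Or.inr (Or.inl rfl)
      | con r' j' =>
        obtain ⟨rfl, rfl | h⟩ := h
        · exact Or.inr (Or.inr (Or.inl rfl))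
        · refine Or.inr (Or.inr (Or.inr (Or.inl ⟨j'.val, j'.isLt, ?_, rfl⟩)))
          have h' : j.val = (j'.val + 1) % (ncols Φ Γ + 20) := congrArg Fin.val h
          have := j'.isLt
          rcases Nat.lt_or_ge (j'.val + 1) (ncols Φ Γ + 20) with h2 | h2
          · rw [Nat.mod_eq_of_lt h2] at h'
            exact Or.inl h'
          · have e : j'.val + 1 = ncols Φ Γ + 20 := by omega
            rw [e, Nat.mod_self] at h'
            exact Or.inr ⟨e, h'⟩
      | chk s j' =>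
        obtain ⟨rfl, hW⟩ := h
        cases s with
        | true => exact Or.inr (Or.inr (Or.inr (Or.inr (Or.inl ⟨rfl, hW⟩))))
        | false => exact Or.inr (Or.inr (Or.inr (Or.inr (Or.inr ⟨rfl, hW⟩))))
      | hub s => exact absurd h id
    | leaf r j => exact absurd h id
    | con r j => exact absurd h id
    | chk s j =>
      cases b with
      | hub s' =>
        obtain ⟨rfl, hc⟩ := h
        right
        refine ⟨j.val, j.isLt, hc, ?_⟩
        cases s with
        | true => exact Or.inl ⟨rfl, rfl⟩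
        | false => exact Or.inr ⟨rfl, rfl⟩
      | base r' j' => exact absurd h id
      | leaf r' j' => exact absurd h id
      | con r' j' => exact absurd h id
      | chk s' j' => exact absurd h id
    | hub s => exact absurd h id

/-- the adjacency relation in terms of numbers -/
theorem adj_iff (Φ Γ : ℕ) (cl : ℕ → ℕ → Prop)
    (u v : Fin (idxN (nrows Φ) (ncols Φ Γ + 20))) :
    ((gdat Φ Γ cl).G.comap (idxE (nrows Φ) (ncols Φ Γ + 20)).symm).Adj u v ↔
      (DN Φ Γ cl (nrows Φ) (ncols Φ Γ + 20) u v ∨ DN Φ Γ cl (nrows Φ) (ncols Φ Γ + 20) v u) := by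
  have key : ∀ u v : Fin (idxN (nrows Φ) (ncols Φ Γ + 20)),
      (gdat Φ Γ cl).dAdj ((idxE (nrows Φ) (ncols Φ Γ + 20)).symm u)
        ((idxE (nrows Φ) (ncols Φ Γ + 20)).symm v) ↔
      DN Φ Γ cl (nrows Φ) (ncols Φ Γ + 20) u v := by
    intro u v
    rw [DN_iff]
    constructor
    · intro h
      refine ⟨_, _, ?_, ?_, h⟩
      · exact congrArg Fin.val ((idxE (nrows Φ) (ncols Φ Γ + 20)).apply_symm_apply u)
      · exact congrArg Fin.val ((idxE (nrows Φ) (ncols Φ Γ + 20)).apply_symm_apply v)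
    · rintro ⟨a, b, ha, hb, h⟩
      have ea : (idxE (nrows Φ) (ncols Φ Γ + 20)).symm u = a := by
        rw [Equiv.symm_apply_eq]
        exact Fin.ext ha.symm
      have eb : (idxE (nrows Φ) (ncols Φ Γ + 20)).symm v = b := by
        rw [Equiv.symm_apply_eq]
        exact Fin.ext hb.symm
      rw [ea, eb]
      exact h
  rw [← key, ← key]
  rfl

/-! ### definability -/

theorem IsForm.rename {m k : ℕ} {φ : List Bool → (ℕ → ℕ) → Prop} (h : IsForm m φ) (τ : ℕ → ℕ)
    (hτ : ∀ i < m, τ i < k) : IsForm k (fun x e => φ x (fun i => e (τ i))) where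
  indep x e e' he := h.indep x _ _ fun i hi => he _ (hτ i hi)
  comp tgt ρ hs := by
    obtain ⟨p, B, hB, hp⟩ := h.comp tgt (fun i => ρ (τ i)) ⟨hs.1, fun i hi => hs.2 _ (hτ i hi)⟩
    exact ⟨p, B, hB, fun x e σ s ha hx he => hp x _ σ s
      ⟨ha.inp, fun i hi => ha.vars _ (hτ i hi), ha.free⟩ hx fun i hi => he _ (hτ i hi)⟩

variable {D : DCNF}

theorem term_lit (hD : D.Good 5) (l : Lit) : IsTerm 7
    (fun x e => litRow (D.H x) D.A (e 5) (e 6) l) := by
  have hpos : IsTerm 7 (fun _ e => l.pos (e 6)) := by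
    unfold Lit.pos
    cases l.di with
    | none => exact IsTerm.const 7 0
    | some d => exact (IsTerm.var (by norm_num)).add (IsTerm.const 7 d)
  have hs : IsTerm 7 (fun _ _ => if l.sign then 0 else 1) := IsTerm.const 7 _
  exact ((IsTerm.const 7 6).add ((IsTerm.const 7 2).mul ((((((IsTerm.var (by norm_num)).add
    (IsTerm.const 7 l.dt)).mul (hD.H_term.weaken (Nat.zero_le 7))).add hpos).mul
      (IsTerm.const 7 D.A)).add (IsTerm.const 7 l.code)))).add hs

theorem form_patRow (hD : D.Good 5) {π : Pat} (hπ : π ∈ D.pats) : IsForm 7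
    (fun x e => patRow D x π (e 5) (e 6) (e 2)) := by
  have hg : IsForm 7 (fun x e => π.guard x (e 5) (e 6)) :=
    (hD.guard_form π hπ).rename (fun i => i + 5) (fun i hi => by omega)
  have hr : ∀ c, IsForm 7 (fun _ e => e 2 = c) := fun c =>
    IsForm.eq (IsTerm.var (by norm_num)) (IsTerm.const 7 c)
  exact (hg.and ((hr 0).or ((hr 2).or ((hr 3).or (IsForm.exMem π.lits fun l _ =>
    IsForm.eq (IsTerm.var (by norm_num)) (term_lit hD l)))))).or
      (hg.not.and ((hr 0).or ((hr 1).or ((hr 2).or (hr 3)))))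

theorem form_clD (hD : D.Good 5) : IsForm 5 (fun x e => clD D x (e 4) (e 2)) := by
  refine IsForm.exMem D.pats.zipIdx fun pk hpk => ?_
  refine (IsForm.ex (φ := fun x e => ∃ i < D.H x,
    e 4 = (e 5 * D.H x + i) * D.pats.length + pk.2 ∧ patRow D x pk.1 (e 5) i (e 2))
    (hD.T_term.weaken (Nat.zero_le 5)) ?_).congr fun x e => by simp
  refine (IsForm.ex (φ := fun x e =>
    e 4 = (e 5 * D.H x + e 6) * D.pats.length + pk.2 ∧ patRow D x pk.1 (e 5) (e 6) (e 2))
    (hD.H_term.weaken (Nat.zero_le 6)) ?_).congr fun x e => by simp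
  exact (IsForm.eq (IsTerm.var (by norm_num)) (((((IsTerm.var (by norm_num)).mul
    (hD.H_term.weaken (Nat.zero_le 7))).add (IsTerm.var (by norm_num))).mul
      (IsTerm.const 7 _)).add (IsTerm.const 7 _))).and
    (form_patRow hD (mem_zipIdx' hpk).2)

theorem term_Phi (hD : D.Good 5) (k : ℕ) : IsTerm k (fun x _ => DPhi D x) :=
  ((hD.T_term.mul hD.H_term).mul (IsTerm.const 0 D.A)).weaken (Nat.zero_le k)

theorem term_Gam (hD : D.Good 5) (k : ℕ) : IsTerm k (fun x _ => DGam D x) :=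
  ((hD.T_term.mul hD.H_term).mul (IsTerm.const 0 D.pats.length)).weaken (Nat.zero_le k)

theorem term_rho (hD : D.Good 5) (k : ℕ) : IsTerm k (fun x _ => nrows (DPhi D x)) :=
  (IsTerm.const k 6).add ((IsTerm.const k 2).mul (term_Phi hD k))

theorem term_gam (hD : D.Good 5) (k : ℕ) :
    IsTerm k (fun x _ => ncols (DPhi D x) (DGam D x) + 20) :=
  (((IsTerm.const k 4).add (term_Phi hD k)).add (term_Gam hD k)).add (IsTerm.const k 20)

theorem form_WN (hD : D.Good 5) (s : Bool) : IsForm 4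
    (fun x e => WN (DPhi D x) (DGam D x) (clD D x) s (e 3) (e 2)) := by
  have hj : ∀ c, IsForm 4 (fun _ e => e 3 = c) := fun c =>
    IsForm.eq (IsTerm.var (by norm_num)) (IsTerm.const 4 c)
  have hr : ∀ c, IsForm 4 (fun _ e => e 2 = c) := fun c =>
    IsForm.eq (IsTerm.var (by norm_num)) (IsTerm.const 4 c)
  have hs : ∀ b, IsForm 4 (fun _ _ => s = b) := by
    intro b
    by_cases h : s = b
    · exact (IsForm.true 4).congr fun _ _ => by simp [h]
    · exact (IsForm.false 4).congr fun _ _ => by simp [h]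
  have hf : IsForm 4 (fun x e => ∃ f < DPhi D x, e 3 = 4 + f ∧ (e 2 = 0 ∨ e 2 = 2 ∨
      e 2 = 6 + 2 * f ∨ e 2 = 7 + 2 * f)) := by
    refine (IsForm.ex (φ := fun x e => e 3 = 4 + e 4 ∧ (e 2 = 0 ∨ e 2 = 2 ∨
      e 2 = 6 + 2 * e 4 ∨ e 2 = 7 + 2 * e 4)) (term_Phi hD 4) ?_).congr fun x e => by simp
    have v2 : IsTerm 5 (fun _ e => e 2) := IsTerm.var (by norm_num)
    have v3 : IsTerm 5 (fun _ e => e 3) := IsTerm.var (by norm_num)
    have v4 : IsTerm 5 (fun _ e => e 4) := IsTerm.var (by norm_num)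
    exact (IsForm.eq v3 ((IsTerm.const 5 4).add v4)).and ((IsForm.eq v2 (IsTerm.const 5 0)).or
      ((IsForm.eq v2 (IsTerm.const 5 2)).or
        ((IsForm.eq v2 ((IsTerm.const 5 6).add ((IsTerm.const 5 2).mul v4))).or
          (IsForm.eq v2 ((IsTerm.const 5 7).add ((IsTerm.const 5 2).mul v4))))))
  have hc : IsForm 4 (fun x e => ∃ c < DGam D x, e 3 = 4 + DPhi D x + c ∧ clD D x c (e 2)) := by
    refine (IsForm.ex (φ := fun x e => e 3 = 4 + DPhi D x + e 4 ∧ clD D x (e 4) (e 2))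
      (term_Gam hD 4) ?_).congr fun x e => by simp
    have v3 : IsTerm 5 (fun _ e => e 3) := IsTerm.var (by norm_num)
    have v4 : IsTerm 5 (fun _ e => e 4) := IsTerm.var (by norm_num)
    exact (IsForm.eq v3 (((IsTerm.const 5 4).add (term_Phi hD 5)).add v4)).and (form_clD hD)
  have hh : IsForm 4 (fun x e => 4 + DPhi D x + DGam D x ≤ e 3) :=
    IsForm.le (((IsTerm.const 4 4).add (term_Phi hD 4)).add (term_Gam hD 4))
      (IsTerm.var (by norm_num))
  exact ((hj 0).and ((hr 0).or ((hr 2).or ((hr 4).or (hr 5))))).or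
    (((hj 1).and ((hr 1).or ((hr 2).or ((hr 4).or (hr 5))))).or
    (((hj 2).and ((hr 0).or ((hr 3).or ((hr 4).or (hr 5))))).or
    (((hj 3).and ((hr 0).or ((hr 1).or ((hr 2).or (hr 3))))).or
    (hf.or (hc.or (hh.and ((hr 0).or ((hr 2).or (((hs true).and (hr 1)).or
      ((hs false).and (hr 3)))))))))))

theorem form_DN (hD : D.Good 5) : IsForm 2
    (fun x e => DN (DPhi D x) (DGam D x) (clD D x) (nrows (DPhi D x))
      (ncols (DPhi D x) (DGam D x) + 20) (e 0) (e 1)) := by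
  refine IsForm.or ?_ ?_
  · refine (IsForm.ex (φ := fun x e => ∃ j < ncols (DPhi D x) (DGam D x) + 20,
      e 0 = e 2 * (ncols (DPhi D x) (DGam D x) + 20) + j ∧
    ((e 2 + 1 < nrows (DPhi D x) ∧ e 1 = (e 2 + 1) * (ncols (DPhi D x) (DGam D x) + 20) + j) ∨
      e 1 = nrows (DPhi D x) * (ncols (DPhi D x) (DGam D x) + 20) +
        (e 2 * (ncols (DPhi D x) (DGam D x) + 20) + j) ∨
      e 1 = 2 * (nrows (DPhi D x) * (ncols (DPhi D x) (DGam D x) + 20)) +
        (e 2 * (ncols (DPhi D x) (DGam D x) + 20) + j) ∨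
      (∃ j' < ncols (DPhi D x) (DGam D x) + 20,
        (j = j' + 1 ∨ (j' + 1 = ncols (DPhi D x) (DGam D x) + 20 ∧ j = 0)) ∧
        e 1 = 2 * (nrows (DPhi D x) * (ncols (DPhi D x) (DGam D x) + 20)) +
          (e 2 * (ncols (DPhi D x) (DGam D x) + 20) + j')) ∨
      (e 1 = 3 * (nrows (DPhi D x) * (ncols (DPhi D x) (DGam D x) + 20)) + j ∧
        WN (DPhi D x) (DGam D x) (clD D x) true j (e 2)) ∨
      (e 1 = 3 * (nrows (DPhi D x) * (ncols (DPhi D x) (DGam D x) + 20)) +
        (ncols (DPhi D x) (DGam D x) + 20) + j ∧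
        WN (DPhi D x) (DGam D x) (clD D x) false j (e 2))))
      (term_rho hD 2) ?_).congr fun x e => by simp
    refine (IsForm.ex (φ := fun x e =>
      e 0 = e 2 * (ncols (DPhi D x) (DGam D x) + 20) + e 3 ∧
    ((e 2 + 1 < nrows (DPhi D x) ∧ e 1 = (e 2 + 1) * (ncols (DPhi D x) (DGam D x) + 20) + e 3) ∨
      e 1 = nrows (DPhi D x) * (ncols (DPhi D x) (DGam D x) + 20) +
        (e 2 * (ncols (DPhi D x) (DGam D x) + 20) + e 3) ∨
      e 1 = 2 * (nrows (DPhi D x) * (ncols (DPhi D x) (DGam D x) + 20)) +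
        (e 2 * (ncols (DPhi D x) (DGam D x) + 20) + e 3) ∨
      (∃ j' < ncols (DPhi D x) (DGam D x) + 20,
        (e 3 = j' + 1 ∨ (j' + 1 = ncols (DPhi D x) (DGam D x) + 20 ∧ e 3 = 0)) ∧
        e 1 = 2 * (nrows (DPhi D x) * (ncols (DPhi D x) (DGam D x) + 20)) +
          (e 2 * (ncols (DPhi D x) (DGam D x) + 20) + j')) ∨
      (e 1 = 3 * (nrows (DPhi D x) * (ncols (DPhi D x) (DGam D x) + 20)) + e 3 ∧
        WN (DPhi D x) (DGam D x) (clD D x) true (e 3) (e 2)) ∨
      (e 1 = 3 * (nrows (DPhi D x) * (ncols (DPhi D x) (DGam D x) + 20)) +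
        (ncols (DPhi D x) (DGam D x) + 20) + e 3 ∧
        WN (DPhi D x) (DGam D x) (clD D x) false (e 3) (e 2))))
      (term_gam hD 3) ?_).congr fun x e => by simp
    have v0 : IsTerm 4 (fun _ e => e 0) := IsTerm.var (by norm_num)
    have v1 : IsTerm 4 (fun _ e => e 1) := IsTerm.var (by norm_num)
    have v2 : IsTerm 4 (fun _ e => e 2) := IsTerm.var (by norm_num)
    have v3 : IsTerm 4 (fun _ e => e 3) := IsTerm.var (by norm_num)
    have hγ := term_gam hD 4
    have hρ := term_rho hD 4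
    have hb := (v2.mul hγ).add v3
    have hM := hρ.mul hγ
    have h3 : IsForm 4 (fun x e => ∃ j' < ncols (DPhi D x) (DGam D x) + 20,
        (e 3 = j' + 1 ∨ (j' + 1 = ncols (DPhi D x) (DGam D x) + 20 ∧ e 3 = 0)) ∧
        e 1 = 2 * (nrows (DPhi D x) * (ncols (DPhi D x) (DGam D x) + 20)) +
          (e 2 * (ncols (DPhi D x) (DGam D x) + 20) + j')) := by
      refine (IsForm.ex (φ := fun x e =>
        (e 3 = e 4 + 1 ∨ (e 4 + 1 = ncols (DPhi D x) (DGam D x) + 20 ∧ e 3 = 0)) ∧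
        e 1 = 2 * (nrows (DPhi D x) * (ncols (DPhi D x) (DGam D x) + 20)) +
          (e 2 * (ncols (DPhi D x) (DGam D x) + 20) + e 4)) (term_gam hD 4) ?_).congr
          fun x e => by simp
      have w1 : IsTerm 5 (fun _ e => e 1) := IsTerm.var (by norm_num)
      have w2 : IsTerm 5 (fun _ e => e 2) := IsTerm.var (by norm_num)
      have w3 : IsTerm 5 (fun _ e => e 3) := IsTerm.var (by norm_num)
      have w4 : IsTerm 5 (fun _ e => e 4) := IsTerm.var (by norm_num)
      have hγ := term_gam hD 5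
      have hρ := term_rho hD 5
      exact ((IsForm.eq w3 (w4.add (IsTerm.const 5 1))).or
        ((IsForm.eq (w4.add (IsTerm.const 5 1)) hγ).and (IsForm.eq w3 (IsTerm.const 5 0)))).and
        (IsForm.eq w1 (((IsTerm.const 5 2).mul (hρ.mul hγ)).add ((w2.mul hγ).add w4)))
    exact (IsForm.eq v0 hb).and
      (((IsForm.lt (v2.add (IsTerm.const 4 1)) hρ).and
        (IsForm.eq v1 (((v2.add (IsTerm.const 4 1)).mul hγ).add v3))).or
      ((IsForm.eq v1 (hM.add hb)).or
      ((IsForm.eq v1 (((IsTerm.const 4 2).mul hM).add hb)).or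
      (h3.or
      (((IsForm.eq v1 (((IsTerm.const 4 3).mul hM).add v3)).and (form_WN hD true)).or
      ((IsForm.eq v1 ((((IsTerm.const 4 3).mul hM).add hγ).add v3)).and (form_WN hD false)))))))
  · refine (IsForm.ex (φ := fun x e => 4 + DPhi D x + DGam D x ≤ e 2 ∧
      ((e 0 = 3 * (nrows (DPhi D x) * (ncols (DPhi D x) (DGam D x) + 20)) + e 2 ∧
        e 1 = 3 * (nrows (DPhi D x) * (ncols (DPhi D x) (DGam D x) + 20)) +
          2 * (ncols (DPhi D x) (DGam D x) + 20)) ∨
      (e 0 = 3 * (nrows (DPhi D x) * (ncols (DPhi D x) (DGam D x) + 20)) +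
          (ncols (DPhi D x) (DGam D x) + 20) + e 2 ∧
        e 1 = 3 * (nrows (DPhi D x) * (ncols (DPhi D x) (DGam D x) + 20)) +
          2 * (ncols (DPhi D x) (DGam D x) + 20) + 1)))
      (term_gam hD 2) ?_).congr fun x e => by simp
    have v0 : IsTerm 3 (fun _ e => e 0) := IsTerm.var (by norm_num)
    have v1 : IsTerm 3 (fun _ e => e 1) := IsTerm.var (by norm_num)
    have v2 : IsTerm 3 (fun _ e => e 2) := IsTerm.var (by norm_num)
    have hγ := term_gam hD 3
    have hM := (term_rho hD 3).mul hγ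
    exact (IsForm.le (((IsTerm.const 3 4).add (term_Phi hD 3)).add (term_Gam hD 3)) v2).and
      (((IsForm.eq v0 (((IsTerm.const 3 3).mul hM).add v2)).and
        (IsForm.eq v1 (((IsTerm.const 3 3).mul hM).add ((IsTerm.const 3 2).mul hγ)))).or
      ((IsForm.eq v0 ((((IsTerm.const 3 3).mul hM).add hγ).add v2)).and
        (IsForm.eq v1 ((((IsTerm.const 3 3).mul hM).add ((IsTerm.const 3 2).mul hγ)).add
          (IsTerm.const 3 1)))))

end Pool.Agent.Lib57
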