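import Mathlib
import Pool.Agent.Lib_helper57.LDCIndex
import Pool.Agent.Lib_helper57.CookLevin

/-! NP-hardness of the locating-dominating coalition problems. -/

namespace Pool.Agent.Lib57

open Function

theorem finRange_flatMap {β : Type*} {n : ℕ} (f : ℕ → List β) :
    (List.finRange n).flatMap (fun i => f i.val) = (List.range n).flatMap f := by
  rw [← List.map_coe_finRange_eq_range, List.flatMap_map]

theorem encodeGraph_eq {n : ℕ} (G : SimpleGraph (Fin n)) (R : ℕ → ℕ → Prop)
    (hR : ∀ u v : Fin n, G.Adj u v ↔ R u v) :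
    encodeGraph G = (List.range n).flatMap fun u => (List.range n).flatMap fun v =>
      [dec (R u v)] := by
  rw [← finRange_flatMap]
  unfold encodeGraph
  congr 1
  funext u
  rw [← finRange_flatMap, List.map_eq_flatMap]
  congr 1
  funext v
  rw [← dec_congr (hR u v)]
  rfl

theorem length_encodeGraph {n : ℕ} (G : SimpleGraph (Fin n)) :
    (encodeGraph G).length = n * n := by
  unfold encodeGraph
  rw [length_flatMap_const _ n (fun i => by simp)]
  simp

theorem encodeGraph_get {n : ℕ} (G : SimpleGraph (Fin n)) (u v : Fin n) :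
    (encodeGraph G)[n * u.val + v.val]? = some (dec (G.Adj u v)) := by
  unfold encodeGraph
  rw [getElem?_flatMap_const _ n (fun i => by simp) _ u.val v.val v.isLt]
  simp [dec]

theorem encodeGraph_inj {n m : ℕ} (G : SimpleGraph (Fin n)) (G' : SimpleGraph (Fin m))
    (h : encodeGraph G = encodeGraph G') : ∃ e : n = m, e ▸ G = G' := by
  have h1 : n * n = m * m := by
    rw [← length_encodeGraph G, ← length_encodeGraph G', h]
  have h2 : n = m := Nat.mul_self_inj.1 h1
  subst h2
  refine ⟨rfl, ?_⟩
  ext u v
  have h3 := encodeGraph_get G u v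
  rw [h, encodeGraph_get] at h3
  have h4 : dec (G'.Adj u v) = dec (G.Adj u v) := Option.some.inj h3
  by_cases hG : G.Adj u v
  · by_cases hG' : G'.Adj u v
    · exact iff_of_true hG hG'
    · rw [dec_pos hG, dec_neg hG'] at h4
      cases h4
  · by_cases hG' : G'.Adj u v
    · rw [dec_neg hG, dec_pos hG'] at h4
      cases h4
    · exact iff_of_false hG hG'

open Classical in
theorem LDCk_encode {k n : ℕ} (G : SimpleGraph (Fin n)) (hG : G.Connected) :
    LDCk k (encodeGraph G) = true ↔ LDCNumGE G k := by
  unfold LDCk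
  rw [decide_eq_true_eq]
  constructor
  · rintro ⟨m, G', _, h, hL⟩
    obtain ⟨rfl, rfl⟩ := encodeGraph_inj G G' h
    exact hL
  · intro h
    exact ⟨n, G, hG, rfl, h⟩

open Classical in
theorem LDC_encode {k n : ℕ} (G : SimpleGraph (Fin n)) (hG : G.Connected) :
    LDC (N487b59b3.bitEncode (encodeGraph G, k)) = true ↔ LDCNumGE G k := by
  unfold LDC
  rw [decide_eq_true_eq]
  constructor
  · rintro ⟨m, G', k', _, h, hL⟩
    have h2 := N487b59b3.bitEncode_injective h
    obtain ⟨h3, rfl⟩ := Prod.mk.inj h2
    obtain ⟨rfl, rfl⟩ := encodeGraph_inj G G' h3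
    exact hL
  · intro h
    exact ⟨n, G, k, hG, rfl, h⟩

/-- constant words can be printed -/
theorem IsEmit.word {k : ℕ} (l : List Bool) : IsEmit k (fun _ _ => l) := by
  induction l with
  | nil => exact IsEmit.nil k
  | cons a l ih => exact (IsEmit.bit k a).append ih

/-- The number of vertices of the graph of the input `x`. -/
def DN_N (D : DCNF) (x : List Bool) : ℕ :=
  idxN (nrows (DPhi D x)) (ncols (DPhi D x) (DGam D x) + 20)

/-- The graph of the input `x`. -/
noncomputable def DG (D : DCNF) (x : List Bool) : SimpleGraph (Fin (DN_N D x)) :=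
  (gdat (DPhi D x) (DGam D x) (clD D x)).G.comap
    (idxE (nrows (DPhi D x)) (ncols (DPhi D x) (DGam D x) + 20)).symm

/-- adjacency in terms of numbers -/
def DA (D : DCNF) (x : List Bool) (u v : ℕ) : Prop :=
  DN (DPhi D x) (DGam D x) (clD D x) (nrows (DPhi D x))
      (ncols (DPhi D x) (DGam D x) + 20) u v ∨
  DN (DPhi D x) (DGam D x) (clD D x) (nrows (DPhi D x))
      (ncols (DPhi D x) (DGam D x) + 20) v u

variable {D : DCNF}

theorem DG_adj (x : List Bool) (u v : Fin (DN_N D x)) : (DG D x).Adj u v ↔ DA D x u v :=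
  adj_iff _ _ _ u v

theorem DG_connected (hD : D.Good 5) (x : List Bool) : (DG D x).Connected := by
  have h := gdat_connected (clD_ok (x := x) hD)
  exact (SimpleGraph.Iso.comap (idxE (nrows (DPhi D x)) (ncols (DPhi D x) (DGam D x) + 20)).symm
    (gdat (DPhi D x) (DGam D x) (clD D x)).G).connected_iff.2 h

theorem DG_LDC (hD : D.Good 5) (x : List Bool) : LDCNumGE (DG D x) 42 ↔ D.Sat x := by
  rw [← rows_iff_sat hD, ← LDC_iff_rows (clD_ok hD)]
  exact LDCNumGE_comap _ _ _

theorem form_DA (hD : D.Good 5) : IsForm 2 (fun x e => DA D x (e 0) (e 1)) :=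
  (form_DN hD).or ((form_DN hD).rename (fun i => 1 - i) (fun i hi => by omega))

theorem term_N (hD : D.Good 5) (k : ℕ) : IsTerm k (fun x _ => DN_N D x) :=
  (((IsTerm.const k 3).mul ((term_rho hD k).mul (term_gam hD k))).add
    ((IsTerm.const k 2).mul (term_gam hD k))).add (IsTerm.const k 2)

/-- the adjacency matrix can be printed, with arbitrary blocks for the entries -/
theorem emit_graph (hD : D.Good 5) (b c : List Bool) :
    IsEmit 0 (fun x _ => (encodeGraph (DG D x)).flatMap fun s => b ++ ([s] ++ c)) := by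
  have h1 : IsEmit 2 (fun x e => b ++ ([dec (DA D x (e 0) (e 1))] ++ c)) :=
    (IsEmit.word b).append ((IsEmit.dec (form_DA hD)).append (IsEmit.word c))
  have h2 := IsEmit.for (term_N hD 0) (IsEmit.for (term_N hD 1) h1)
  refine h2.congr fun x e => ?_
  rw [encodeGraph_eq (DG D x) (DA D x) (DG_adj x)]
  simp [List.flatMap_assoc]

theorem flatMap_singleton_self (l : List Bool) : (l.flatMap fun s => [] ++ ([s] ++ [])) = l := by
  simp

/-- `LDC_42` is NP-hard. -/
theorem npHard_LDCk : NPHard (LDCk 42) := by
  intro B hB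
  obtain ⟨D, hD, hDS⟩ := cook_levin B hB
  refine ⟨fun x => encodeGraph (DG D x), ?_, fun x => ?_⟩
  · have h := isPolyTime_of_isEmit (emit_graph hD [] [])
    simpa only [flatMap_singleton_self] using h
  · have h1 := LDCk_encode (k := 42) (DG D x) (DG_connected hD x)
    rw [DG_LDC hD, ← hDS] at h1
    exact (Bool.eq_iff_iff.2 h1).symm

/-- `LDC` is NP-hard. -/
theorem npHard_LDC : NPHard LDC := by
  intro B hB
  obtain ⟨D, hD, hDS⟩ := cook_levin B hB
  refine ⟨fun x => N487b59b3.bitEncode (encodeGraph (DG D x), 42), ?_, fun x => ?_⟩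
  · have h := isPolyTime_of_isEmit ((emit_graph hD [true, true, true] [true, false]).append
      (IsEmit.word (false :: N487b59b3.bitEncode (42 : ℕ))))
    have e : (fun x : List Bool => N487b59b3.bitEncode (encodeGraph (DG D x), 42)) =
        fun x => ((encodeGraph (DG D x)).flatMap fun s =>
          [true, true, true] ++ ([s] ++ [true, false])) ++
            (false :: N487b59b3.bitEncode (42 : ℕ)) := by
      funext x
      show N487b59b3.delimit (N487b59b3.bitEncode (encodeGraph (DG D x))) ++
        N487b59b3.bitEncode (42 : ℕ) = _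
      rw [bitEncode_eq_tri, delimit_tri, headWord, List.append_assoc]
      rfl
    rw [e]
    exact h
  · have h1 := LDC_encode (k := 42) (DG D x) (DG_connected hD x)
    rw [DG_LDC hD, ← hDS] at h1
    exact (Bool.eq_iff_iff.2 h1).symm

end Pool.Agent.Lib57
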